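import Pool.Agent.Work.MP_e08233_an.Defs

/-! Bundle of small proof modules (one section per former module). -/

section

/-! The invariant probability measure on the unit sphere of the complex plane C^2 and its
ball estimates. -/

set_option autoImplicit false

open MeasureTheory Complex

namespace Pool.Agent.BM

/-- Lebesgue measure on `E2`. -/
noncomputable def gmMu : Measure E2 :=
  (volume : Measure (Fin 2 → ℂ)).map (EuclideanSpace.equiv (Fin 2) ℂ).symm

instance gmMu_haar : gmMu.IsAddHaarMeasure :=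
  ContinuousLinearEquiv.isAddHaarMeasure_map _ _

lemma gm_box (A D : Set ℂ) : gmMu {w : E2 | w 0 ∈ A ∧ w 1 ∈ D} = volume A * volume D := by
  have hemb : MeasurableEmbedding (EuclideanSpace.equiv (Fin 2) ℂ).symm :=
    (EuclideanSpace.equiv (Fin 2) ℂ).symm.toHomeomorph.measurableEmbedding
  rw [gmMu, hemb.map_apply]
  have h1 : (EuclideanSpace.equiv (Fin 2) ℂ).symm ⁻¹' {w : E2 | w 0 ∈ A ∧ w 1 ∈ D}
      = Set.pi Set.univ ![A, D] := by
    ext f
    simp [Set.mem_pi, Fin.forall_fin_two]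
  rw [h1, volume_pi_pi]
  simp [Fin.prod_univ_two]

lemma gm_rect (a b c d : ℝ) :
    (volume : Measure ℂ) {z : ℂ | (a ≤ z.re ∧ z.re ≤ b) ∧ (c ≤ z.im ∧ z.im ≤ d)}
      = ENNReal.ofReal (b - a) * ENNReal.ofReal (d - c) := by
  have h := Complex.volume_preserving_equiv_real_prod.measure_preimage_equiv
    (Set.Icc a b ×ˢ Set.Icc c d)
  have h2 : measurableEquivRealProd ⁻¹' (Set.Icc a b ×ˢ Set.Icc c d)
      = {z : ℂ | (a ≤ z.re ∧ z.re ≤ b) ∧ (c ≤ z.im ∧ z.im ≤ d)} := by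
    ext z
    simp only [Set.mem_preimage, Complex.measurableEquivRealProd_apply, Set.mem_prod,
      Set.mem_Icc, Set.mem_ofPred_eq]
  rw [h2] at h
  rw [h, Measure.volume_eq_prod, Measure.prod_prod, Real.volume_Icc, Real.volume_Icc]

lemma gm_norm_sq (w : E2) : ‖w‖ ^ 2 = ‖w 0‖ ^ 2 + ‖w 1‖ ^ 2 := by
  rw [EuclideanSpace.norm_sq_eq, Fin.sum_univ_two]

lemma gm_act0 (z q : E2) : act z q 0 = q 0 * z 0 - q 1 * starRingEnd ℂ (z 1) := by
  simp [act, Jm]
  ring

lemma gm_act1 (z q : E2) : act z q 1 = q 0 * z 1 + q 1 * starRingEnd ℂ (z 0) := by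
  simp [act, Jm]

lemma gm_act_norm_sq (z q : E2) : ‖act z q‖ ^ 2 = ‖q‖ ^ 2 * ‖z‖ ^ 2 := by
  rw [gm_norm_sq, gm_norm_sq q, gm_norm_sq z, gm_act0, gm_act1]
  simp only [Complex.sq_norm, Complex.normSq_apply, Complex.sub_re, Complex.sub_im,
    Complex.mul_re, Complex.mul_im, Complex.add_re, Complex.add_im, Complex.conj_re,
    Complex.conj_im]
  ring

lemma gm_act_norm (z q : E2) (hz : z ∈ S) : ‖act z q‖ = ‖q‖ := by
  have h := gm_act_norm_sq z q
  have hz' : ‖z‖ = 1 := hz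
  rw [hz', one_pow, mul_one] at h
  exact (pow_left_inj₀ (norm_nonneg _) (norm_nonneg _) two_ne_zero).mp h

lemma gm_inner_act (p q : E2) (hp : p ∈ S) : (inner ℂ p (act p q) : ℂ) = q 0 := by
  have h : ‖p‖ ^ 2 = 1 := by
    have hp' : ‖p‖ = 1 := hp
    rw [hp', one_pow]
  rw [gm_norm_sq] at h
  rw [PiLp.inner_apply, Fin.sum_univ_two, gm_act0, gm_act1]
  simp only [RCLike.inner_apply]
  have h0 : starRingEnd ℂ (p 0) * p 0 + starRingEnd ℂ (p 1) * p 1 = 1 := by
    rw [Complex.conj_mul', Complex.conj_mul', ← Complex.ofReal_pow, ← Complex.ofReal_pow,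
      ← Complex.ofReal_add, h, Complex.ofReal_one]
  linear_combination (q 0) * h0

lemma gm_dl_act (p q : E2) (hp : p ∈ S) : dl (act p q) p = ‖1 - q 0‖ := by
  rw [dl, gm_inner_act p q hp]

/-- `act z` as a linear isometry. -/
noncomputable def gmIso (z : E2) (hz : z ∈ S) : E2 →ₗᵢ[ℂ] E2 where
  toFun := act z
  map_add' q r := by
    simp only [act, PiLp.add_apply]
    module
  map_smul' c q := by
    simp only [act, PiLp.smul_apply, smul_eq_mul, RingHom.id_apply]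
    module
  norm_map' q := gm_act_norm z q hz

/-- `act z` as a linear isometric equivalence. -/
noncomputable def gmEquiv (z : E2) (hz : z ∈ S) : E2 ≃ₗᵢ[ℂ] E2 :=
  (gmIso z hz).toLinearIsometryEquiv rfl

lemma gmEquiv_apply (z : E2) (hz : z ∈ S) (q : E2) : gmEquiv z hz q = act z q := rfl

lemma gm_measurable_act (z : E2) (hz : z ∈ S) : Measurable (act z) := by
  have : Continuous (act z) := (gmIso z hz).continuous
  exact this.measurable

lemma gm_ball_pos : gmMu (Metric.ball (0 : E2) 1) ≠ 0 :=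
  (Metric.measure_ball_pos _ _ one_pos).ne'

lemma gm_ball_fin : gmMu (Metric.ball (0 : E2) 1) ≠ ⊤ := measure_ball_lt_top.ne

lemma gm_act_preimage_ball (z : E2) (hz : z ∈ S) :
    act z ⁻¹' Metric.ball (0 : E2) 1 = Metric.ball (0 : E2) 1 := by
  ext w
  simp [gm_act_norm z w hz]

lemma gm_mp (z : E2) (hz : z ∈ S) : MeasurePreserving (act z) gmMu gmMu := by
  refine ⟨gm_measurable_act z hz, ?_⟩
  let L : E2 ≃L[ℂ] E2 := (gmEquiv z hz).toContinuousLinearEquiv
  have hL : (Measure.map (⇑L) gmMu).IsAddHaarMeasure :=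
    ContinuousLinearEquiv.isAddHaarMeasure_map L gmMu
  have hL' : (Measure.map (act z) gmMu).IsAddHaarMeasure := hL
  have h1 := Measure.isAddLeftInvariant_eq_smul (Measure.map (act z) gmMu) gmMu
  set c := (Measure.map (act z) gmMu).addHaarScalarFactor gmMu with hc
  have h2 : Measure.map (act z) gmMu (Metric.ball (0 : E2) 1)
      = gmMu (Metric.ball (0 : E2) 1) := by
    rw [Measure.map_apply (gm_measurable_act z hz) Metric.isOpen_ball.measurableSet,
      gm_act_preimage_ball z hz]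
  rw [h1] at h2
  have h3 : (c : ENNReal) * gmMu (Metric.ball (0 : E2) 1) = gmMu (Metric.ball (0 : E2) 1) := by
    simpa [Measure.smul_apply] using h2
  have h4 : (c : ENNReal) = 1 := by
    have h5 : (c : ENNReal) * gmMu (Metric.ball (0 : E2) 1)
        = 1 * gmMu (Metric.ball (0 : E2) 1) := by rw [h3, one_mul]
    exact (ENNReal.mul_left_inj gm_ball_pos gm_ball_fin).mp h5
  rw [h1]
  have h6 : c = 1 := by exact_mod_cast h4
  rw [h6, one_smul]

/-- radial projection -/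
noncomputable def gmR (w : E2) : E2 := ((‖w‖⁻¹ : ℝ) : ℂ) • w

lemma gmR_meas : Measurable gmR := by
  unfold gmR
  have h1 : Measurable (fun w : E2 => ((‖w‖⁻¹ : ℝ) : ℂ)) :=
    Complex.measurable_ofReal.comp measurable_norm.inv
  exact h1.smul measurable_id

lemma gmR_act (z w : E2) (hz : z ∈ S) : act z (gmR w) = gmR (act z w) := by
  have h1 : act z (gmR w) = gmIso z hz (((‖w‖⁻¹ : ℝ) : ℂ) • w) := rfl
  rw [h1, map_smul, gmR, gm_act_norm z w hz]
  rfl

/-- the invariant probability measure -/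
noncomputable def gmSig : Measure E2 :=
  (gmMu (Metric.ball (0 : E2) 1))⁻¹ • (gmMu.restrict (Metric.ball (0 : E2) 1)).map gmR

lemma gmSig_apply (A : Set E2) (hA : MeasurableSet A) :
    gmSig A = (gmMu (Metric.ball (0 : E2) 1))⁻¹
      * gmMu (gmR ⁻¹' A ∩ Metric.ball (0 : E2) 1) := by
  rw [gmSig, Measure.smul_apply, Measure.map_apply gmR_meas hA,
    Measure.restrict_apply (gmR_meas hA), smul_eq_mul]

lemma gmSig_prob : IsProbabilityMeasure gmSig := by
  refine ⟨?_⟩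
  rw [gmSig_apply _ MeasurableSet.univ, Set.preimage_univ, Set.univ_inter]
  exact ENNReal.inv_mul_cancel gm_ball_pos gm_ball_fin

lemma gm_S_meas : MeasurableSet S := by
  have : IsClosed S := isClosed_eq continuous_norm continuous_const
  exact this.measurableSet

lemma gmR_mem (w : E2) (hw : w ≠ 0) : gmR w ∈ S := by
  have h : ‖w‖ ≠ 0 := norm_ne_zero_iff.mpr hw
  show ‖gmR w‖ = 1
  rw [gmR, norm_smul, Complex.norm_real, norm_inv, norm_norm]
  field_simp

lemma gmSig_supp : gmSig Sᶜ = 0 := by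
  rw [gmSig_apply _ gm_S_meas.compl]
  have h1 : gmR ⁻¹' Sᶜ ∩ Metric.ball (0 : E2) 1 ⊆ {0} := by
    intro w hw
    by_contra hne
    exact hw.1 (gmR_mem w hne)
  have h2 : gmMu (gmR ⁻¹' Sᶜ ∩ Metric.ball (0 : E2) 1) = 0 :=
    measure_mono_null h1 (measure_singleton 0)
  rw [h2, mul_zero]

lemma gmSig_inv (z : E2) (hz : z ∈ S) : gmSig.map (act z) = gmSig := by
  have h1 : (gmMu.restrict (Metric.ball (0 : E2) 1)).map (act z)
      = gmMu.restrict (Metric.ball (0 : E2) 1) := by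
    have h2 := (gm_mp z hz).restrict_preimage
      (Metric.isOpen_ball (x := (0 : E2)) (ε := 1)).measurableSet
    rw [gm_act_preimage_ball z hz] at h2
    exact h2.map_eq
  have h3 : act z ∘ gmR = gmR ∘ act z := by
    funext w
    exact gmR_act z w hz
  rw [gmSig, Measure.map_smul, Measure.map_map (gm_measurable_act z hz) gmR_meas, h3,
    ← Measure.map_map gmR_meas (gm_measurable_act z hz), h1]

lemma gm_cont_dl (p : E2) : Continuous (fun q : E2 => dl q p) := by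
  unfold dl
  fun_prop

lemma gm_meas_dl (p : E2) (δ : ℝ) : MeasurableSet {q : E2 | dl q p ≤ δ} :=
  (isClosed_le (gm_cont_dl p) continuous_const).measurableSet

lemma gm_meas0 (δ : ℝ) : MeasurableSet {q : E2 | ‖1 - q 0‖ ≤ δ} := by
  have : Continuous (fun q : E2 => ‖1 - q 0‖) := by fun_prop
  exact (isClosed_le this continuous_const).measurableSet

lemma gmSig_dl (p : E2) (hp : p ∈ S) (δ : ℝ) :
    gmSig {q : E2 | dl q p ≤ δ} = gmSig {q : E2 | ‖1 - q 0‖ ≤ δ} := by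
  conv_lhs => rw [← gmSig_inv p hp]
  rw [Measure.map_apply (gm_measurable_act p hp) (gm_meas_dl p δ)]
  congr 1
  ext q
  simp only [Set.mem_preimage, Set.mem_ofPred_eq, gm_dl_act p q hp]

lemma gmR_zero (w : E2) : gmR w 0 = ((‖w‖⁻¹ : ℝ) : ℂ) * w 0 := by
  simp [gmR]

/-- the volume of the unit ball -/
noncomputable def gmV : ℝ := gmMu.real (Metric.ball (0 : E2) 1)

lemma gmV_pos : 0 < gmV := ENNReal.toReal_pos gm_ball_pos gm_ball_fin

lemma gmSig_real (δ : ℝ) : gmSig.real {q : E2 | ‖1 - q 0‖ ≤ δ}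
    = gmV⁻¹ * gmMu.real (gmR ⁻¹' {q : E2 | ‖1 - q 0‖ ≤ δ} ∩ Metric.ball (0 : E2) 1) := by
  rw [Measure.real, gmSig_apply _ (gm_meas0 δ), ENNReal.toReal_mul, ENNReal.toReal_inv]
  rfl

lemma gm_upper_sub (δ : ℝ) (hδ : 0 < δ) (hδ1 : δ ≤ 1) :
    gmR ⁻¹' {q : E2 | ‖1 - q 0‖ ≤ δ} ∩ Metric.ball (0 : E2) 1
      ⊆ {w : E2 | w 0 ∈ {z : ℂ | (-1 ≤ z.re ∧ z.re ≤ 1) ∧ (-δ ≤ z.im ∧ z.im ≤ δ)} ∧
          w 1 ∈ Metric.closedBall (0 : ℂ) (Real.sqrt (2 * δ))} := by
  rintro w ⟨hw1, hw2⟩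
  have hn : ‖w‖ < 1 := by simpa using hw2
  have h0 : ‖(1 : ℂ) - ((‖w‖⁻¹ : ℝ) : ℂ) * w 0‖ ≤ δ := by
    have := hw1
    simp only [Set.mem_preimage, Set.mem_ofPred_eq, gmR_zero] at this
    exact this
  have hsq := gm_norm_sq w
  have hw0n : ‖w 0‖ ≤ ‖w‖ := by
    refine (sq_le_sq₀ (norm_nonneg _) (norm_nonneg _)).mp ?_
    nlinarith [sq_nonneg ‖w 1‖]
  by_cases hz : w = 0
  · subst hz
    refine ⟨⟨⟨by simp, by simp⟩, ⟨by simp [hδ.le], by simp [hδ.le]⟩⟩, by simp⟩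
  have hpos : 0 < ‖w‖ := norm_pos_iff.mpr hz
  -- the scaled inequality
  have h1 : ‖((‖w‖ : ℝ) : ℂ) - w 0‖ ≤ δ * ‖w‖ := by
    have h2 : ((‖w‖ : ℝ) : ℂ) - w 0 = ((‖w‖ : ℝ) : ℂ) * ((1 : ℂ) - ((‖w‖⁻¹ : ℝ) : ℂ) * w 0) := by
      have : ((‖w‖ : ℝ) : ℂ) ≠ 0 := by exact_mod_cast hpos.ne'
      push_cast
      field_simp
    rw [h2, norm_mul, Complex.norm_real, norm_norm]
    nlinarith
  have hre : |‖w‖ - (w 0).re| ≤ δ * ‖w‖ := by
    have := Complex.abs_re_le_norm (((‖w‖ : ℝ) : ℂ) - w 0)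
    simp only [Complex.sub_re, Complex.ofReal_re] at this
    linarith
  have him : |(w 0).im| ≤ δ * ‖w‖ := by
    have := Complex.abs_im_le_norm (((‖w‖ : ℝ) : ℂ) - w 0)
    simp only [Complex.sub_im, Complex.ofReal_im, zero_sub, abs_neg] at this
    linarith
  have hre2 := abs_le.mp hre
  have him2 := abs_le.mp him
  have hre3 := abs_le.mp ((Complex.abs_re_le_norm (w 0)).trans (hw0n.trans hn.le))
  have hδw : δ * ‖w‖ ≤ δ := by nlinarith
  refine ⟨⟨⟨hre3.1, hre3.2⟩, ⟨by linarith, by linarith⟩⟩, ?_⟩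
  rw [mem_closedBall_zero_iff]
  apply Real.le_sqrt_of_sq_le
  have h5 : ‖w 0‖ ^ 2 = (w 0).re ^ 2 + (w 0).im ^ 2 := by
    rw [Complex.sq_norm, Complex.normSq_apply]; ring
  have h6 : (1 - δ) * ‖w‖ ≤ (w 0).re := by linarith
  have h7 : 0 ≤ (1 - δ) * ‖w‖ := mul_nonneg (by linarith) hpos.le
  have h8 : ((1 - δ) * ‖w‖) ^ 2 ≤ (w 0).re ^ 2 := pow_le_pow_left₀ h7 h6 2
  have h9 : ‖w 1‖ ^ 2 ≤ ‖w‖ ^ 2 * (1 - (1 - δ) ^ 2) := by
    nlinarith [sq_nonneg (w 0).im]
  have h10 : ‖w‖ ^ 2 ≤ 1 := by nlinarith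
  have h11 : 0 ≤ 1 - (1 - δ) ^ 2 := by nlinarith
  nlinarith [mul_le_mul_of_nonneg_right h10 h11, sq_nonneg δ]

lemma gm_lower_sub (δ : ℝ) (hδ : 0 < δ) (hδ1 : δ ≤ 1) :
    {w : E2 | w 0 ∈ {z : ℂ | (1 / 2 ≤ z.re ∧ z.re ≤ 3 / 4) ∧ (-(δ / 8) ≤ z.im ∧ z.im ≤ δ / 8)} ∧
          w 1 ∈ Metric.closedBall (0 : ℂ) (Real.sqrt δ / 8)}
      ⊆ gmR ⁻¹' {q : E2 | ‖1 - q 0‖ ≤ δ} ∩ Metric.ball (0 : E2) 1 := by
  rintro w ⟨⟨⟨ha, hb⟩, ⟨hc, hd⟩⟩, he⟩
  rw [mem_closedBall_zero_iff] at he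
  have hsq := gm_norm_sq w
  have h5 : ‖w 0‖ ^ 2 = (w 0).re ^ 2 + (w 0).im ^ 2 := by
    rw [Complex.sq_norm, Complex.normSq_apply]; ring
  have h6 : ‖w 1‖ ^ 2 ≤ δ / 64 := by
    have h7 : ‖w 1‖ ^ 2 ≤ (Real.sqrt δ / 8) ^ 2 := pow_le_pow_left₀ (norm_nonneg _) he 2
    have h8 : (Real.sqrt δ / 8) ^ 2 = δ / 64 := by
      rw [div_pow, Real.sq_sqrt hδ.le]; norm_num
    linarith
  have h7 : (w 0).im ^ 2 ≤ δ / 64 := by nlinarith
  have h8 : ‖w‖ ^ 2 < 1 := by nlinarith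
  have h9 : ‖w‖ < 1 := by nlinarith [norm_nonneg w]
  have h10 : (1 : ℝ) / 2 ≤ ‖w‖ := by nlinarith [norm_nonneg w, sq_nonneg (w 0).im, sq_nonneg ‖w 1‖]
  have hpos : 0 < ‖w‖ := by linarith
  refine ⟨?_, by simpa using h9⟩
  simp only [Set.mem_preimage, Set.mem_ofPred_eq, gmR_zero]
  have h1 : ‖((‖w‖ : ℝ) : ℂ) - w 0‖ ≤ δ * ‖w‖ := by
    have h11 : ‖((‖w‖ : ℝ) : ℂ) - w 0‖ ≤ |‖w‖ - (w 0).re| + |(w 0).im| := by
      have := Complex.norm_le_abs_re_add_abs_im (((‖w‖ : ℝ) : ℂ) - w 0)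
      simpa [Complex.sub_re, Complex.sub_im] using this
    have h12 : |(w 0).im| ≤ δ / 8 := abs_le.mpr ⟨hc, hd⟩
    have h13 : 0 ≤ ‖w‖ - (w 0).re := by
      have h14 : (w 0).re ^ 2 ≤ ‖w‖ ^ 2 := by nlinarith [sq_nonneg (w 0).im, sq_nonneg ‖w 1‖]
      have := abs_le_of_sq_le_sq' h14 hpos.le
      linarith [this.2]
    have h15 : (‖w‖ - (w 0).re) * (‖w‖ + (w 0).re) ≤ δ / 32 := by nlinarith
    have h16 : ‖w‖ - (w 0).re ≤ δ / 32 := by nlinarith
    rw [abs_of_nonneg h13] at h11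
    nlinarith
  have h2 : (1 : ℂ) - ((‖w‖⁻¹ : ℝ) : ℂ) * w 0 = ((‖w‖⁻¹ : ℝ) : ℂ) * (((‖w‖ : ℝ) : ℂ) - w 0) := by
    have : ((‖w‖ : ℝ) : ℂ) ≠ 0 := by exact_mod_cast hpos.ne'
    push_cast
    field_simp
  rw [h2, norm_mul, Complex.norm_real, norm_inv, norm_norm]
  rw [inv_mul_le_iff₀ hpos]
  linarith

theorem exists_good : ∃ (σ : Measure E2) (c C : ℝ), Good σ c C := by
  have := gmSig_prob
  have hV := gmV_pos
  refine ⟨gmSig, gmV⁻¹ * (Real.pi / 1024), max 1 (gmV⁻¹ * (8 * Real.pi)), gmSig_prob, gmSig_supp,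
    fun z hz => gmSig_inv z hz, ?_, ?_, ?_, ?_⟩
  · positivity
  · exact lt_max_of_lt_left one_pos
  · intro p hp δ hδ hδ1
    have e1 : gmSig.real {q : E2 | dl q p ≤ δ} = gmSig.real {q : E2 | ‖1 - q 0‖ ≤ δ} := by
      rw [Measure.real, Measure.real, gmSig_dl p hp]
    rw [e1, gmSig_real]
    have e2 := measureReal_mono (μ := gmMu) (gm_lower_sub δ hδ hδ1)
      (ne_top_of_le_ne_top gm_ball_fin (measure_mono Set.inter_subset_right))
    have e3 : gmMu.real {w : E2 | w 0 ∈ {z : ℂ | (1 / 2 ≤ z.re ∧ z.re ≤ 3 / 4) ∧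
        (-(δ / 8) ≤ z.im ∧ z.im ≤ δ / 8)} ∧ w 1 ∈ Metric.closedBall (0 : ℂ) (Real.sqrt δ / 8)}
        = Real.pi / 1024 * δ ^ 2 := by
      rw [Measure.real, gm_box, gm_rect, Complex.volume_closedBall, ENNReal.toReal_mul,
        ENNReal.toReal_mul, ENNReal.toReal_mul, ENNReal.toReal_pow,
        ENNReal.toReal_ofReal (by norm_num), ENNReal.toReal_ofReal (by linarith),
        ENNReal.toReal_ofReal (by positivity)]
      have : ((NNReal.pi : NNReal) : ENNReal).toReal = Real.pi := by simp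
      rw [this, div_pow, Real.sq_sqrt hδ.le]
      ring
    rw [e3] at e2
    rw [mul_assoc]
    exact mul_le_mul_of_nonneg_left e2 (inv_nonneg.mpr hV.le)
  · intro p hp δ hδ
    rcases le_or_gt δ 1 with hδ1 | hδ1
    · have e1 : gmSig.real {q : E2 | dl q p ≤ δ} = gmSig.real {q : E2 | ‖1 - q 0‖ ≤ δ} := by
        rw [Measure.real, Measure.real, gmSig_dl p hp]
      rw [e1, gmSig_real]
      have e3 : gmMu {w : E2 | w 0 ∈ {z : ℂ | (-1 ≤ z.re ∧ z.re ≤ 1) ∧
          (-δ ≤ z.im ∧ z.im ≤ δ)} ∧ w 1 ∈ Metric.closedBall (0 : ℂ) (Real.sqrt (2 * δ))}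
          = ENNReal.ofReal (8 * Real.pi * δ ^ 2) := by
        rw [gm_box, gm_rect, Complex.volume_closedBall]
        have : ((NNReal.pi : NNReal) : ENNReal) = ENNReal.ofReal Real.pi := by
          rw [ENNReal.ofReal]
          congr 1
          ext
          simp [Real.pi_pos.le]
        rw [this, ← ENNReal.ofReal_pow (Real.sqrt_nonneg _), Real.sq_sqrt (by positivity),
          ← ENNReal.ofReal_mul (by norm_num), ← ENNReal.ofReal_mul (by positivity),
          ← ENNReal.ofReal_mul (by nlinarith)]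
        congr 1
        ring
      have e2 := measureReal_mono (μ := gmMu) (gm_upper_sub δ hδ hδ1)
        (by rw [e3]; exact ENNReal.ofReal_ne_top)
      have e4 : gmMu.real {w : E2 | w 0 ∈ {z : ℂ | (-1 ≤ z.re ∧ z.re ≤ 1) ∧
          (-δ ≤ z.im ∧ z.im ≤ δ)} ∧ w 1 ∈ Metric.closedBall (0 : ℂ) (Real.sqrt (2 * δ))}
          = 8 * Real.pi * δ ^ 2 := by
        rw [Measure.real, e3, ENNReal.toReal_ofReal (by positivity)]
      rw [e4] at e2
      calc gmV⁻¹ * gmMu.real (gmR ⁻¹' {q : E2 | ‖1 - q 0‖ ≤ δ} ∩ Metric.ball (0 : E2) 1)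
          ≤ gmV⁻¹ * (8 * Real.pi * δ ^ 2) :=
            mul_le_mul_of_nonneg_left e2 (inv_nonneg.mpr hV.le)
        _ = gmV⁻¹ * (8 * Real.pi) * δ ^ 2 := by ring
        _ ≤ max 1 (gmV⁻¹ * (8 * Real.pi)) * δ ^ 2 :=
            mul_le_mul_of_nonneg_right (le_max_right _ _) (by positivity)
    · have e1 : gmSig.real {q : E2 | dl q p ≤ δ} ≤ 1 := measureReal_le_one
      have e2 : (1 : ℝ) ≤ δ ^ 2 := by nlinarith
      calc gmSig.real {q : E2 | dl q p ≤ δ} ≤ 1 * δ ^ 2 := by linarith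
        _ ≤ max 1 (gmV⁻¹ * (8 * Real.pi)) * δ ^ 2 :=
            mul_le_mul_of_nonneg_right (le_max_left _ _) (by positivity)

end Pool.Agent.BM

end

section

/-! Greedy choice of unit vectors. -/

set_option autoImplicit false

open MeasureTheory Complex

namespace Pool.Agent.BM

theorem greedy (N n d k : ℕ) (h : d + k < N) (W : Fin n → Submodule ℂ (VN N))
    (hW : ∀ α, Module.finrank ℂ (W α) ≤ d) (near : Fin n → Fin n → Prop)
    (hn : ∀ α, Set.ncard {β : Fin n | β < α ∧ near β α} ≤ k) :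
    ∃ v : Fin n → VN N, (∀ α, ‖v α‖ = 1) ∧ (∀ α, v α ∈ (W α)ᗮ) ∧
      ∀ α β, β < α → near β α → (inner ℂ (v β) (v α) : ℂ) = 0 := by
  have key : ∀ m : ℕ, m ≤ n → ∃ v : Fin n → VN N, ∀ α : Fin n, α.val < m →
      ‖v α‖ = 1 ∧ v α ∈ (W α)ᗮ ∧
        ∀ β, β < α → near β α → (inner ℂ (v β) (v α) : ℂ) = 0 := by
    intro m
    induction m with
    | zero => intro _; exact ⟨fun _ => 0, fun α hα => absurd hα (Nat.not_lt_zero _)⟩
    | succ m ih =>
      intro hm
      obtain ⟨v, hv⟩ := ih (by omega)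
      have hmn : m < n := by omega
      let α0 : Fin n := ⟨m, hmn⟩
      let F : Set (Fin n) := {β : Fin n | β < α0 ∧ near β α0}
      let T : Submodule ℂ (VN N) := W α0 ⊔ Submodule.span ℂ (v '' F)
      have hFfin : (v '' F).Finite := Set.toFinite _
      have h1 : Module.finrank ℂ (Submodule.span ℂ (v '' F)) ≤ k := by
        have h2 : Module.finrank ℂ (Submodule.span ℂ (v '' F)) ≤ (v '' F).ncard := by
          have : Fintype (v '' F) := hFfin.fintype
          have := finrank_span_le_card (R := ℂ) (v '' F)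
          rw [Set.ncard_eq_toFinset_card' (v '' F)]
          exact this
        have h3 : (v '' F).ncard ≤ F.ncard := Set.ncard_image_le (Set.toFinite _)
        exact h2.trans (h3.trans (hn α0))
      have h4 : Module.finrank ℂ T < N := by
        have := Submodule.finrank_add_le_finrank_add_finrank (W α0)
          (Submodule.span ℂ (v '' F))
        have h5 := hW α0
        have : Module.finrank ℂ T ≤ Module.finrank ℂ (W α0)
          + Module.finrank ℂ (Submodule.span ℂ (v '' F)) := this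
        omega
      have h6 : T ≠ ⊤ := by
        intro hT
        rw [hT] at h4
        simp at h4
      have h7 : Tᗮ ≠ ⊥ := by
        intro hb
        exact h6 (Submodule.orthogonal_eq_bot_iff.mp hb)
      obtain ⟨u, huT, hu0⟩ := Submodule.exists_mem_ne_zero_of_ne_bot h7
      let u' : VN N := ((‖u‖ : ℂ)⁻¹) • u
      have hu'T : u' ∈ Tᗮ := Submodule.smul_mem _ _ huT
      have hun : ‖u'‖ = 1 := by
        have : ‖u‖ ≠ 0 := norm_ne_zero_iff.mpr hu0
        simp only [u', norm_smul, norm_inv, Complex.norm_real, norm_norm]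
        field_simp
      refine ⟨Function.update v α0 u', fun α hα => ?_⟩
      rcases Nat.lt_succ_iff_lt_or_eq.mp hα with hlt | heq
      · have hne : α ≠ α0 := fun e => by
          have : α.val = m := congrArg Fin.val e
          omega
        rw [Function.update_of_ne hne]
        obtain ⟨ha, hb, hc⟩ := hv α hlt
        refine ⟨ha, hb, fun β hβ hnear => ?_⟩
        have hne' : β ≠ α0 := fun e => by
          have h8 : β.val = m := congrArg Fin.val e
          have h9 : β.val < α.val := hβ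
          omega
        rw [Function.update_of_ne hne']
        exact hc β hβ hnear
      · have heq' : α = α0 := Fin.ext heq
        subst heq'
        rw [Function.update_self]
        refine ⟨hun, ?_, fun β hβ hnear => ?_⟩
        · exact Submodule.orthogonal_le le_sup_left hu'T
        · have hne' : β ≠ α0 := ne_of_lt hβ
          rw [Function.update_of_ne hne']
          have hmem : v β ∈ T :=
            Submodule.mem_sup_right (Submodule.subset_span ⟨β, ⟨hβ, hnear⟩, rfl⟩)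
          exact Submodule.inner_right_of_mem_orthogonal hmem hu'T
  obtain ⟨v, hv⟩ := key n le_rfl
  exact ⟨v, fun α => (hv α α.isLt).1, fun α => (hv α α.isLt).2.1,
    fun α β hβ hnear => (hv α α.isLt).2.2 β hβ hnear⟩

end Pool.Agent.BM

end

section

/-! Holomorphic maps of several variables: the derivative is holomorphic. -/

set_option autoImplicit false

open Metric Set Filter Topology

namespace Pool.Agent.BM

section gen

variable {E F : Type} [NormedAddCommGroup E] [NormedSpace ℂ E]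
  [NormedAddCommGroup F] [NormedSpace ℂ F]

/-- Cauchy estimate -/
theorem holo_norm_fderiv_le (g : E → F) (z : E) (r B : ℝ) (hr : 0 < r)
    (hg : DifferentiableOn ℂ g (ball z r)) (hB : ∀ y ∈ ball z r, ‖g y‖ ≤ B) :
    ‖fderiv ℂ g z‖ ≤ 2 * B / r := by
  refine Complex.norm_fderiv_le_div_of_mapsTo_ball hg ?_ hr
  intro y hy
  rw [mem_closedBall, dist_eq_norm]
  calc ‖g y - g z‖ ≤ ‖g y‖ + ‖g z‖ := norm_sub_le _ _
    _ ≤ B + B := add_le_add (hB y hy) (hB z (mem_ball_self hr))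
    _ = 2 * B := by ring

/-- one-variable second order estimate -/
private theorem holo_slope [CompleteSpace F] (φ : ℂ → F) (B : ℝ)
    (hφ : DifferentiableOn ℂ φ (ball 0 2)) (hB : ∀ y ∈ ball (0 : ℂ) 2, ‖φ y‖ ≤ B)
    (t : ℂ) (ht : ‖t‖ ≤ 1) (ht0 : t ≠ 0) :
    ‖t⁻¹ • (φ t - φ 0) - deriv φ 0‖ ≤ B * ‖t‖ := by
  have h2 : (0 : ℝ) < 2 := by norm_num
  have hm : MapsTo φ (ball 0 2) (closedBall (φ 0) (2 * B)) := by
    intro y hy
    rw [mem_closedBall, dist_eq_norm]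
    calc ‖φ y - φ 0‖ ≤ ‖φ y‖ + ‖φ 0‖ := norm_sub_le _ _
      _ ≤ B + B := add_le_add (hB y hy) (hB 0 (mem_ball_self h2))
      _ = 2 * B := by ring
  have hd : DifferentiableOn ℂ (dslope φ 0) (ball 0 2) :=
    (Complex.differentiableOn_dslope (ball_mem_nhds _ h2)).2 hφ
  have hdB : ∀ y ∈ ball (0 : ℂ) 2, ‖dslope φ 0 y‖ ≤ B := by
    intro y hy
    have := Complex.norm_dslope_le_div_of_mapsTo_ball hφ hm hy
    simpa using this
  have hm2 : MapsTo (dslope φ 0) (ball 0 2) (closedBall (dslope φ 0 0) (2 * B)) := by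
    intro y hy
    rw [mem_closedBall, dist_eq_norm]
    calc ‖dslope φ 0 y - dslope φ 0 0‖ ≤ ‖dslope φ 0 y‖ + ‖dslope φ 0 0‖ := norm_sub_le _ _
      _ ≤ B + B := add_le_add (hdB y hy) (hdB 0 (mem_ball_self h2))
      _ = 2 * B := by ring
  have ht2 : t ∈ ball (0 : ℂ) 2 := by
    rw [mem_ball_zero_iff]; linarith
  have h3 := Complex.dist_le_div_mul_dist_of_mapsTo_ball hd hm2 ht2
  rw [dslope_same, dslope_of_ne _ ht0, slope_def_module, dist_eq_norm, dist_zero_right] at h3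
  simpa using h3

/-- uniform limits of holomorphic maps are holomorphic -/
private theorem holo_limit [CompleteSpace F] (f : ℕ → E → F) (g : E → F) (z0 : E) (R : ℝ)
    (hR : 0 < R) (hf : ∀ n, DifferentiableOn ℂ (f n) (ball z0 (2 * R)))
    (hu : TendstoUniformlyOn f g atTop (ball z0 (2 * R))) : DifferentiableAt ℂ g z0 := by
  have hsub : ∀ x ∈ ball z0 R, ball x R ⊆ ball z0 (2 * R) := by
    intro x hx y hy
    rw [mem_ball] at hx hy ⊢
    calc dist y z0 ≤ dist y x + dist x z0 := dist_triangle _ _ _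
      _ < 2 * R := by linarith
  have hC : UniformCauchySeqOn (fun n => fderiv ℂ (f n)) atTop (ball z0 R) := by
    rw [Metric.uniformCauchySeqOn_iff]
    intro ε hε
    have h1 := (Metric.uniformCauchySeqOn_iff.1 hu.uniformCauchySeqOn) (ε * R / 4) (by positivity)
    obtain ⟨N, hN⟩ := h1
    refine ⟨N, fun m hm n hn x hx => ?_⟩
    have hx2 : x ∈ ball z0 (2 * R) := hsub x hx (mem_ball_self hR)
    have e1 : fderiv ℂ (f m) x - fderiv ℂ (f n) x = fderiv ℂ (fun y => f m y - f n y) x := by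
      rw [fderiv_fun_sub]
      · exact (hf m).differentiableAt (isOpen_ball.mem_nhds hx2)
      · exact (hf n).differentiableAt (isOpen_ball.mem_nhds hx2)
    rw [dist_eq_norm, e1]
    have h2 := holo_norm_fderiv_le (fun y => f m y - f n y) x R (ε * R / 4) hR
      (((hf m).sub (hf n)).mono (hsub x hx)) (by
        intro y hy
        have := hN m hm n hn y (hsub x hx hy)
        rw [dist_eq_norm] at this
        exact this.le)
    have h3 : 2 * (ε * R / 4) / R = ε / 2 := by field_simp; ring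
    rw [h3] at h2
    linarith
  have hlim : ∀ x ∈ ball z0 R, ∃ L, Tendsto (fun n => fderiv ℂ (f n) x) atTop (𝓝 L) := by
    intro x hx
    exact cauchySeq_tendsto_of_complete (hC.cauchySeq hx)
  classical
  let g' : E → (E →L[ℂ] F) := fun x => if h : x ∈ ball z0 R then (hlim x h).choose else 0
  have hg' : ∀ x ∈ ball z0 R, Tendsto (fun n => fderiv ℂ (f n) x) atTop (𝓝 (g' x)) := by
    intro x hx
    have : g' x = (hlim x hx).choose := dif_pos hx
    rw [this]
    exact (hlim x hx).choose_spec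
  have hT : TendstoUniformlyOn (fun n => fderiv ℂ (f n)) g' atTop (ball z0 R) :=
    hC.tendstoUniformlyOn_of_tendsto hg'
  have := hasFDerivAt_of_tendstoUniformlyOn isOpen_ball hT
    (fun n x hx => ((hf n).differentiableAt
      (isOpen_ball.mem_nhds (hsub x hx (mem_ball_self hR)))).hasFDerivAt)
    (fun x hx => hu.tendsto_at (hsub x hx (mem_ball_self hR))) (mem_ball_self hR)
  exact this.differentiableAt

/-- directional derivatives are holomorphic -/
private theorem holo_dir [CompleteSpace F] (g : E → F) (U : Set E) (hU : IsOpen U)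
    (hg : DifferentiableOn ℂ g U) (z0 : E) (hz0 : z0 ∈ U) (w : E) :
    DifferentiableAt ℂ (fun z => fderiv ℂ g z w) z0 := by
  -- a ball on which g is bounded
  have hcont : ContinuousAt g z0 := (hg.differentiableAt (hU.mem_nhds hz0)).continuousAt
  have h1 : ∀ᶠ z in 𝓝 z0, z ∈ U ∧ ‖g z‖ < ‖g z0‖ + 1 := by
    have ha : ∀ᶠ z in 𝓝 z0, z ∈ U := hU.mem_nhds hz0
    exact ha.and (hcont.norm.eventually_lt_const (by linarith))
  obtain ⟨ε, hε, hball⟩ := Metric.eventually_nhds_iff_ball.1 h1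
  set R : ℝ := ε / 4 with hRdef
  have hR : 0 < R := by positivity
  set B : ℝ := ‖g z0‖ + 1 with hBdef
  have hB0 : 0 < B := by positivity
  have hin : ∀ z ∈ ball z0 (4 * R), z ∈ U ∧ ‖g z‖ ≤ B := by
    intro z hz
    have : z ∈ ball z0 ε := by
      have e : 4 * R = ε := by rw [hRdef]; ring
      rwa [e] at hz
    exact ⟨(hball z this).1, (hball z this).2.le⟩
  -- scaling
  obtain ⟨c, hc0, hcw⟩ : ∃ c : ℂ, c ≠ 0 ∧ ‖c • w‖ ≤ R := by
    refine ⟨((R / (‖w‖ + 1) : ℝ) : ℂ), ?_, ?_⟩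
    · have : R / (‖w‖ + 1) ≠ 0 := by positivity
      exact_mod_cast this
    · rw [norm_smul, Complex.norm_real, Real.norm_of_nonneg (by positivity)]
      rw [div_mul_eq_mul_div, div_le_iff₀ (by positivity)]
      nlinarith [norm_nonneg w]
  suffices hs : DifferentiableAt ℂ (fun z => fderiv ℂ g z (c • w)) z0 by
    have e : (fun z => fderiv ℂ g z w) = fun z => c⁻¹ • fderiv ℂ g z (c • w) := by
      funext z
      rw [map_smul, smul_smul, inv_mul_cancel₀ hc0, one_smul]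
    rw [e]
    exact hs.const_smul c⁻¹
  set v : E := c • w with hv
  let t : ℕ → ℂ := fun n => ((1 / ((n : ℝ) + 1) : ℝ) : ℂ)
  have ht0 : ∀ n, t n ≠ 0 := by
    intro n
    have : (1 / ((n : ℝ) + 1)) ≠ 0 := by positivity
    exact Complex.ofReal_ne_zero.2 this
  have htn : ∀ n, ‖t n‖ = 1 / ((n : ℝ) + 1) := by
    intro n
    simp only [t]
    rw [Complex.norm_real, Real.norm_of_nonneg (by positivity)]
  have ht1 : ∀ n, ‖t n‖ ≤ 1 := by
    intro n
    rw [htn, div_le_one (by positivity)]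
    have : (0 : ℝ) ≤ n := Nat.cast_nonneg n
    linarith
  have hmem : ∀ z ∈ ball z0 (2 * R), ∀ ζ : ℂ, ζ ∈ ball (0 : ℂ) 2 → z + ζ • v ∈ ball z0 (4 * R) := by
    intro z hz ζ hζ
    rw [mem_ball_zero_iff] at hζ
    rw [mem_ball, dist_eq_norm] at hz ⊢
    have : z + ζ • v - z0 = (z - z0) + ζ • v := by abel
    rw [this]
    calc ‖(z - z0) + ζ • v‖ ≤ ‖z - z0‖ + ‖ζ • v‖ := norm_add_le _ _
      _ = ‖z - z0‖ + ‖ζ‖ * ‖v‖ := by rw [norm_smul]
      _ < 2 * R + 2 * R := by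
        have : ‖ζ‖ * ‖v‖ ≤ 2 * R := by
          apply mul_le_mul hζ.le hcw (norm_nonneg _) (by norm_num)
        linarith
      _ = 4 * R := by ring
  refine holo_limit (fun n z => (t n)⁻¹ • (g (z + t n • v) - g z)) _ z0 R hR ?_ ?_
  · intro n z hz
    have hz1 : z ∈ U := by
      have := hmem z hz 0 (mem_ball_self (by norm_num))
      rw [zero_smul, add_zero] at this
      exact (hin z this).1
    have hz2 : z + t n • v ∈ U := by
      refine (hin _ (hmem z hz (t n) ?_)).1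
      rw [mem_ball_zero_iff]
      linarith [ht1 n]
    have d1 : DifferentiableAt ℂ g z := hg.differentiableAt (hU.mem_nhds hz1)
    have d2 : DifferentiableAt ℂ (fun z => g (z + t n • v)) z := by
      have d3 : DifferentiableAt ℂ g (z + t n • v) := hg.differentiableAt (hU.mem_nhds hz2)
      exact d3.comp z (differentiableAt_id.add_const _)
    exact ((d2.sub d1).const_smul _).differentiableWithinAt
  · rw [Metric.tendstoUniformlyOn_iff]
    intro δ hδ
    have hlim : Tendsto (fun n : ℕ => B * ‖t n‖) atTop (𝓝 0) := by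
      have h : Tendsto (fun n : ℕ => B * (1 / ((n : ℝ) + 1))) atTop (𝓝 (B * 0)) :=
        tendsto_one_div_add_atTop_nhds_zero_nat.const_mul B
      rw [mul_zero] at h
      refine h.congr fun n => ?_
      rw [htn]
    filter_upwards [hlim.eventually_lt_const hδ] with n hn z hz
    have hφd : ∀ ζ ∈ ball (0 : ℂ) 2, HasDerivAt (fun ζ : ℂ => g (z + ζ • v))
        (fderiv ℂ g (z + ζ • v) v) ζ := by
      intro ζ hζ
      have hU' : z + ζ • v ∈ U := (hin _ (hmem z hz ζ hζ)).1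
      have d : HasFDerivAt g (fderiv ℂ g (z + ζ • v)) (z + ζ • v) :=
        (hg.differentiableAt (hU.mem_nhds hU')).hasFDerivAt
      have e : HasDerivAt (fun ζ : ℂ => z + ζ • v) v ζ := by
        have := ((hasDerivAt_id ζ).smul_const v).const_add z
        simpa using this
      exact d.comp_hasDerivAt ζ e
    have key := holo_slope (fun ζ : ℂ => g (z + ζ • v)) B
      (fun ζ hζ => (hφd ζ hζ).differentiableAt.differentiableWithinAt)
      (fun ζ hζ => (hin _ (hmem z hz ζ hζ)).2) (t n) (ht1 n) (ht0 n)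
    have hd0 := (hφd 0 (mem_ball_self (by norm_num))).deriv
    rw [hd0] at key
    simp only [zero_smul, add_zero] at key
    rw [dist_comm, dist_eq_norm]
    exact lt_of_le_of_lt key hn

private theorem diff_clm_apply [FiniteDimensional ℂ E] (f : E → E →L[ℂ] F) (z : E)
    (h : ∀ w, DifferentiableAt ℂ (fun x => f x w) z) : DifferentiableAt ℂ f z := by
  let d := Module.finrank ℂ E
  have hd : d = Module.finrank ℂ (Fin d → ℂ) := (Module.finrank_fin_fun ℂ).symm
  let e₁ := ContinuousLinearEquiv.ofFinrankEq hd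
  let e₂ := (e₁.arrowCongr (1 : F ≃L[ℂ] F)).trans (ContinuousLinearEquiv.piRing (Fin d))
  rw [← Function.id_comp f, ← e₂.symm_comp_self]
  exact e₂.symm.differentiableAt.comp z (differentiableAt_pi.mpr fun i => h _)

/-- The derivative of a holomorphic map is holomorphic (finite dimensional source). -/
theorem holo_fderiv [CompleteSpace F] [FiniteDimensional ℂ E] (g : E → F) (U : Set E)
    (hU : IsOpen U) (hg : DifferentiableOn ℂ g U) : DifferentiableOn ℂ (fderiv ℂ g) U := by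
  intro z hz
  refine DifferentiableAt.differentiableWithinAt ?_
  exact diff_clm_apply _ _ fun w => holo_dir g U hU hg z hz w

/-- Holomorphic maps are smooth. -/
theorem holo_contDiffOn [CompleteSpace F] [FiniteDimensional ℂ E] (g : E → F) (U : Set E)
    (hU : IsOpen U) (hg : DifferentiableOn ℂ g U) (n : ℕ) : ContDiffOn ℂ n g U := by
  induction n generalizing F with
  | zero =>
    have := hg.continuousOn
    exact contDiffOn_zero.2 this
  | succ n ih =>
    have h := ih (fderiv ℂ g) (holo_fderiv g U hU hg)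
    push_cast
    rw [contDiffOn_succ_iff_fderiv_of_isOpen hU]
    refine ⟨hg, ?_, h⟩
    intro h'
    exact absurd h' (by simp)

end gen

end Pool.Agent.BM

end

section

/-! One variable Taylor remainder along slices. -/

set_option autoImplicit false

open MeasureTheory Complex

namespace Pool.Agent.BM

theorem tc_isOpen (τ : ℝ) : IsOpen (Bt τ) := by
  have h : Bt τ = (fun z : E2 => ‖z‖ ^ 2) ⁻¹' Set.Iio (1 + τ) := rfl
  rw [h]
  exact isOpen_Iio.preimage (by fun_prop)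

theorem tc_norm_le (p ζ : E2) (τ : ℝ) (hτ0 : 0 ≤ τ) (hp : p ∈ S) (hζ : ζ ∈ Bt τ) (t : ℂ) :
    ‖p + t • (ζ - p)‖ ^ 2 ≤ 1 + 2 * (‖t‖ + ‖t‖ ^ 2) * (dl ζ p + τ) := by
  have hp1 : ‖p‖ = 1 := hp
  have hζ1 : ‖ζ‖ ^ 2 < 1 + τ := hζ
  have hd0 : 0 ≤ dl ζ p := norm_nonneg _
  have hin : (inner ℂ p (ζ - p) : ℂ) = inner ℂ p ζ - 1 := by
    rw [inner_sub_right, inner_self_eq_norm_sq_to_K, hp1]
    simp
  have hnin : ‖(inner ℂ p (ζ - p) : ℂ)‖ = dl ζ p := by
    rw [hin, dl, norm_sub_rev]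
  have he : ‖ζ - p‖ ^ 2 ≤ τ + 2 * dl ζ p := by
    have h1 : ‖ζ - p‖ ^ 2 = ‖ζ‖ ^ 2 - 2 * RCLike.re (inner ℂ ζ p : ℂ) + ‖p‖ ^ 2 :=
      @norm_sub_sq ℂ E2 _ _ _ ζ p
    have h2 : RCLike.re (inner ℂ ζ p : ℂ) = RCLike.re (inner ℂ p ζ : ℂ) := inner_re_symm ..
    have h3 : RCLike.re ((1 : ℂ) - inner ℂ p ζ) ≤ dl ζ p := by
      rw [dl]
      exact RCLike.re_le_norm _
    rw [map_sub] at h3
    simp only [RCLike.one_re] at h3
    rw [h1, h2, hp1]
    linarith
  have h1 : ‖p + t • (ζ - p)‖ ^ 2 =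
      ‖p‖ ^ 2 + 2 * RCLike.re (inner ℂ p (t • (ζ - p)) : ℂ) + ‖t • (ζ - p)‖ ^ 2 :=
    @norm_add_sq ℂ E2 _ _ _ p (t • (ζ - p))
  have h2 : RCLike.re (inner ℂ p (t • (ζ - p)) : ℂ) ≤ ‖t‖ * dl ζ p := by
    refine (RCLike.re_le_norm _).trans ?_
    rw [inner_smul_right, norm_mul, hnin]
  have h3 : ‖t • (ζ - p)‖ ^ 2 ≤ ‖t‖ ^ 2 * (τ + 2 * dl ζ p) := by
    rw [norm_smul, mul_pow]
    exact mul_le_mul_of_nonneg_left he (by positivity)
  rw [h1, hp1]
  nlinarith [norm_nonneg t, sq_nonneg ‖t‖, mul_nonneg (norm_nonneg t) hτ0,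
    mul_nonneg (sq_nonneg ‖t‖) hτ0]

/-- Cauchy estimates and Taylor remainder at `1` for a function on a disc -/
theorem tc_cauchy (γ : ℂ → ℂ) (ρ A : ℝ) (hρ : 0 < ρ)
    (hd : ∀ t : ℂ, ‖t‖ ≤ ρ → DifferentiableAt ℂ γ t) (hA : ∀ t : ℂ, ‖t‖ ≤ ρ → ‖γ t‖ ≤ A)
    (k : ℕ) : ‖iteratedDeriv k γ 0 / (k.factorial : ℂ)‖ ≤ A / ρ ^ k := by
  have hdc : DiffContOnCl ℂ γ (Metric.ball 0 ρ) := by
    apply DifferentiableOn.diffContOnCl
    rw [closure_ball _ hρ.ne']
    intro t ht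
    rw [mem_closedBall_zero_iff] at ht
    exact (hd t ht).differentiableWithinAt
  have h1 : ‖iteratedDeriv k γ 0‖ ≤ k.factorial * A / ρ ^ k :=
    norm_iteratedDeriv_le_of_forall_mem_sphere_norm_le k hρ hdc (by
      intro z hz
      rw [mem_sphere_zero_iff_norm] at hz
      exact hA z hz.le)
  rw [norm_div, Complex.norm_natCast, div_le_iff₀ (by positivity)]
  calc _ ≤ k.factorial * A / ρ ^ k := h1
    _ = A / ρ ^ k * k.factorial := by ring

theorem tc_taylor (γ : ℂ → ℂ) (ρ A : ℝ) (hρ : 2 ≤ ρ)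
    (hd : ∀ t : ℂ, ‖t‖ ≤ ρ → DifferentiableAt ℂ γ t) (hA : ∀ t : ℂ, ‖t‖ ≤ ρ → ‖γ t‖ ≤ A)
    (n : ℕ) : ‖γ 1 - ∑ k ∈ Finset.range n, iteratedDeriv k γ 0 / (k.factorial : ℂ)‖ ≤
      2 * A / ρ ^ n := by
  have hρ0 : 0 < ρ := by linarith
  have hA0 : 0 ≤ A := (norm_nonneg _).trans (hA 0 (by simpa using hρ0.le))
  have hs : HasSum (fun k : ℕ => iteratedDeriv k γ 0 / (k.factorial : ℂ)) (γ 1) := by
    have h1 : DifferentiableOn ℂ γ (Metric.ball 0 ρ) := by
      intro t ht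
      rw [mem_ball_zero_iff] at ht
      exact (hd t ht.le).differentiableWithinAt
    have h2 : (1 : ℂ) ∈ Metric.ball (0 : ℂ) ρ := by
      rw [mem_ball_zero_iff, norm_one]
      linarith
    have h3 := hasSum_taylorSeries_on_ball h1 h2
    refine h3.congr_fun ?_
    intro k
    simp [div_eq_inv_mul]
  have hs2 : HasSum (fun k : ℕ => iteratedDeriv (k + n) γ 0 / ((k + n).factorial : ℂ))
      (γ 1 - ∑ k ∈ Finset.range n, iteratedDeriv k γ 0 / (k.factorial : ℂ)) :=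
    (hasSum_nat_add_iff' n).mpr hs
  have hr : ρ⁻¹ ≤ 1 / 2 := by
    rw [inv_le_comm₀ hρ0 (by norm_num)]
    linarith
  have hg : HasSum (fun k : ℕ => A / ρ ^ n * (1 / 2 : ℝ) ^ k) (A / ρ ^ n * 2) := by
    have := (hasSum_geometric_two).mul_left (A / ρ ^ n)
    simpa using this
  have := hs2.norm_le_of_bounded hg (by
    intro k
    refine (tc_cauchy γ ρ A hρ0 hd hA (k + n)).trans ?_
    rw [pow_add, div_eq_mul_inv, mul_inv, ← inv_pow ρ k]
    have h4 : ρ⁻¹ ^ k ≤ (1 / 2 : ℝ) ^ k := pow_le_pow_left₀ (by positivity) hr k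
    calc A * (ρ⁻¹ ^ k * (ρ ^ n)⁻¹) = A / ρ ^ n * ρ⁻¹ ^ k := by
          rw [div_eq_mul_inv]
          ring
      _ ≤ _ := mul_le_mul_of_nonneg_left h4 (by positivity))
  calc _ ≤ A / ρ ^ n * 2 := this
    _ = _ := by ring

theorem taylor_cross (N l : ℕ) (hl : 1 ≤ l) (h : E2 → VN N) (M1 M' A : ℝ) (hM1 : 1 ≤ M1)
    (hM : M1 ≤ M') (hd : DifferentiableOn ℂ h (Bt (1 / M1)))
    (hA : ∀ z ∈ Bt (1 / M1), ‖h z‖ ≤ A) (p ζ : E2) (hp : p ∈ S) (hζ : ζ ∈ Bt (1 / M'))
    (v : VN N) (hv : ‖v‖ ≤ 1) :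
    ‖(inner ℂ v (h ζ) : ℂ) - ∑ k ∈ Finset.range (2 * l),
        iteratedDeriv k (fun t : ℂ => (inner ℂ v (h (p + t • (ζ - p))) : ℂ)) 0 /
          (k.factorial : ℂ)‖ ≤
      A * (2 * l + 1) * 32 ^ (2 * l) * (M1 / M') ^ l * (1 + M' * dl ζ p) ^ (2 * l) := by
  have hM1p : 0 < M1 := by linarith
  have hMp : 0 < M' := by linarith
  have hd0 : 0 ≤ dl ζ p := norm_nonneg _
  set δ := dl ζ p with hδ
  set γ : ℂ → ℂ := fun t : ℂ => (inner ℂ v (h (p + t • (ζ - p))) : ℂ) with hγ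
  have hγ1 : γ 1 = inner ℂ v (h ζ) := by
    simp [hγ]
  -- slices
  have hslice : ∀ (ρ : ℝ) (t : ℂ), ‖t‖ ≤ ρ → 2 * (ρ + ρ ^ 2) * (δ + 1 / M') < 1 / M1 →
      p + t • (ζ - p) ∈ Bt (1 / M1) := by
    intro ρ t ht hlt
    have h1 := tc_norm_le p ζ (1 / M') (by positivity) hp hζ t
    have h2 : ‖t‖ + ‖t‖ ^ 2 ≤ ρ + ρ ^ 2 :=
      add_le_add ht (pow_le_pow_left₀ (norm_nonneg t) ht 2)
    have h3 : 2 * (‖t‖ + ‖t‖ ^ 2) * (δ + 1 / M') ≤ 2 * (ρ + ρ ^ 2) * (δ + 1 / M') :=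
      mul_le_mul_of_nonneg_right (by linarith) (by positivity)
    have h4 : ‖p + t • (ζ - p)‖ ^ 2 < 1 + 1 / M1 := by linarith
    exact h4
  have hγd : ∀ t : ℂ, p + t • (ζ - p) ∈ Bt (1 / M1) → DifferentiableAt ℂ γ t := by
    intro t ht
    have h1 : DifferentiableAt ℂ h (p + t • (ζ - p)) :=
      (hd _ ht).differentiableAt ((tc_isOpen _).mem_nhds ht)
    have h2 : DifferentiableAt ℂ (fun t : ℂ => p + t • (ζ - p)) t := by fun_prop
    have h3 : DifferentiableAt ℂ (fun t : ℂ => h (p + t • (ζ - p))) t :=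
      DifferentiableAt.comp t h1 h2
    exact (innerSL ℂ v).differentiableAt.comp t h3
  have hγA : ∀ t : ℂ, p + t • (ζ - p) ∈ Bt (1 / M1) → ‖γ t‖ ≤ A := by
    intro t ht
    calc ‖γ t‖ ≤ ‖v‖ * ‖h (p + t • (ζ - p))‖ := norm_inner_le_norm _ _
      _ ≤ 1 * A := mul_le_mul hv (hA _ ht) (norm_nonneg _) zero_le_one
      _ = A := one_mul A
  have hζ1 : ζ ∈ Bt (1 / M1) := by
    have h1 : ‖ζ‖ ^ 2 < 1 + 1 / M' := hζ
    have h2 : 1 / M' ≤ 1 / M1 := one_div_le_one_div_of_le hM1p hM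
    exact lt_of_lt_of_le h1 (by linarith)
  have hA0 : 0 ≤ A := (norm_nonneg _).trans (hA ζ hζ1)
  have hg1 : ‖γ 1‖ ≤ A := by
    apply hγA
    simpa using hζ1
  rw [← hγ1]
  set y : ℝ := M1 * (δ + 1 / M') with hy
  have hy0 : 0 < y := by positivity
  have hyeq : y = (M1 / M') * (1 + M' * δ) := by
    rw [hy]
    field_simp
    ring
  have hB : 1 ≤ 1 + M' * δ := by
    have := mul_nonneg hMp.le hd0
    linarith
  have hr1 : M1 / M' ≤ 1 := (div_le_one hMp).mpr hM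
  have hr0 : 0 < M1 / M' := by positivity
  have hl1 : (1 : ℝ) ≤ l := by exact_mod_cast hl
  rcases le_or_gt (32 * y) 1 with hcase | hcase
  · -- case A
    set ρ : ℝ := Real.sqrt (1 / (8 * y)) with hρ
    have hρsq : ρ ^ 2 = 1 / (8 * y) := Real.sq_sqrt (by positivity)
    have hρ4 : 4 ≤ ρ ^ 2 := by
      rw [hρsq, le_div_iff₀ (by positivity)]
      linarith
    have hρ0 : 0 ≤ ρ := Real.sqrt_nonneg _
    have hρ2 : 2 ≤ ρ := by nlinarith
    have hlt : 2 * (ρ + ρ ^ 2) * (δ + 1 / M') < 1 / M1 := by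
      have h1 : ρ ≤ ρ ^ 2 / 2 := by nlinarith
      have h2 : 2 * (ρ + ρ ^ 2) ≤ 3 * ρ ^ 2 := by linarith
      have h3 : 2 * (ρ + ρ ^ 2) * (δ + 1 / M') ≤ 3 * ρ ^ 2 * (δ + 1 / M') :=
        mul_le_mul_of_nonneg_right h2 (by positivity)
      refine h3.trans_lt ?_
      rw [hρsq, hy]
      have h4 : 0 < δ + 1 / M' := by positivity
      have h5 : 3 * (1 / (8 * (M1 * (δ + 1 / M')))) * (δ + 1 / M') = 3 / 8 * (1 / M1) := by
        field_simp
      rw [h5]
      have h6 : 0 < 1 / M1 := by positivity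
      linarith
    have hT := tc_taylor γ ρ A hρ2 (fun t ht => hγd t (hslice ρ t ht hlt))
      (fun t ht => hγA t (hslice ρ t ht hlt)) (2 * l)
    refine hT.trans ?_
    have h1 : 2 * A / ρ ^ (2 * l) = 2 * A * (8 * y) ^ l := by
      rw [pow_mul, hρsq]
      rw [div_pow, one_pow, div_div_eq_mul_div, div_one]
    rw [h1, hyeq]
    have h2 : (8 * (M1 / M' * (1 + M' * δ))) ^ l = 8 ^ l * (M1 / M') ^ l * (1 + M' * δ) ^ l := by
      rw [mul_pow, mul_pow]
      ring
    rw [h2]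
    have h3 : (1 + M' * δ) ^ l ≤ (1 + M' * δ) ^ (2 * l) := pow_le_pow_right₀ hB (by omega)
    have h4 : (8 : ℝ) ^ l ≤ 32 ^ (2 * l) :=
      (pow_le_pow_left₀ (by norm_num) (by norm_num) l).trans
        (pow_le_pow_right₀ (by norm_num : (1 : ℝ) ≤ 32) (by omega))
    calc 2 * A * (8 ^ l * (M1 / M') ^ l * (1 + M' * δ) ^ l)
        = A * 2 * 8 ^ l * (M1 / M') ^ l * (1 + M' * δ) ^ l := by ring
      _ ≤ A * (2 * l + 1) * 32 ^ (2 * l) * (M1 / M') ^ l * (1 + M' * δ) ^ (2 * l) := by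
          gcongr
          linarith
  · -- case B
    set ρ : ℝ := min 1 (1 / (8 * y)) with hρ
    have hρ0 : 0 < ρ := lt_min one_pos (by positivity)
    have hρ1 : ρ ≤ 1 := min_le_left _ _
    have hρ8 : ρ ≤ 1 / (8 * y) := min_le_right _ _
    have hlt : 2 * (ρ + ρ ^ 2) * (δ + 1 / M') < 1 / M1 := by
      have h1 : ρ ^ 2 ≤ ρ := by nlinarith
      have h2 : 2 * (ρ + ρ ^ 2) ≤ 4 * (1 / (8 * y)) := by linarith
      have h3 : 2 * (ρ + ρ ^ 2) * (δ + 1 / M') ≤ 4 * (1 / (8 * y)) * (δ + 1 / M') :=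
        mul_le_mul_of_nonneg_right h2 (by positivity)
      refine h3.trans_lt ?_
      rw [hy]
      have h4 : 0 < δ + 1 / M' := by positivity
      have h5 : 4 * (1 / (8 * (M1 * (δ + 1 / M')))) * (δ + 1 / M') = 1 / 2 * (1 / M1) := by
        field_simp
        norm_num
      rw [h5]
      have h6 : 0 < 1 / M1 := by positivity
      linarith
    have hinv : ρ⁻¹ ≤ 32 * y := by
      rw [inv_le_comm₀ hρ0 (by positivity), hρ]
      apply le_min
      · exact inv_le_one_of_one_le₀ hcase.le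
      · rw [one_div]
        apply inv_anti₀ (by positivity)
        linarith
    have h32 : 1 ≤ 32 * y := hcase.le
    have hcoef : ∀ k ∈ Finset.range (2 * l),
        ‖iteratedDeriv k γ 0 / (k.factorial : ℂ)‖ ≤ A * (32 * y) ^ (2 * l) := by
      intro k hk
      rw [Finset.mem_range] at hk
      refine (tc_cauchy γ ρ A hρ0 (fun t ht => hγd t (hslice ρ t ht hlt))
        (fun t ht => hγA t (hslice ρ t ht hlt)) k).trans ?_
      rw [div_eq_mul_inv, ← inv_pow]
      apply mul_le_mul_of_nonneg_left _ hA0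
      calc ρ⁻¹ ^ k ≤ (32 * y) ^ k := pow_le_pow_left₀ (by positivity) hinv k
        _ ≤ _ := pow_le_pow_right₀ h32 hk.le
    have hsum : ‖∑ k ∈ Finset.range (2 * l), iteratedDeriv k γ 0 / (k.factorial : ℂ)‖ ≤
        (2 * l : ℕ) * (A * (32 * y) ^ (2 * l)) := by
      refine (norm_sum_le _ _).trans ?_
      refine (Finset.sum_le_sum hcoef).trans ?_
      rw [Finset.sum_const, Finset.card_range, nsmul_eq_mul]
    have h1p : (1 : ℝ) ≤ (32 * y) ^ (2 * l) := one_le_pow₀ h32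
    have htot : ‖γ 1 - ∑ k ∈ Finset.range (2 * l), iteratedDeriv k γ 0 / (k.factorial : ℂ)‖ ≤
        A * (2 * l + 1) * (32 * y) ^ (2 * l) := by
      refine (norm_sub_le _ _).trans ?_
      have h2 : A ≤ A * (32 * y) ^ (2 * l) := le_mul_of_one_le_right hA0 h1p
      push_cast at hsum
      calc ‖γ 1‖ + _ ≤ A * (32 * y) ^ (2 * l) + 2 * l * (A * (32 * y) ^ (2 * l)) :=
            add_le_add (hg1.trans h2) hsum
        _ = _ := by ring
    refine htot.trans ?_
    rw [hyeq]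
    have h3 : (32 * (M1 / M' * (1 + M' * δ))) ^ (2 * l) =
        32 ^ (2 * l) * (M1 / M') ^ (2 * l) * (1 + M' * δ) ^ (2 * l) := by
      rw [mul_pow, mul_pow]
      ring
    rw [h3]
    have h4 : (M1 / M') ^ (2 * l) ≤ (M1 / M') ^ l :=
      pow_le_pow_of_le_one hr0.le hr1 (by omega)
    calc A * (2 * l + 1) * (32 ^ (2 * l) * (M1 / M') ^ (2 * l) * (1 + M' * δ) ^ (2 * l))
        = A * (2 * l + 1) * 32 ^ (2 * l) * (M1 / M') ^ (2 * l) * (1 + M' * δ) ^ (2 * l) := by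
          ring
      _ ≤ _ := by gcongr

end Pool.Agent.BM

end

section

/-! Finite smoothness up to the closed ball of a series of holomorphic maps
on shrinking neighbourhoods. -/

set_option autoImplicit false

open Metric Set Filter Topology

namespace Pool.Agent.BM

private theorem ct_ball_subset (M : ℝ) (hM : 1 ≤ M) (z : E2) (hz : z ∈ Bt (1 / (2 * M))) :
    ball z (1 / (10 * M)) ⊆ Bt (1 / M) := by
  intro y hy
  rw [mem_ball, dist_eq_norm] at hy
  simp only [Bt, mem_ofPred_eq] at hz ⊢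
  have hM0 : 0 < M := by linarith
  set q : ℝ := 1 / M with hq
  have hq0 : 0 < q := by positivity
  have hq1 : q ≤ 1 := by rw [hq, div_le_one hM0]; exact hM
  have e1 : 1 / (10 * M) = q / 10 := by rw [hq]; field_simp
  have e2 : 1 / (2 * M) = q / 2 := by rw [hq]; field_simp
  rw [e1] at hy
  rw [e2] at hz
  have h1 : ‖y‖ ≤ ‖z‖ + ‖y - z‖ := by
    have : y = z + (y - z) := by abel
    calc ‖y‖ = ‖z + (y - z)‖ := by rw [← this]
      _ ≤ _ := norm_add_le _ _
  have h2 : ‖z‖ < 2 := by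
    by_contra hcon
    push Not at hcon
    nlinarith [norm_nonneg z]
  nlinarith [norm_nonneg z, norm_nonneg y, norm_nonneg (y - z)]

private theorem ct_isOpen_Bt (τ : ℝ) : IsOpen (Bt τ) := by
  have h : Continuous fun z : E2 => ‖z‖ ^ 2 := by fun_prop
  exact isOpen_lt h continuous_const

private theorem ct_K_subset (τ : ℝ) (hτ : 0 < τ) : {z : E2 | ‖z‖ ≤ 1} ⊆ Bt τ := by
  intro z hz
  simp only [Bt, mem_ofPred_eq] at hz ⊢
  nlinarith [norm_nonneg z]

private theorem ct_K_eq : {z : E2 | ‖z‖ ≤ 1} = closedBall (0 : E2) 1 := by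
  ext z
  simp

private theorem ct_K_uniqueDiff : UniqueDiffOn ℂ {z : E2 | ‖z‖ ≤ 1} := by
  rw [ct_K_eq]
  refine UniqueDiffOn.mono_field (𝕜 := ℝ) ?_
  refine uniqueDiffOn_convex (convex_closedBall _ _) ?_
  rw [interior_closedBall _ (one_ne_zero)]
  exact ⟨0, mem_ball_self one_pos⟩

/-- differentiation of the series within the closed ball -/
private theorem ct_hasFDeriv {F : Type} [NormedAddCommGroup F] [NormedSpace ℂ F] [CompleteSpace F]
    (h : ℕ → E2 → F) (h' : ℕ → E2 → E2 →L[ℂ] F) (a b : ℕ → ℝ)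
    (hd : ∀ i, ∀ z ∈ {z : E2 | ‖z‖ ≤ 1}, HasFDerivWithinAt (h i) (h' i z) {z : E2 | ‖z‖ ≤ 1} z)
    (ha : ∀ i, ∀ z ∈ {z : E2 | ‖z‖ ≤ 1}, ‖h i z‖ ≤ a i)
    (hb : ∀ i, ∀ z ∈ {z : E2 | ‖z‖ ≤ 1}, ‖h' i z‖ ≤ b i)
    (sa : Summable a) (sb : Summable b) (x : E2) (hx : x ∈ {z : E2 | ‖z‖ ≤ 1}) :
    HasFDerivWithinAt (fun z => ∑' i, h i z) (∑' i, h' i x) {z : E2 | ‖z‖ ≤ 1} x := by
  rw [hasFDerivWithinAt_iff_tendsto]
  have s1 : ∀ y ∈ {z : E2 | ‖z‖ ≤ 1}, Summable (fun i => h i y) := fun y hy =>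
    Summable.of_norm_bounded sa (fun i => ha i y hy)
  have s2 : Summable (fun i => h' i x) := Summable.of_norm_bounded sb (fun i => hb i x hx)
  let d : E2 → ℕ → F := fun y i => h i y - h i x - h' i x (y - x)
  have hbd : ∀ y ∈ {z : E2 | ‖z‖ ≤ 1}, ∀ i, ‖d y i‖ ≤ 2 * b i * ‖y - x‖ := by
    intro y hy i
    have hconv : Convex ℝ {z : E2 | ‖z‖ ≤ 1} := by
      rw [ct_K_eq]; exact convex_closedBall _ _
    refine Convex.norm_image_sub_le_of_norm_hasFDerivWithin_le' (f' := h' i) (hd i) ?_ hconv hx hy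
    intro z hz
    calc ‖h' i z - h' i x‖ ≤ ‖h' i z‖ + ‖h' i x‖ := norm_sub_le _ _
      _ ≤ b i + b i := add_le_add (hb i z hz) (hb i x hx)
      _ = 2 * b i := by ring
  have s3 : ∀ y ∈ {z : E2 | ‖z‖ ≤ 1}, Summable (fun i => ‖d y i‖) := by
    intro y hy
    refine Summable.of_nonneg_of_le (fun i => norm_nonneg _) (hbd y hy) ?_
    exact (sb.mul_left 2).mul_right _
  have e1 : ∀ y ∈ {z : E2 | ‖z‖ ≤ 1},
      (∑' i, h i y) - (∑' i, h i x) - (∑' i, h' i x) (y - x) = ∑' i, d y i := by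
    intro y hy
    have e2 : (∑' i, h' i x) (y - x) = ∑' i, h' i x (y - x) := by
      have := (ContinuousLinearMap.apply ℂ F (y - x)).map_tsum s2
      simpa using this
    have s4 : Summable (fun i => h' i x (y - x)) := by
      have := (ContinuousLinearMap.apply ℂ F (y - x)).summable s2
      simpa using this
    rw [e2, ← (s1 y hy).tsum_sub (s1 x hx), ← ((s1 y hy).sub (s1 x hx)).tsum_sub s4]
  have key : Tendsto (fun y => ∑' i, ‖y - x‖⁻¹ * ‖d y i‖) (𝓝[{z : E2 | ‖z‖ ≤ 1}] x)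
      (𝓝 (∑' _ : ℕ, (0 : ℝ))) := by
    refine tendsto_tsum_of_dominated_convergence (bound := fun i => 2 * b i) (sb.mul_left 2) ?_ ?_
    · intro i
      exact hasFDerivWithinAt_iff_tendsto.1 (hd i x hx)
    · filter_upwards [self_mem_nhdsWithin] with y hy i
      rw [Real.norm_of_nonneg (by positivity)]
      have hb0 : 0 ≤ b i := (norm_nonneg _).trans (hb i x hx)
      rcases eq_or_ne (‖y - x‖) 0 with h0 | h0
      · rw [h0, inv_zero, zero_mul]; positivity
      · have hpos : 0 < ‖y - x‖ := lt_of_le_of_ne (norm_nonneg _) (Ne.symm h0)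
        rw [inv_mul_le_iff₀ hpos]
        calc ‖d y i‖ ≤ 2 * b i * ‖y - x‖ := hbd y hy i
          _ = ‖y - x‖ * (2 * b i) := by ring
  rw [tsum_zero] at key
  refine squeeze_zero' ?_ ?_ key
  · exact Eventually.of_forall fun y => by positivity
  · filter_upwards [self_mem_nhdsWithin] with y hy
    rw [e1 y hy, tsum_mul_left]
    exact mul_le_mul_of_nonneg_left (norm_tsum_le_tsum_norm (s3 y hy)) (by positivity)

private theorem ct_gen (t : ℕ) : ∀ {F : Type} [NormedAddCommGroup F] [NormedSpace ℂ F]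
    [CompleteSpace F] (h : ℕ → E2 → F) (M a : ℕ → ℝ)
    (_ : ∀ i, 1 ≤ M i) (_ : ∀ i, DifferentiableOn ℂ (h i) (Bt (1 / M i)))
    (_ : ∀ i, ∀ z ∈ Bt (1 / M i), ‖h i z‖ ≤ a i) (_ : Summable (fun i => a i * M i ^ t)),
    ContDiffOn ℂ t (fun z => ∑' i, h i z) {z : E2 | ‖z‖ ≤ 1} := by
  induction t with
  | zero =>
    intro F _ _ _ h M a hM hd hb hs
    simp only [pow_zero, mul_one] at hs
    have hK : ∀ i, {z : E2 | ‖z‖ ≤ 1} ⊆ Bt (1 / M i) := fun i =>
      ct_K_subset _ (by have := hM i; positivity)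
    exact contDiffOn_zero.2 (continuousOn_tsum (fun i => (hd i).continuousOn.mono (hK i)) hs
      (fun i x hx => hb i x (hK i hx)))
  | succ t ih =>
    intro F _ _ _ h M a hM hd hb hs
    have hM0 : ∀ i, 0 < M i := fun i => by linarith [hM i]
    have hK : ∀ i, {z : E2 | ‖z‖ ≤ 1} ⊆ Bt (1 / M i) := fun i =>
      ct_K_subset _ (by have := hM0 i; positivity)
    have hz0 : (0 : E2) ∈ {z : E2 | ‖z‖ ≤ 1} := by simp
    have ha0 : ∀ i, 0 ≤ a i := fun i => (norm_nonneg _).trans (hb i 0 (hK i hz0))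
    -- bounds of the derivative
    have hbd : ∀ i, ∀ z ∈ Bt (1 / (2 * M i)), ‖fderiv ℂ (h i) z‖ ≤ 20 * (a i * M i) := by
      intro i z hz
      have hsub := ct_ball_subset (M i) (hM i) z hz
      have hpos : 0 < 1 / (10 * M i) := by have := hM0 i; positivity
      have := holo_norm_fderiv_le (h i) z (1 / (10 * M i)) (a i) hpos ((hd i).mono hsub)
        (fun y hy => hb i y (hsub hy))
      refine this.trans (le_of_eq ?_)
      have := (hM0 i).ne'
      field_simp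
      ring
    have hBsub : ∀ i, Bt (1 / (2 * M i)) ⊆ Bt (1 / M i) := by
      intro i z hz
      have hpos : 0 < 1 / (10 * M i) := by have := hM0 i; positivity
      exact ct_ball_subset (M i) (hM i) z hz (mem_ball_self hpos)
    have hK2 : ∀ i, {z : E2 | ‖z‖ ≤ 1} ⊆ Bt (1 / (2 * M i)) := fun i =>
      ct_K_subset _ (by have := hM0 i; positivity)
    have hsum1 : ∀ s ≤ t + 1, Summable (fun i => a i * M i ^ s) := by
      intro s hst
      refine Summable.of_nonneg_of_le (fun i => ?_) (fun i => ?_) hs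
      · have := ha0 i; have := hM0 i; positivity
      · exact mul_le_mul_of_nonneg_left (pow_le_pow_right₀ (hM i) hst) (ha0 i)
    have sa : Summable a := by simpa using hsum1 0 (Nat.zero_le _)
    have sb : Summable (fun i => 20 * (a i * M i)) := by
      have := hsum1 1 (by omega)
      simp only [pow_one] at this
      exact this.mul_left 20
    have hC : ContDiffOn ℂ t (fun z => ∑' i, fderiv ℂ (h i) z) {z : E2 | ‖z‖ ≤ 1} := by
      refine ih (fun i => fderiv ℂ (h i)) (fun i => 2 * M i) (fun i => 20 * (a i * M i)) ?_ ?_ hbd ?_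
      · intro i; linarith [hM i]
      · intro i
        exact (holo_fderiv (h i) _ (ct_isOpen_Bt _) (hd i)).mono (hBsub i)
      · refine (hs.mul_left (20 * 2 ^ t)).congr fun i => ?_
        ring
    push_cast
    rw [contDiffOn_succ_iff_hasFDerivWithinAt_of_uniqueDiffOn ct_K_uniqueDiff]
    refine ⟨fun h' => absurd h' (by simp), _, hC, ?_⟩
    intro x hx
    refine ct_hasFDeriv h (fun i => fderiv ℂ (h i)) a (fun i => 20 * (a i * M i)) ?_ ?_ ?_ sa sb x hx
    · intro i z hz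
      exact (((hd i).differentiableAt
        ((ct_isOpen_Bt _).mem_nhds (hK i hz))).hasFDerivAt).hasFDerivWithinAt
    · intro i z hz
      exact hb i z (hK i hz)
    · intro i z hz
      exact hbd i z (hK2 i hz)

theorem contDiff_series (N t : ℕ) (h : ℕ → E2 → VN N) (M a : ℕ → ℝ) (hM : ∀ i, 1 ≤ M i)
    (hd : ∀ i, DifferentiableOn ℂ (h i) (Bt (1 / M i)))
    (hb : ∀ i, ∀ z ∈ Bt (1 / M i), ‖h i z‖ ≤ a i)
    (hs : Summable (fun i => a i * M i ^ t)) :
    ContDiffOn ℂ t (fun z => ∑' i, h i z) {z : E2 | ‖z‖ ≤ 1} :=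
  ct_gen t h M a hM hd hb hs

end Pool.Agent.BM

end
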