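import Pool.Agent.Work.MP_e08233_an.Basic
import Pool.Agent.Work.MP_e08233_an.Bd.B01

/-! Bundle of small proof modules (one section per former module). -/

section

/-! Cross term estimate. -/

set_option autoImplicit false

open MeasureTheory Complex

namespace Pool.Agent.BM

theorem ce_contDiffAt (N : ℕ) (h : E2 → VN N) (τ : ℝ) (hτ : 0 < τ)
    (hd : DifferentiableOn ℂ h (Bt τ))
    (p w : E2) (hp : p ∈ S) (v : VN N) (n : ℕ) :
    ContDiffAt ℂ n (fun t : ℂ => (inner ℂ v (h (p + t • w)) : ℂ)) 0 := by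
  have hc : Continuous (fun t : ℂ => p + t • w) := by fun_prop
  have hU : IsOpen ((fun t : ℂ => p + t • w) ⁻¹' Bt τ) := (isOpen_Bt τ).preimage hc
  have hmem : (0 : ℂ) ∈ ((fun t : ℂ => p + t • w) ⁻¹' Bt τ) := by
    show p + (0 : ℂ) • w ∈ Bt τ
    rw [zero_smul, add_zero]
    exact S_subset_Bt hτ hp
  have hdiff : DifferentiableOn ℂ (fun t : ℂ => (inner ℂ v (h (p + t • w)) : ℂ))
      ((fun t : ℂ => p + t • w) ⁻¹' Bt τ) := by
    intro t ht
    have h1 : DifferentiableAt ℂ h (p + t • w) :=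
      (hd _ ht).differentiableAt ((isOpen_Bt τ).mem_nhds ht)
    have h2 : DifferentiableAt ℂ (fun t : ℂ => p + t • w) t := by fun_prop
    have h3 : DifferentiableAt ℂ (fun t : ℂ => h (p + t • w)) t :=
      DifferentiableAt.comp t h1 h2
    exact ((innerSL ℂ v).differentiableAt.comp t h3).differentiableWithinAt
  exact (hdiff.analyticAt (hU.mem_nhds hmem)).contDiffAt

theorem ce_point (l : ℕ) (hl : 1 ≤ l) (N m : ℕ) (h : ℕ → E2 → VN N) (Mi Ai : ℕ → ℝ) (M' : ℝ)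
    (hM : ∀ i < m, 1 ≤ Mi i ∧ Mi i ≤ M' ∧ 0 ≤ Ai i)
    (hd : ∀ i < m, DifferentiableOn ℂ (h i) (Bt (1 / Mi i)))
    (hA : ∀ i < m, ∀ z ∈ Bt (1 / Mi i), ‖h i z‖ ≤ Ai i) (p ζ : E2) (hp : p ∈ S)
    (hζ : ζ ∈ Bt (1 / M'))
    (v : VN N) (hv : ‖v‖ = 1)
    (hj : ∀ k < 2 * l, iteratedDeriv k
      (fun t : ℂ => (inner ℂ v (∑ i ∈ Finset.range m, h i (p + t • (ζ - p))) : ℂ)) 0 = 0) :
    ‖(inner ℂ v (∑ i ∈ Finset.range m, h i ζ) : ℂ)‖ ≤
      (∑ i ∈ Finset.range m, Ai i * (Mi i / M') ^ l) *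
        ((2 * l + 1) * 32 ^ (2 * l) * (1 + M' * dl ζ p) ^ (2 * l)) := by
  have hz : ∑ i ∈ Finset.range m, ∑ k ∈ Finset.range (2 * l),
      iteratedDeriv k (fun t : ℂ => (inner ℂ v (h i (p + t • (ζ - p))) : ℂ)) 0 /
        (k.factorial : ℂ) = 0 := by
    rw [Finset.sum_comm]
    apply Finset.sum_eq_zero
    intro k hk
    rw [Finset.mem_range] at hk
    have hcd : ∀ i ∈ Finset.range m, ContDiffAt ℂ k
        (fun t : ℂ => (inner ℂ v (h i (p + t • (ζ - p))) : ℂ)) 0 := by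
      intro i hi
      have hi' := Finset.mem_range.1 hi
      have h1 := (hM i hi').1
      exact ce_contDiffAt N (h i) (1 / Mi i) (by positivity) (hd i hi') p (ζ - p) hp v k
    rw [← Finset.sum_div, ← iteratedDeriv_fun_sum hcd]
    have h3 := hj k hk
    simp only [inner_sum] at h3
    rw [h3, zero_div]
  have e : (inner ℂ v (∑ i ∈ Finset.range m, h i ζ) : ℂ) =
      ∑ i ∈ Finset.range m, ((inner ℂ v (h i ζ) : ℂ) - ∑ k ∈ Finset.range (2 * l),
        iteratedDeriv k (fun t : ℂ => (inner ℂ v (h i (p + t • (ζ - p))) : ℂ)) 0 /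
          (k.factorial : ℂ)) := by
    rw [Finset.sum_sub_distrib, hz, sub_zero, inner_sum]
  rw [e, Finset.sum_mul]
  refine (norm_sum_le _ _).trans (Finset.sum_le_sum ?_)
  intro i hi
  have hi' := Finset.mem_range.1 hi
  obtain ⟨h1, h2, h3⟩ := hM i hi'
  refine (taylor_cross N l hl (h i) (Mi i) M' (Ai i) h1 h2 (hd i hi') (hA i hi') p ζ hp hζ v
    hv.le).trans (le_of_eq ?_)
  ring

theorem cross_est (l K : ℕ) (hl : 1 ≤ l) (hK : 2 * l + 3 ≤ K) :
    ∃ CX : ℝ, 0 < CX ∧ ∀ (N m : ℕ) (h : ℕ → E2 → VN N) (Mi Ai : ℕ → ℝ) (M' : ℝ), 1 ≤ M' →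
      (∀ i < m, 1 ≤ Mi i ∧ Mi i ≤ M' ∧ 0 ≤ Ai i) →
      (∀ i < m, DifferentiableOn ℂ (h i) (Bt (1 / Mi i))) →
      (∀ i < m, ∀ z ∈ Bt (1 / Mi i), ‖h i z‖ ≤ Ai i) →
      ∀ (n : ℕ) (p : Fin n → E2) (v : Fin n → VN N) (cf : Fin n → ℝ) (B : ℝ),
        (∀ α, p α ∈ S) → (∀ α, ‖v α‖ = 1) → (∀ α, 0 ≤ cf α ∧ cf α ≤ B) →
        (∀ α, ∀ w : E2, ∀ k < 2 * l, iteratedDeriv k
          (fun t : ℂ => (inner ℂ (v α) (∑ i ∈ Finset.range m, h i (p α + t • w)) : ℂ)) 0 = 0) →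
        ∀ z ζ, Cmp M' z ζ →
          ‖(inner ℂ (∑ i ∈ Finset.range m, h i ζ)
            (∑ α, ((cf α : ℂ) * pk K M' (p α) z) • v α) : ℂ)‖ ≤
          CX * B * (∑ i ∈ Finset.range m, Ai i * (Mi i / M') ^ l) *
            ∑ α, ((1 + M' * dl z (p α)) ^ 3)⁻¹ := by
  refine ⟨(2 * l + 1) * 96 ^ (2 * l) * 6 ^ K, by positivity, ?_⟩
  intro N m h Mi Ai M' hM' hM hd hA n p v cf B hp hv hcf hj z ζ hC
  obtain ⟨hz, hζ, hcmp⟩ := hC
  rw [inner_sum]
  refine (norm_sum_le _ _).trans ?_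
  rw [Finset.mul_sum]
  refine Finset.sum_le_sum ?_
  intro α _
  rw [inner_smul_right, norm_mul, norm_mul, Complex.norm_real, Real.norm_of_nonneg (hcf α).1]
  have h1 := pk_norm_le (K := K) hM' (hp α) hz
  have h2 := ce_point l hl N m h Mi Ai M' hM hd hA (p α) ζ (hp α) hζ (v α) (hv α)
    (fun k hk => hj α (ζ - p α) k hk)
  rw [norm_inner_symm]
  have hM0 : 0 < M' := by linarith
  have hs : 0 ≤ ∑ i ∈ Finset.range m, Ai i * (Mi i / M') ^ l := by
    apply Finset.sum_nonneg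
    intro i hi
    obtain ⟨g1, g2, g3⟩ := hM i (Finset.mem_range.1 hi)
    have g4 : 0 ≤ Mi i / M' := div_nonneg (by linarith) hM0.le
    exact mul_nonneg g3 (pow_nonneg g4 l)
  have hYX : 1 + M' * dl ζ (p α) ≤ 3 * (1 + M' * dl z (p α)) := hcmp _ (hp α)
  have hX : 1 ≤ 1 + M' * dl z (p α) := by
    have := mul_nonneg hM0.le (dl_nonneg z (p α))
    linarith
  have hY : 0 ≤ 1 + M' * dl ζ (p α) := by
    have := mul_nonneg hM0.le (dl_nonneg ζ (p α))
    linarith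
  generalize ∑ i ∈ Finset.range m, Ai i * (Mi i / M') ^ l = s at h2 hs ⊢
  generalize 1 + M' * dl z (p α) = X at h1 hYX hX ⊢
  generalize 1 + M' * dl ζ (p α) = Y at h2 hYX hY ⊢
  have hX0 : 0 < X := by linarith
  have hYp : Y ^ (2 * l) ≤ 3 ^ (2 * l) * X ^ (2 * l) := by
    rw [← mul_pow]
    exact pow_le_pow_left₀ hY hYX _
  have hK1 : X ^ (2 * l) * (X ^ K)⁻¹ ≤ (X ^ 3)⁻¹ := by
    rw [← div_eq_mul_inv, div_le_iff₀ (by positivity), inv_mul_eq_div,
      le_div_iff₀ (by positivity), ← pow_add]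
    exact pow_le_pow_right₀ hX hK
  have hB : 0 ≤ B := (hcf α).1.trans (hcf α).2
  calc cf α * ‖pk K M' (p α) z‖ * ‖(inner ℂ (v α) (∑ i ∈ Finset.range m, h i ζ) : ℂ)‖
      ≤ B * (6 ^ K * (X ^ K)⁻¹) *
        (s * ((2 * l + 1) * 32 ^ (2 * l) * (3 ^ (2 * l) * X ^ (2 * l)))) := by
        refine mul_le_mul (mul_le_mul (hcf α).2 h1 (norm_nonneg _) hB) (h2.trans ?_)
          (norm_nonneg _) (by positivity)
        gcongr
    _ = (2 * l + 1) * (32 * 3) ^ (2 * l) * 6 ^ K * B * s * (X ^ (2 * l) * (X ^ K)⁻¹) := by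
        rw [mul_pow]; ring
    _ ≤ (2 * l + 1) * (32 * 3) ^ (2 * l) * 6 ^ K * B * s * (X ^ 3)⁻¹ := by gcongr
    _ = _ := by norm_num

end Pool.Agent.BM

end

section

/-! The space of jets of a holomorphic map of two variables has bounded dimension. -/

set_option autoImplicit false

open Metric Set Filter Topology

namespace Pool.Agent.BM

/-- iterated derivatives along a complex line -/
private theorem jets_line (N : ℕ) (g : E2 → VN N) (U : Set E2) (hU : IsOpen U)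
    (hg : DifferentiableOn ℂ g U) (p w : E2) (v : VN N) (k : ℕ) :
    ∀ t : ℂ, p + t • w ∈ U →
      iteratedDeriv k (fun t : ℂ => (inner ℂ v (g (p + t • w)) : ℂ)) t
        = inner ℂ v (iteratedFDeriv ℂ k g (p + t • w) (fun _ => w)) := by
  induction k with
  | zero =>
    intro t _
    simp
  | succ k ih =>
    intro t ht
    have hlin : HasDerivAt (fun t : ℂ => p + t • w) w t := by
      have := ((hasDerivAt_id t).smul_const w).const_add p
      simpa using this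
    have hev : ∀ᶠ s in 𝓝 t, p + s • w ∈ U :=
      hlin.continuousAt.eventually (hU.mem_nhds ht)
    have hEq : iteratedDeriv k (fun t : ℂ => (inner ℂ v (g (p + t • w)) : ℂ)) =ᶠ[𝓝 t]
        fun s => inner ℂ v (iteratedFDeriv ℂ k g (p + s • w) (fun _ => w)) := by
      filter_upwards [hev] with s hs
      exact ih s hs
    rw [iteratedDeriv_succ, hEq.deriv_eq, iteratedFDeriv_succ_apply_left]
    have hsm : ContDiffOn ℂ ((k + 1 : ℕ) : WithTop ℕ∞) g U := holo_contDiffOn g U hU hg (k + 1)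
    have hdW : DifferentiableOn ℂ (iteratedFDerivWithin ℂ k g U) U :=
      hsm.differentiableOn_iteratedFDerivWithin (by exact_mod_cast Nat.lt_succ_self k)
        hU.uniqueDiffOn
    have hd : DifferentiableAt ℂ (iteratedFDeriv ℂ k g) (p + t • w) := by
      have h1 : DifferentiableAt ℂ (iteratedFDerivWithin ℂ k g U) (p + t • w) :=
        hdW.differentiableAt (hU.mem_nhds ht)
      refine h1.congr_of_eventuallyEq ?_
      filter_upwards [hU.mem_nhds ht] with y hy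
      exact (iteratedFDerivWithin_of_isOpen k hU hy).symm
    have h2 : HasDerivAt (fun s : ℂ => iteratedFDeriv ℂ k g (p + s • w))
        (fderiv ℂ (iteratedFDeriv ℂ k g) (p + t • w) w) t :=
      hd.hasFDerivAt.comp_hasDerivAt t hlin
    let ev : (ContinuousMultilinearMap ℂ (fun _ : Fin k => E2) (VN N)) →L[ℂ] ℂ :=
      (innerSL ℂ v).comp (ContinuousMultilinearMap.apply ℂ (fun _ : Fin k => E2) (VN N)
        (fun _ => w))
    have h3 := ev.hasFDerivAt.comp_hasDerivAt t h2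
    exact h3.deriv

theorem jets (N L : ℕ) (g : E2 → VN N) (U : Set E2) (hU : IsOpen U)
    (hg : DifferentiableOn ℂ g U) (p : E2) (hp : p ∈ U) :
    ∃ W : Submodule ℂ (VN N), Module.finrank ℂ W ≤ 2 ^ (L + 1) ∧
      ∀ v ∈ Wᗮ, ∀ w : E2, ∀ k ≤ L,
        iteratedDeriv k (fun t : ℂ => (inner ℂ v (g (p + t • w)) : ℂ)) 0 = 0 := by
  classical
  let e : Module.Basis (Fin 2) ℂ E2 := (EuclideanSpace.basisFun (Fin 2) ℂ).toBasis
  let b : (Σ k : Fin (L + 1), (Fin (k : ℕ) → Fin 2)) → VN N := fun x =>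
    iteratedFDeriv ℂ (x.1 : ℕ) g p (fun i => e (x.2 i))
  refine ⟨Submodule.span ℂ (Set.range b), ?_, ?_⟩
  · have h1 : Set.finrank ℂ (Set.range b) ≤
        Fintype.card (Σ k : Fin (L + 1), (Fin (k : ℕ) → Fin 2)) := finrank_range_le_card b
    have h2 : Fintype.card (Σ k : Fin (L + 1), (Fin (k : ℕ) → Fin 2)) ≤ 2 ^ (L + 1) := by
      rw [Fintype.card_sigma]
      have h3 : ∀ k : Fin (L + 1), Fintype.card (Fin (k : ℕ) → Fin 2) = 2 ^ (k : ℕ) := by
        intro k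
        simp
      rw [Finset.sum_congr rfl fun k _ => h3 k, Fin.sum_univ_eq_sum_range (fun k => 2 ^ k) (L + 1)]
      have h4 := Nat.geomSum_eq (m := 2) (le_refl 2) (L + 1)
      rw [h4]
      simp
    exact h1.trans h2
  · intro v hv w k hk
    rw [Submodule.mem_orthogonal'] at hv
    have h0 := jets_line N g U hU hg p w v k 0 (by simpa using hp)
    rw [h0]
    simp only [zero_smul, add_zero]
    have h5 : ∀ s : Fin k → Fin 2, inner ℂ v (iteratedFDeriv ℂ k g p (fun i => e (s i))) = 0 := by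
      intro s
      exact hv _ (Submodule.subset_span ⟨⟨⟨k, by omega⟩, s⟩, rfl⟩)
    let A : MultilinearMap ℂ (fun _ : Fin k => E2) ℂ :=
      ((innerSL ℂ v).compContinuousMultilinearMap (iteratedFDeriv ℂ k g p)).toMultilinearMap
    have h6 : A = 0 := by
      refine Module.Basis.ext_multilinear (fun _ => e) fun s => ?_
      exact h5 s
    have h7 : A (fun _ => w) = 0 := by rw [h6]; rfl
    exact h7

end Pool.Agent.BM

end
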