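import Pool.Agent.Work.MP_e08233_an.Defs2

/-! Bundle of small proof modules (one section per former module). -/

section

/-! Geometry of the moved frame (C5). -/

set_option autoImplicit false

open MeasureTheory Complex

namespace Pool.Agent.BM

/-- a vector with given coordinates -/
noncomputable def czv (a b : ℂ) : E2 := WithLp.toLp 2 ![a, b]

@[simp] theorem czv_zero (a b : ℂ) : (czv a b) 0 = a := by simp [czv]
@[simp] theorem czv_one (a b : ℂ) : (czv a b) 1 = b := by simp [czv]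

theorem cz_zy_eq (z0 : E2) (y : Matrix (Fin 2) (Fin 2) ℂ) :
    zy z0 y = act z0 (czv (y 0 0) (y 1 0)) := by
  simp [zy, act]

theorem cz_ey_eq (z0 : E2) (y : Matrix (Fin 2) (Fin 2) ℂ) :
    ey z0 y = act z0 (czv ((starRingEnd ℂ) (y 1 1)) (-(starRingEnd ℂ) (y 0 1))) := by
  simp [ey, act, sub_eq_add_neg]

theorem cz_mem_Bt (M1 : ℝ) (hM1 : 1 ≤ M1) (z0 : E2) (hz0 : z0 ∈ S) (q : E2)
    (h0 : ‖q 0 - 1‖ ≤ 1 / (8 * M1)) (h1 : ‖q 1‖ ^ 2 ≤ 1 / (8 * M1)) :
    act z0 q ∈ Bt (1 / M1) := by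
  have hz : ‖z0‖ = 1 := hz0
  have hM0 : 0 < M1 := by linarith
  set x : ℝ := 1 / (8 * M1) with hx
  have hx0 : 0 < x := by positivity
  have hx1 : x ≤ 1 / 8 := by
    rw [hx]
    apply one_div_le_one_div_of_le (by norm_num)
    linarith
  have hxM : 1 / M1 = 8 * x := by rw [hx]; field_simp
  show ‖act z0 q‖ ^ 2 < 1 + 1 / M1
  rw [norm_act, hz, one_mul, norm_sq_eq, hxM]
  have h2 : ‖q 0‖ ≤ 1 + x := by
    have : q 0 = 1 + (q 0 - 1) := by ring
    rw [this]
    calc ‖1 + (q 0 - 1)‖ ≤ ‖(1 : ℂ)‖ + ‖q 0 - 1‖ := norm_add_le _ _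
      _ ≤ 1 + x := by simpa using h0
  have h3 : 0 ≤ ‖q 0‖ := norm_nonneg _
  nlinarith

theorem cz_dl_sub (z0 : E2) (hz0 : z0 ∈ S) (q p : E2) (hp : p ∈ S) (x : ℝ)
    (h0 : ‖q 0 - 1‖ ≤ x) (h1 : ‖q 1‖ ^ 2 ≤ x) :
    |dl (act z0 q) p - dl z0 p| ≤ 2 * x + dl z0 p / 2 := by
  have hp1 : ‖p‖ = 1 := hp
  have h2 : ((1 : ℂ) - inner ℂ p (act z0 q)) - (1 - inner ℂ p z0) =
      -((q 0 - 1) * inner ℂ p z0) - q 1 * inner ℂ p (Jm z0) := by
    unfold act
    rw [inner_add_right, inner_smul_right, inner_smul_right]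
    ring
  have h3 : |dl (act z0 q) p - dl z0 p| ≤
      ‖((1 : ℂ) - inner ℂ p (act z0 q)) - (1 - inner ℂ p z0)‖ := by
    unfold dl
    exact abs_norm_sub_norm_le _ _
  rw [h2] at h3
  have h4 : ‖(inner ℂ p z0 : ℂ)‖ ≤ 1 := by
    have := norm_inner_le_norm_left (z := z0) hp
    have hz : ‖z0‖ = 1 := hz0
    rwa [hz] at this
  have h5 : ‖(inner ℂ p (Jm z0) : ℂ)‖ ^ 2 ≤ 2 * dl z0 p := by
    rw [← inner_conj_symm, Complex.norm_conj]
    have := normSq_inner_Jm_le z0 p hz0 0 (by simp [hp1])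
    rw [dl_comm z0 p]
    linarith
  have h6 : ‖-((q 0 - 1) * inner ℂ p z0) - q 1 * inner ℂ p (Jm z0)‖ ≤
      ‖q 0 - 1‖ * ‖(inner ℂ p z0 : ℂ)‖ + ‖q 1‖ * ‖(inner ℂ p (Jm z0) : ℂ)‖ := by
    calc _ ≤ ‖-((q 0 - 1) * inner ℂ p z0)‖ + ‖q 1 * inner ℂ p (Jm z0)‖ := norm_sub_le _ _
      _ = _ := by rw [norm_neg, norm_mul, norm_mul]
  have h7 : ‖q 0 - 1‖ * ‖(inner ℂ p z0 : ℂ)‖ ≤ x := by
    have := norm_nonneg (q 0 - 1)
    have := norm_nonneg (inner ℂ p z0 : ℂ)
    nlinarith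
  have h8 : ‖q 1‖ * ‖(inner ℂ p (Jm z0) : ℂ)‖ ≤ x + dl z0 p / 2 := by
    nlinarith [sq_nonneg (‖q 1‖ - ‖(inner ℂ p (Jm z0) : ℂ)‖ / 2)]
  linarith

theorem cz_cmp (M1 : ℝ) (hM1 : 1 ≤ M1) (z0 : E2) (hz0 : z0 ∈ S) (q r : E2)
    (h0 : ‖q 0 - 1‖ ≤ 1 / (8 * M1)) (h1 : ‖q 1‖ ^ 2 ≤ 1 / (8 * M1))
    (h0' : ‖r 0 - 1‖ ≤ 1 / (8 * M1)) (h1' : ‖r 1‖ ^ 2 ≤ 1 / (8 * M1)) :
    Cmp M1 (act z0 q) (act z0 r) := by
  refine ⟨cz_mem_Bt M1 hM1 z0 hz0 q h0 h1, cz_mem_Bt M1 hM1 z0 hz0 r h0' h1', ?_⟩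
  intro p hp
  have ha := abs_le.1 (cz_dl_sub z0 hz0 q p hp _ h0 h1)
  have hb := abs_le.1 (cz_dl_sub z0 hz0 r p hp _ h0' h1')
  have hM0 : 0 < M1 := by linarith
  have hx : M1 * (1 / (8 * M1)) = 1 / 8 := by field_simp
  have h3 : dl (act z0 r) p ≤ 3 * dl (act z0 q) p + 8 * (1 / (8 * M1)) := by linarith
  have h4 : M1 * dl (act z0 r) p ≤ M1 * (3 * dl (act z0 q) p + 8 * (1 / (8 * M1))) :=
    mul_le_mul_of_nonneg_left h3 hM0.le
  have h5 : M1 * (3 * dl (act z0 q) p + 8 * (1 / (8 * M1))) =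
      3 * (M1 * dl (act z0 q) p) + 8 * (M1 * (1 / (8 * M1))) := by ring
  rw [h5, hx] at h4
  linarith

theorem cmp_zy (M1 : ℝ) (hM1 : 1 ≤ M1) (z0 : E2) (hz0 : z0 ∈ S)
    (y : Matrix (Fin 2) (Fin 2) ℂ) (hy : y ∈ KK (1 / (8 * M1))) :
    Cmp M1 (zy z0 y) (ey z0 y) ∧ Cmp M1 (ey z0 y) (zy z0 y) := by
  obtain ⟨h00, h11, h01, h10⟩ := hy
  have e1 : ‖(starRingEnd ℂ) (y 1 1) - 1‖ ≤ 1 / (8 * M1) := by
    have : (starRingEnd ℂ) (y 1 1) - 1 = (starRingEnd ℂ) (y 1 1 - 1) := by simp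
    rw [this, Complex.norm_conj]; exact h11
  have e2 : ‖-(starRingEnd ℂ) (y 0 1)‖ ^ 2 ≤ 1 / (8 * M1) := by
    rw [norm_neg, Complex.norm_conj]; exact h01
  rw [cz_zy_eq, cz_ey_eq]
  constructor
  · exact cz_cmp M1 hM1 z0 hz0 _ _ (by simpa using h00) (by simpa using h10)
      (by simpa using e1) (by simpa using e2)
  · exact cz_cmp M1 hM1 z0 hz0 _ _ (by simpa using e1) (by simpa using e2)
      (by simpa using h00) (by simpa using h10)

theorem line_diff (N : ℕ) (M1 : ℝ) (hM1 : 1 ≤ M1) (z0 : E2) (hz0 : z0 ∈ S) (h g : E2 → VN N)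
    (hh : DifferentiableOn ℂ h (Bt (1 / M1))) (hg : DifferentiableOn ℂ g (Bt (1 / M1)))
    (y0 y1 : Matrix (Fin 2) (Fin 2) ℂ) (t : ℂ) (ht : y0 + t • y1 ∈ KK (1 / (8 * M1))) :
    DifferentiableAt ℂ
      (fun s : ℂ => (inner ℂ (h (ey z0 (y0 + s • y1))) (g (zy z0 (y0 + s • y1))) : ℂ)) t := by
  have hc := (cmp_zy M1 hM1 z0 hz0 _ ht).1
  have hz : zy z0 (y0 + t • y1) ∈ Bt (1 / M1) := hc.1
  have he : ey z0 (y0 + t • y1) ∈ Bt (1 / M1) := hc.2.1
  have hgd : DifferentiableAt ℂ g (zy z0 (y0 + t • y1)) :=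
    hg.differentiableAt ((isOpen_Bt _).mem_nhds hz)
  have hhd : DifferentiableAt ℂ h (ey z0 (y0 + t • y1)) :=
    hh.differentiableAt ((isOpen_Bt _).mem_nhds he)
  have hz1 : DifferentiableAt ℂ (fun s : ℂ => zy z0 (y0 + s • y1)) t := by
    unfold zy
    simp only [Matrix.add_apply, Matrix.smul_apply, smul_eq_mul]
    fun_prop
  have hG : DifferentiableAt ℂ (fun s : ℂ => g (zy z0 (y0 + s • y1))) t :=
    DifferentiableAt.comp t (f := fun s : ℂ => zy z0 (y0 + s • y1)) hgd hz1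
  -- the conjugate factor
  let φ : ℂ → VN N := fun w : ℂ => h (ey z0 (y0 + ((starRingEnd ℂ) w) • y1))
  have hz2 : DifferentiableAt ℂ (fun w : ℂ => ey z0 (y0 + ((starRingEnd ℂ) w) • y1))
      ((starRingEnd ℂ) t) := by
    unfold ey
    simp only [Matrix.add_apply, Matrix.smul_apply, smul_eq_mul, map_add, map_mul,
      Complex.conj_conj]
    fun_prop
  have hφ : DifferentiableAt ℂ φ ((starRingEnd ℂ) t) := by
    refine DifferentiableAt.comp ((starRingEnd ℂ) t)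
      (f := fun w : ℂ => ey z0 (y0 + ((starRingEnd ℂ) w) • y1)) ?_ hz2
    rw [Complex.conj_conj]
    exact hhd
  have hφj : ∀ j : Fin N, DifferentiableAt ℂ (fun w => φ w j) ((starRingEnd ℂ) t) := by
    intro j
    exact (EuclideanSpace.proj (𝕜 := ℂ) j).differentiableAt.comp _ hφ
  have hH : ∀ j : Fin N, DifferentiableAt ℂ
      (fun s : ℂ => (starRingEnd ℂ) (h (ey z0 (y0 + s • y1)) j)) t := by
    intro j
    have := (hφj j).conj_conj
    rw [Complex.conj_conj] at this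
    have e : (⇑(starRingEnd ℂ) ∘ (fun w => φ w j) ∘ ⇑(starRingEnd ℂ)) =
        (fun s : ℂ => (starRingEnd ℂ) (h (ey z0 (y0 + s • y1)) j)) := by
      funext s
      simp [φ, Function.comp]
    rwa [e] at this
  have hGj : ∀ j : Fin N, DifferentiableAt ℂ
      (fun s : ℂ => (g (zy z0 (y0 + s • y1)) j)) t := by
    intro j
    exact (EuclideanSpace.proj (𝕜 := ℂ) j).differentiableAt.comp _ hG
  have e : (fun s : ℂ => (inner ℂ (h (ey z0 (y0 + s • y1))) (g (zy z0 (y0 + s • y1))) : ℂ)) =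
      (fun s : ℂ => ∑ j : Fin N, (g (zy z0 (y0 + s • y1)) j) *
        (starRingEnd ℂ) (h (ey z0 (y0 + s • y1)) j)) := by
    funext s
    rw [PiLp.inner_apply]
    rfl
  rw [e]
  refine DifferentiableAt.fun_sum fun j _ => ?_
  exact (hGj j).mul (hH j)

end Pool.Agent.BM

end

section

/-! C1: Schwarz estimate of the multi-difference. -/

set_option autoImplicit false

open MeasureTheory Complex

namespace Pool.Agent.BM

/-- geometric step: right multiplication by 1 + t (k_q - 1) maps one neighbourhood to the next -/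
theorem DmB_geom (j ρ : ℝ) (hj : 0 ≤ j) (hρ : 0 < ρ)
    (hsm : 16 * (j + 1) ^ 2 * ρ ^ 2 ≤ 1 / 8) (y : Matrix (Fin 2) (Fin 2) ℂ)
    (hy : y ∈ KK (16 * j ^ 2 * ρ ^ 2)) (q : E2) (hq : q ∈ S)
    (hr : Real.sqrt ‖1 - q 0‖ ≤ ρ) (t : ℂ) (ht : ‖t‖ * Real.sqrt ‖1 - q 0‖ ≤ ρ) :
    y + t • (y * (kq q - 1)) ∈ KK (16 * (j + 1) ^ 2 * ρ ^ 2) := by
  set r := Real.sqrt ‖1 - q 0‖ with hrdef
  have hr0 : 0 ≤ r := Real.sqrt_nonneg _
  have hr2 : r ^ 2 = ‖1 - q 0‖ := Real.sq_sqrt (norm_nonneg _)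
  have ht0 : 0 ≤ ‖t‖ := norm_nonneg _
  have hq1 : ‖q 0‖ ^ 2 + ‖q 1‖ ^ 2 = 1 := by
    rw [← norm_sq_eq]; have : ‖q‖ = 1 := hq; simp [this]
  have hq2 : ‖q 1‖ ^ 2 ≤ 2 * r ^ 2 := by
    have := one_sub_normSq_le (q 0)
    rw [hr2]; linarith
  have htd : ‖t‖ * r ^ 2 ≤ ρ ^ 2 := by
    calc ‖t‖ * r ^ 2 = (‖t‖ * r) * r := by ring
      _ ≤ ρ * ρ := by gcongr
      _ = ρ ^ 2 := by ring
  have hod : ‖t‖ * ‖q 1‖ ≤ 3 / 2 * ρ := by
    apply le_of_sq_le_sq _ (by positivity)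
    calc (‖t‖ * ‖q 1‖) ^ 2 = ‖t‖ ^ 2 * ‖q 1‖ ^ 2 := by ring
      _ ≤ ‖t‖ ^ 2 * (2 * r ^ 2) := by gcongr
      _ = 2 * (‖t‖ * r) ^ 2 := by ring
      _ ≤ 2 * ρ ^ 2 := by gcongr
      _ ≤ (3 / 2 * ρ) ^ 2 := by linarith [sq_nonneg ρ]
  obtain ⟨h00, h11, h01, h10⟩ := hy
  have hw00 : ‖t * (q 0 - 1)‖ ≤ ρ ^ 2 := by
    rw [norm_mul, norm_sub_rev, ← hr2]; exact htd
  have hw11 : ‖t * ((starRingEnd ℂ) (q 0) - 1)‖ ≤ ρ ^ 2 := by
    have : ‖(starRingEnd ℂ) (q 0) - 1‖ = ‖1 - q 0‖ := by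
      rw [norm_sub_rev, ← Complex.norm_conj]; simp
    rw [norm_mul, this, ← hr2]; exact htd
  have hw10 : ‖t * q 1‖ ≤ 3 / 2 * ρ := by rw [norm_mul]; exact hod
  have hw01 : ‖t * (starRingEnd ℂ) (q 1)‖ ≤ 3 / 2 * ρ := by
    rw [norm_mul, Complex.norm_conj]; exact hod
  have h01' : ‖y 0 1‖ ≤ 4 * j * ρ := by
    apply le_of_sq_le_sq _ (by positivity)
    calc _ ≤ _ := h01
      _ = _ := by ring
  have h10' : ‖y 1 0‖ ≤ 4 * j * ρ := by
    apply le_of_sq_le_sq _ (by positivity)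
    calc _ ≤ _ := h10
      _ = _ := by ring
  have hjr : 16 * j ^ 2 * ρ ^ 2 ≤ 1 / 8 := by
    refine le_trans ?_ hsm
    gcongr
    linarith
  have h00' : ‖y 0 0‖ ≤ 9 / 8 := by
    have h := norm_add_le (y 0 0 - 1) 1
    rw [sub_add_cancel, norm_one] at h
    linarith
  have h11' : ‖y 1 1‖ ≤ 9 / 8 := by
    have h := norm_add_le (y 1 1 - 1) 1
    rw [sub_add_cancel, norm_one] at h
    linarith
  have hρ2 : ρ ^ 2 ≤ 1 / 128 := by
    have : 16 * ρ ^ 2 ≤ 16 * (j + 1) ^ 2 * ρ ^ 2 := by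
      have h1 : (1 : ℝ) ≤ (j + 1) ^ 2 := by linarith [sq_nonneg j]
      have h2 := mul_le_mul_of_nonneg_right h1 (sq_nonneg ρ)
      linarith
    linarith
  have hρρ : ρ ≤ 1 := le_of_sq_le_sq (by rw [one_pow]; linarith) zero_le_one
  have hρpos : 0 < ρ ^ 2 := by positivity
  refine ⟨?_, ?_, ?_, ?_⟩
  · have e : (y + t • (y * (kq q - 1))) 0 0 - 1 =
        (y 0 0 - 1) + (y 0 0 * (t * (q 0 - 1)) + y 0 1 * (t * q 1)) := by
      simp [kq, Matrix.mul_apply, Fin.sum_univ_two]; ring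
    rw [e]
    calc _ ≤ ‖y 0 0 - 1‖ + (‖y 0 0‖ * ‖t * (q 0 - 1)‖ + ‖y 0 1‖ * ‖t * q 1‖) := by
          refine (norm_add_le _ _).trans ?_
          gcongr
          refine (norm_add_le _ _).trans ?_
          rw [norm_mul, norm_mul (y 0 1)]
      _ ≤ 16 * j ^ 2 * ρ ^ 2 + (9 / 8 * ρ ^ 2 + 4 * j * ρ * (3 / 2 * ρ)) := by
          gcongr
      _ ≤ _ := by linarith [mul_nonneg hj hρpos.le]
  · have e : (y + t • (y * (kq q - 1))) 1 1 - 1 =
        (y 1 1 - 1) + (y 1 1 * (t * ((starRingEnd ℂ) (q 0) - 1)) -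
          y 1 0 * (t * (starRingEnd ℂ) (q 1))) := by
      simp [kq, Matrix.mul_apply, Fin.sum_univ_two]; ring
    rw [e]
    calc _ ≤ ‖y 1 1 - 1‖ + (‖y 1 1‖ * ‖t * ((starRingEnd ℂ) (q 0) - 1)‖ +
          ‖y 1 0‖ * ‖t * (starRingEnd ℂ) (q 1)‖) := by
          refine (norm_add_le _ _).trans ?_
          gcongr
          refine (norm_sub_le _ _).trans ?_
          rw [norm_mul, norm_mul (y 1 0)]
      _ ≤ 16 * j ^ 2 * ρ ^ 2 + (9 / 8 * ρ ^ 2 + 4 * j * ρ * (3 / 2 * ρ)) := by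
          gcongr
      _ ≤ _ := by linarith [mul_nonneg hj hρpos.le]
  · have e : (y + t • (y * (kq q - 1))) 0 1 =
        y 0 1 + (y 0 1 * (t * ((starRingEnd ℂ) (q 0) - 1)) -
          y 0 0 * (t * (starRingEnd ℂ) (q 1))) := by
      simp [kq, Matrix.mul_apply, Fin.sum_univ_two]; ring
    rw [e]
    have hb : ‖y 0 1 + (y 0 1 * (t * ((starRingEnd ℂ) (q 0) - 1)) -
          y 0 0 * (t * (starRingEnd ℂ) (q 1)))‖ ≤ 4 * (j + 1) * ρ := by
      calc _ ≤ ‖y 0 1‖ + (‖y 0 1‖ * ‖t * ((starRingEnd ℂ) (q 0) - 1)‖ +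
            ‖y 0 0‖ * ‖t * (starRingEnd ℂ) (q 1)‖) := by
            refine (norm_add_le _ _).trans ?_
            gcongr
            refine (norm_sub_le _ _).trans ?_
            rw [norm_mul, norm_mul (y 0 0)]
        _ ≤ 4 * j * ρ + (4 * j * ρ * ρ ^ 2 + 9 / 8 * (3 / 2 * ρ)) := by
            gcongr
        _ ≤ _ := by
            have h0 : j ≤ (j + 1) ^ 2 := by linarith [sq_nonneg j]
            have h1 := mul_le_mul_of_nonneg_right h0 (sq_nonneg ρ)
            have h2 : j * ρ ^ 2 ≤ 1 / 128 := by linarith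
            have h3 := mul_le_mul_of_nonneg_right h2 hρ.le
            linarith
    calc _ ≤ (4 * (j + 1) * ρ) ^ 2 := by gcongr
      _ = _ := by ring
  · have e : (y + t • (y * (kq q - 1))) 1 0 =
        y 1 0 + (y 1 0 * (t * (q 0 - 1)) + y 1 1 * (t * q 1)) := by
      simp [kq, Matrix.mul_apply, Fin.sum_univ_two]; ring
    rw [e]
    have hb : ‖y 1 0 + (y 1 0 * (t * (q 0 - 1)) + y 1 1 * (t * q 1))‖ ≤ 4 * (j + 1) * ρ := by
      calc _ ≤ ‖y 1 0‖ + (‖y 1 0‖ * ‖t * (q 0 - 1)‖ + ‖y 1 1‖ * ‖t * q 1‖) := by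
            refine (norm_add_le _ _).trans ?_
            gcongr
            refine (norm_add_le _ _).trans ?_
            rw [norm_mul, norm_mul (y 1 1)]
        _ ≤ 4 * j * ρ + (4 * j * ρ * ρ ^ 2 + 9 / 8 * (3 / 2 * ρ)) := by
            gcongr
        _ ≤ _ := by
            have h0 : j ≤ (j + 1) ^ 2 := by linarith [sq_nonneg j]
            have h1 := mul_le_mul_of_nonneg_right h0 (sq_nonneg ρ)
            have h2 : j * ρ ^ 2 ≤ 1 / 128 := by linarith
            have h3 := mul_le_mul_of_nonneg_right h2 hρ.le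
            linarith
    calc _ ≤ (4 * (j + 1) * ρ) ^ 2 := by gcongr
      _ = _ := by ring

theorem DmB_KK_mono {x x' : ℝ} (h : x ≤ x') : KK x ⊆ KK x' := by
  rintro y ⟨h1, h2, h3, h4⟩
  exact ⟨h1.trans h, h2.trans h, h3.trans h, h4.trans h⟩

theorem DmB_main (n : ℕ) (ρ x A : ℝ) (hρ : 0 < ρ) (hx : x = 16 * n ^ 2 * ρ ^ 2)
    (hx' : x ≤ 1 / 8) (hA : 0 ≤ A) (F : Matrix (Fin 2) (Fin 2) ℂ → ℂ)
    (hF2 : ∀ y ∈ KK x, ‖F y‖ ≤ A)
    (hF3 : ∀ y0 y1 : Matrix (Fin 2) (Fin 2) ℂ, ∀ t : ℂ, y0 + t • y1 ∈ KK x →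
      DifferentiableAt ℂ (fun s : ℂ => F (y0 + s • y1)) t)
    (qs : List E2) :
    (∀ q ∈ qs, q ∈ S ∧ Real.sqrt ‖1 - q 0‖ ≤ ρ) → ∀ j : ℕ, j + qs.length ≤ n →
    (∀ y ∈ KK (16 * (j : ℝ) ^ 2 * ρ ^ 2), ‖Dm F qs y‖ ≤
      A * (qs.map (fun q => 2 * Real.sqrt ‖1 - q 0‖ / ρ)).prod) ∧
    (∀ y0 y1 : Matrix (Fin 2) (Fin 2) ℂ, ∀ t : ℂ, y0 + t • y1 ∈ KK (16 * (j : ℝ) ^ 2 * ρ ^ 2) →
      DifferentiableAt ℂ (fun s : ℂ => Dm F qs (y0 + s • y1)) t) := by
  have hmono : ∀ j : ℕ, j ≤ n → 16 * (j : ℝ) ^ 2 * ρ ^ 2 ≤ x := by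
    intro j hj
    rw [hx]
    have : (j : ℝ) ≤ n := by exact_mod_cast hj
    gcongr
  induction qs with
  | nil =>
    intro _ j hj
    simp only [List.length_nil, add_zero] at hj
    refine ⟨?_, ?_⟩
    · intro y hy
      simp only [Dm, List.map_nil, List.prod_nil, mul_one]
      exact hF2 y (DmB_KK_mono (hmono j hj) hy)
    · intro y0 y1 t ht
      simp only [Dm]
      exact hF3 y0 y1 t (DmB_KK_mono (hmono j hj) ht)
  | cons q qs ih =>
    intro hq j hj
    simp only [List.length_cons] at hj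
    have hqs : ∀ q ∈ qs, q ∈ S ∧ Real.sqrt ‖1 - q 0‖ ≤ ρ := fun q' h' => hq q' (by simp [h'])
    obtain ⟨hqS, hqr⟩ := hq q (by simp)
    obtain ⟨ih0a, ih0b⟩ := ih hqs j (by omega)
    obtain ⟨ih1a, ih1b⟩ := ih hqs (j + 1) (by omega)
    have hj0 : (0 : ℝ) ≤ j := Nat.cast_nonneg j
    have hsm : 16 * ((j : ℝ) + 1) ^ 2 * ρ ^ 2 ≤ 1 / 8 := by
      have h := hmono (j + 1) (by omega)
      push_cast at h
      linarith
    have hcast : 16 * ((j + 1 : ℕ) : ℝ) ^ 2 * ρ ^ 2 = 16 * ((j : ℝ) + 1) ^ 2 * ρ ^ 2 := by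
      push_cast; ring
    rw [hcast] at ih1a ih1b
    set P := (qs.map (fun q => 2 * Real.sqrt ‖1 - q 0‖ / ρ)).prod with hP
    have hP0 : 0 ≤ P := by
      apply List.prod_nonneg
      intro a ha
      rw [List.mem_map] at ha
      obtain ⟨q', _, rfl⟩ := ha
      positivity
    have hone : ∀ y : Matrix (Fin 2) (Fin 2) ℂ, y + (1 : ℂ) • (y * (kq q - 1)) = y * kq q := by
      intro y
      rw [one_smul, mul_sub, mul_one]; abel
    have hgeo1 : ∀ y ∈ KK (16 * (j : ℝ) ^ 2 * ρ ^ 2),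
        y * kq q ∈ KK (16 * ((j : ℝ) + 1) ^ 2 * ρ ^ 2) := by
      intro y hy
      have h := DmB_geom j ρ hj0 hρ hsm y hy q hqS hqr 1 (by simpa using hqr)
      rwa [hone y] at h
    have hKKm : KK (16 * (j : ℝ) ^ 2 * ρ ^ 2) ⊆ KK (16 * ((j : ℝ) + 1) ^ 2 * ρ ^ 2) := by
      apply DmB_KK_mono
      gcongr
      linarith
    refine ⟨?_, ?_⟩
    · intro y hy
      simp only [Dm, List.map_cons, List.prod_cons]
      set r := Real.sqrt ‖1 - q 0‖ with hrdef
      have hr0 : 0 ≤ r := Real.sqrt_nonneg _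
      rcases hr0.eq_or_lt with hr | hr
      · have hk : kq q = 1 := by
          have h0 : ‖1 - q 0‖ = 0 := by
            have := Real.sq_sqrt (norm_nonneg (1 - q 0))
            rw [← hrdef, ← hr] at this
            simpa using this.symm
          have h1 : q 0 = 1 := by
            have := norm_eq_zero.1 h0
            exact (sub_eq_zero.1 this).symm
          have h2 : q 1 = 0 := by
            have hq1 : ‖q 0‖ ^ 2 + ‖q 1‖ ^ 2 = 1 := by
              rw [← norm_sq_eq]; have : ‖q‖ = 1 := hqS; simp [this]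
            rw [h1, norm_one] at hq1
            have : ‖q 1‖ ^ 2 = 0 := by linarith
            simpa using this
          have : q = e1 := E2_ext (by simp [h1]) (by simp [h2])
          rw [this, kq_e1]
        rw [hk, mul_one, sub_self, norm_zero]
        positivity
      · have hB0 : 0 ≤ A * P := mul_nonneg hA hP0
        rcases hqr.eq_or_lt with hrr | hrr
        · have h1 := ih1a y (hKKm hy)
          have h2 := ih1a (y * kq q) (hgeo1 y hy)
          have h3 : 2 * r / ρ = 2 := by rw [hrr]; field_simp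
          rw [h3]
          calc _ ≤ ‖Dm F qs y‖ + ‖Dm F qs (y * kq q)‖ := norm_sub_le _ _
            _ ≤ _ := by linarith
        · set ψ : ℂ → ℂ := fun t => Dm F qs (y + t • (y * (kq q - 1))) with hψ
          have hball : ∀ t ∈ Metric.ball (0 : ℂ) (ρ / r),
              y + t • (y * (kq q - 1)) ∈ KK (16 * ((j : ℝ) + 1) ^ 2 * ρ ^ 2) := by
            intro t ht
            rw [mem_ball_zero_iff] at ht
            apply DmB_geom j ρ hj0 hρ hsm y hy q hqS hqr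
            have := (lt_div_iff₀ hr).1 ht
            exact this.le
          have hd : DifferentiableOn ℂ ψ (Metric.ball 0 (ρ / r)) := by
            intro t ht
            exact (ih1b y _ t (hball t ht)).differentiableWithinAt
          have h0 : ψ 0 = Dm F qs y := by simp [hψ]
          have h1 : ψ 1 = Dm F qs (y * kq q) := by
            simp only [hψ]; rw [hone y]
          have hmaps : Set.MapsTo ψ (Metric.ball 0 (ρ / r))
              (Metric.closedBall (ψ 0) (2 * (A * P))) := by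
            intro t ht
            rw [Metric.mem_closedBall, dist_eq_norm]
            have h2 : ‖ψ t‖ ≤ A * P := ih1a _ (hball t ht)
            have h3 : ‖ψ 0‖ ≤ A * P := by rw [h0]; exact ih1a y (hKKm hy)
            calc _ ≤ ‖ψ t‖ + ‖ψ 0‖ := norm_sub_le _ _
              _ ≤ _ := by linarith
          have h1mem : (1 : ℂ) ∈ Metric.ball (0 : ℂ) (ρ / r) := by
            rw [mem_ball_zero_iff, norm_one, lt_div_iff₀ hr, one_mul]
            exact hrr
          have hs := Complex.dist_le_div_mul_dist_of_mapsTo_ball hd hmaps h1mem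
          rw [h0, h1, dist_comm, dist_eq_norm] at hs
          simp only [dist_zero_right, norm_one, mul_one] at hs
          calc _ ≤ _ := hs
            _ = A * (2 * r / ρ * P) := by field_simp
    · intro y0 y1 t ht
      simp only [Dm]
      refine (ih0b y0 y1 t ht).sub ?_
      have h1 : ∀ s : ℂ, (y0 + s • y1) * kq q = y0 * kq q + s • (y1 * kq q) := by
        intro s; rw [add_mul, smul_mul_assoc]
      simp only [h1]
      apply ih1b
      rw [← h1]
      exact hgeo1 _ ht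

theorem Dm_bound (n : ℕ) (ρ x A : ℝ) (hρ : 0 < ρ) (hx : x = 16 * n ^ 2 * ρ ^ 2)
    (hx' : x ≤ 1 / 8) (hA : 0 ≤ A) (F : Matrix (Fin 2) (Fin 2) ℂ → ℂ)
    (hF2 : ∀ y ∈ KK x, ‖F y‖ ≤ A)
    (hF3 : ∀ y0 y1 : Matrix (Fin 2) (Fin 2) ℂ, ∀ t : ℂ, y0 + t • y1 ∈ KK x →
      DifferentiableAt ℂ (fun s : ℂ => F (y0 + s • y1)) t)
    (qs : List E2) (hl : qs.length ≤ n)
    (hq : ∀ q ∈ qs, q ∈ S ∧ Real.sqrt ‖1 - q 0‖ ≤ ρ) :
    ‖Dm F qs 1‖ ≤ A * (qs.map (fun q => 2 * Real.sqrt ‖1 - q 0‖ / ρ)).prod := by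
  have h := (DmB_main n ρ x A hρ hx hx' hA F hF2 hF3 qs hq 0 (by simpa using hl)).1 1
  apply h
  simp [KK]

end Pool.Agent.BM

end

section

/-! Elementary properties of the iterates of Dop. -/

set_option autoImplicit false

open MeasureTheory Complex

namespace Pool.Agent.BM

theorem db_ae_mem (κ : Measure E2) (hκ : κ Sᶜ = 0) : ∀ᵐ q ∂κ, q ∈ S := by
  rw [ae_iff]
  exact hκ

theorem db_meas_comp (u : E2 → ℝ) (hu : Measurable u) :
    Measurable fun x : E2 × E2 => u (act x.1 x.2) :=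
  hu.comp continuous_act2.measurable

theorem db_meas_act (u : E2 → ℝ) (hu : Measurable u) (z : E2) :
    Measurable fun q : E2 => u (act z q) :=
  hu.comp (continuous_act z).measurable

theorem db_Top_meas (κ : Measure E2) (hκ1 : IsProbabilityMeasure κ)
    (u : E2 → ℝ) (hu : Measurable u) : Measurable (Top κ u) := by
  have h : StronglyMeasurable (Function.uncurry fun z q : E2 => u (act z q)) :=
    (db_meas_comp u hu).stronglyMeasurable
  exact (h.integral_prod_right (ν := κ)).measurable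

theorem db_integrable (κ : Measure E2) (hκ1 : IsProbabilityMeasure κ) (hκ : κ Sᶜ = 0)
    (u : E2 → ℝ) (hu : Measurable u) (A : ℝ) (huA : ∀ z ∈ S, |u z| ≤ A) (z : E2) (hz : z ∈ S) :
    Integrable (fun q => u (act z q)) κ := by
  refine Integrable.of_bound (db_meas_act u hu z).aestronglyMeasurable A ?_
  filter_upwards [db_ae_mem κ hκ] with q hq
  exact huA _ (act_mem_S hz hq)

theorem db_Top_bound (κ : Measure E2) (hκ1 : IsProbabilityMeasure κ) (hκ : κ Sᶜ = 0)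
    (u : E2 → ℝ) (A : ℝ) (huA : ∀ z ∈ S, |u z| ≤ A) (z : E2) (hz : z ∈ S) :
    |Top κ u z| ≤ A := by
  have h : ∀ᵐ q ∂κ, ‖u (act z q)‖ ≤ A := by
    filter_upwards [db_ae_mem κ hκ] with q hq
    exact huA _ (act_mem_S hz hq)
  have := norm_integral_le_of_norm_le_const h
  simpa [Top] using this

theorem Dop_meas (κ : Measure E2) (hκ1 : IsProbabilityMeasure κ) (n : ℕ)
    (u : E2 → ℝ) (hu : Measurable u) : Measurable ((Dop κ)^[n] u) := by
  induction n with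
  | zero => exact hu
  | succ n ih =>
    rw [Function.iterate_succ_apply']
    exact ih.sub (db_Top_meas κ hκ1 _ ih)

theorem Dop_bound (κ : Measure E2) (hκ1 : IsProbabilityMeasure κ) (hκ : κ Sᶜ = 0) (n : ℕ)
    (u : E2 → ℝ) (hu : Measurable u) (A : ℝ) (huA : ∀ z ∈ S, |u z| ≤ A) :
    ∀ z ∈ S, |((Dop κ)^[n] u) z| ≤ 2 ^ n * A := by
  induction n with
  | zero => simpa using huA
  | succ n ih =>
    intro z hz
    rw [Function.iterate_succ_apply']
    have h1 := ih z hz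
    have h2 := db_Top_bound κ hκ1 hκ _ _ ih z hz
    calc |Dop κ ((Dop κ)^[n] u) z| ≤ |((Dop κ)^[n] u) z| + |Top κ ((Dop κ)^[n] u) z| :=
          abs_sub _ _
      _ ≤ 2 ^ n * A + 2 ^ n * A := add_le_add h1 h2
      _ = 2 ^ (n + 1) * A := by ring

theorem db_Top_congr (κ : Measure E2) (hκ : κ Sᶜ = 0)
    (u v : E2 → ℝ) (huv : ∀ z ∈ S, u z = v z) (z : E2) (hz : z ∈ S) :
    Top κ u z = Top κ v z := by
  refine integral_congr_ae ?_
  filter_upwards [db_ae_mem κ hκ] with q hq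
  exact huv _ (act_mem_S hz hq)

theorem Dop_congr (κ : Measure E2) (hκ : κ Sᶜ = 0) (n : ℕ)
    (u v : E2 → ℝ) (huv : ∀ z ∈ S, u z = v z) :
    ∀ z ∈ S, ((Dop κ)^[n] u) z = ((Dop κ)^[n] v) z := by
  induction n with
  | zero => simpa using huv
  | succ n ih =>
    intro z hz
    rw [Function.iterate_succ_apply', Function.iterate_succ_apply']
    show ((Dop κ)^[n] u) z - Top κ ((Dop κ)^[n] u) z =
      ((Dop κ)^[n] v) z - Top κ ((Dop κ)^[n] v) z
    rw [db_Top_congr κ hκ _ _ ih z hz, ih z hz]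

theorem Dop_linear (κ : Measure E2) (hκ1 : IsProbabilityMeasure κ) (hκ : κ Sᶜ = 0) (n : ℕ)
    (u v : E2 → ℝ) (hu : Measurable u) (hv : Measurable v) (A : ℝ)
    (huA : ∀ z ∈ S, |u z| ≤ A) (hvA : ∀ z ∈ S, |v z| ≤ A) (a b : ℝ) :
    ∀ z ∈ S, ((Dop κ)^[n] (fun z => a * u z + b * v z)) z =
      a * ((Dop κ)^[n] u) z + b * ((Dop κ)^[n] v) z := by
  induction n with
  | zero => intro z _; rfl
  | succ n ih =>
    intro z hz
    rw [Function.iterate_succ_apply', Function.iterate_succ_apply', Function.iterate_succ_apply']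
    have h1 : Top κ ((Dop κ)^[n] (fun z => a * u z + b * v z)) z =
        a * Top κ ((Dop κ)^[n] u) z + b * Top κ ((Dop κ)^[n] v) z := by
      rw [db_Top_congr κ hκ _ (fun z => a * ((Dop κ)^[n] u) z + b * ((Dop κ)^[n] v) z) ih z hz]
      have i1 := db_integrable κ hκ1 hκ _ (Dop_meas κ hκ1 n u hu) _
        (Dop_bound κ hκ1 hκ n u hu A huA) z hz
      have i2 := db_integrable κ hκ1 hκ _ (Dop_meas κ hκ1 n v hv) _
        (Dop_bound κ hκ1 hκ n v hv A hvA) z hz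
      unfold Top
      rw [integral_add (i1.const_mul a) (i2.const_mul b), integral_const_mul, integral_const_mul]
    have h2 := ih z hz
    show ((Dop κ)^[n] (fun z => a * u z + b * v z)) z -
      Top κ ((Dop κ)^[n] (fun z => a * u z + b * v z)) z =
      a * (((Dop κ)^[n] u) z - Top κ ((Dop κ)^[n] u) z) +
      b * (((Dop κ)^[n] v) z - Top κ ((Dop κ)^[n] v) z)
    rw [h1, h2]
    ring

theorem Dop_const (κ : Measure E2) (hκ1 : IsProbabilityMeasure κ) (hκ : κ Sᶜ = 0) (n : ℕ)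
    (hn : 1 ≤ n) (u : E2 → ℝ) (hu : Measurable u) (A : ℝ) (huA : ∀ z ∈ S, |u z| ≤ A) (a : ℝ) :
    ∀ z ∈ S, ((Dop κ)^[n] (fun z => u z - a)) z = ((Dop κ)^[n] u) z := by
  obtain ⟨m, rfl⟩ : ∃ m, n = m + 1 := ⟨n - 1, by omega⟩
  intro z hz
  rw [Function.iterate_succ_apply, Function.iterate_succ_apply]
  refine Dop_congr κ hκ m _ _ ?_ z hz
  intro y hy
  have h1 : Top κ (fun z => u z - a) y = Top κ u y - a := by
    unfold Top
    rw [integral_sub (db_integrable κ hκ1 hκ u hu A huA y hy) (integrable_const a)]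
    simp
  show u y - a - Top κ (fun z => u z - a) y = u y - Top κ u y
  rw [h1]
  ring

theorem Top_neumann (κ : Measure E2) (hκ1 : IsProbabilityMeasure κ) (hκ : κ Sᶜ = 0) (n : ℕ)
    (u : E2 → ℝ) (hu : Measurable u) (A : ℝ) (huA : ∀ z ∈ S, |u z| ≤ A) :
    ∀ z ∈ S, Top κ (fun z => ∑ j ∈ Finset.range n, ((Dop κ)^[j] u) z) z =
      u z - ((Dop κ)^[n] u) z := by
  intro z hz
  have h1 : Top κ (fun z => ∑ j ∈ Finset.range n, ((Dop κ)^[j] u) z) z =
      ∑ j ∈ Finset.range n, Top κ ((Dop κ)^[j] u) z := by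
    unfold Top
    exact integral_finsetSum _ fun j _ => db_integrable κ hκ1 hκ _ (Dop_meas κ hκ1 j u hu) _
        (Dop_bound κ hκ1 hκ j u hu A huA) z hz
  have h2 : ∀ j ∈ Finset.range n, Top κ ((Dop κ)^[j] u) z =
      ((Dop κ)^[j] u) z - ((Dop κ)^[j + 1] u) z := by
    intro j _
    rw [Function.iterate_succ_apply']
    simp only [Dop]
    ring
  rw [h1, Finset.sum_congr rfl h2, Finset.sum_range_sub' (fun j => ((Dop κ)^[j] u) z) n]
  rfl

end Pool.Agent.BM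

end

section

/-! B1: dyadic integral bound. -/

set_option autoImplicit false

open MeasureTheory Complex

namespace Pool.Agent.BM

theorem IntDl_cont (z : E2) : Continuous (fun p : E2 => dl z p) := by
  unfold dl
  exact (continuous_const.sub (continuous_id.inner continuous_const)).norm

theorem IntDl_meas (z : E2) : Measurable (fun p : E2 => dl z p) :=
  (IntDl_cont z).measurable

theorem IntDl_set (σ : Measure E2) (c C : ℝ) (hσ : Good σ c C) (M : ℝ) (hM : 1 ≤ M) (z : E2)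
    (hz : z ∈ Bt (1 / M)) (j : ℕ) :
    σ.real {p | M * dl z p ≤ 2 ^ j} ≤ 144 * C * 4 ^ j / M ^ 2 := by
  have hprob : IsProbabilityMeasure σ := hσ.prob
  have hM0 : 0 < M := by linarith
  have hC := hσ.Cpos
  have hSc : σ.real Sᶜ = 0 := by
    rw [measureReal_def, hσ.supp]; rfl
  have hsub : σ.real {p | M * dl z p ≤ 2 ^ j} ≤ σ.real ({p | M * dl z p ≤ 2 ^ j} ∩ S) := by
    calc _ ≤ σ.real (({p | M * dl z p ≤ 2 ^ j} ∩ S) ∪ Sᶜ) := by
          apply measureReal_mono _ (measure_ne_top _ _)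
          intro p hp
          by_cases h : p ∈ S
          · exact Or.inl ⟨hp, h⟩
          · exact Or.inr h
      _ ≤ _ := by
          refine (measureReal_union_le _ _).trans ?_
          rw [hSc, add_zero]
  by_cases hne : ({p | M * dl z p ≤ 2 ^ j} ∩ S).Nonempty
  · obtain ⟨p', hp', hp'S⟩ := hne
    have hp'2 : M * dl z p' ≤ 2 ^ j := hp'
    have h2 := hσ.upper p' hp'S (12 * 2 ^ j / M) (by positivity)
    refine hsub.trans ?_
    calc _ ≤ σ.real {q | dl q p' ≤ 12 * 2 ^ j / M} := by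
          apply measureReal_mono _ (measure_ne_top _ _)
          rintro q ⟨hq, hqS⟩
          have hq2 : M * dl z q ≤ 2 ^ j := hq
          show dl q p' ≤ 12 * 2 ^ j / M
          have h3 := dl_quasi q p' z hqS hp'S (1 / M) (by positivity) (le_of_lt hz)
          have h4 : dl z q ≤ 2 ^ j / M := by rw [le_div_iff₀ hM0]; linarith
          have h5 : dl z p' ≤ 2 ^ j / M := by rw [le_div_iff₀ hM0]; linarith
          have h6 : 1 / M ≤ 2 ^ j / M := by
            gcongr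
            exact one_le_pow₀ (by norm_num)
          calc _ ≤ _ := h3
            _ ≤ 4 * (2 ^ j / M + 2 ^ j / M + 2 ^ j / M) := by gcongr
            _ = _ := by ring
      _ ≤ _ := h2
      _ = _ := by
          have : (4 : ℝ) ^ j = (2 ^ j) ^ 2 := by
            rw [← pow_mul, mul_comm, pow_mul]; norm_num
          rw [this]
          ring
  · rw [Set.not_nonempty_iff_eq_empty] at hne
    rw [hne] at hsub
    refine hsub.trans ?_
    simp only [measureReal_empty]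
    positivity

theorem int_dl_bound (σ : Measure E2) (c C : ℝ) (hσ : Good σ c C) :
    ∃ CB : ℝ, 0 < CB ∧ ∀ M : ℝ, 1 ≤ M → ∀ z ∈ Bt (1 / M),
      ∫ p, ((1 + M * dl z p) ^ 3)⁻¹ ∂σ ≤ CB / M ^ 2 := by
  have hprob : IsProbabilityMeasure σ := hσ.prob
  have hC := hσ.Cpos
  refine ⟨2305 * C, by positivity, ?_⟩
  intro M hM z hz
  have hM0 : 0 < M := by linarith
  obtain ⟨J, hJ⟩ := exists_pow_lt_of_lt_one (x := C / M ^ 2 / 8) (y := (1 / 8 : ℝ))
    (by positivity) (by norm_num)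
  set Aset : ℕ → Set E2 := fun j => {p | M * dl z p ≤ 2 ^ j} with hAset
  have hAmeas : ∀ j, MeasurableSet (Aset j) := by
    intro j
    exact measurableSet_le ((IntDl_meas z).const_mul M) measurable_const
  have hpt : ∀ J : ℕ, ∀ p : E2, ((1 + M * dl z p) ^ 3)⁻¹ ≤
      ∑ j ∈ Finset.range J, 8 * (1 / 8 : ℝ) ^ j * (Aset j).indicator (fun _ => (1 : ℝ)) p +
        8 * (1 / 8 : ℝ) ^ J := by
    intro J p
    have hx0 : 0 ≤ M * dl z p := mul_nonneg hM0.le (dl_nonneg z p)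
    induction J with
    | zero =>
      simp only [Finset.range_zero, Finset.sum_empty, pow_zero, mul_one, zero_add]
      have h1 : (1 : ℝ) ≤ (1 + M * dl z p) ^ 3 := one_le_pow₀ (by linarith)
      have h2 := inv_le_one_of_one_le₀ h1
      linarith
    | succ J ih =>
      rw [Finset.sum_range_succ]
      by_cases h : M * dl z p ≤ 2 ^ J
      · have h1 : (Aset J).indicator (fun _ => (1 : ℝ)) p = 1 := by
          rw [Set.indicator_of_mem]; exact h
        rw [h1]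
        have h2 : 0 ≤ 8 * (1 / 8 : ℝ) ^ (J + 1) := by positivity
        linarith
      · push Not at h
        have h1 : 0 ≤ ∑ j ∈ Finset.range J, 8 * (1 / 8 : ℝ) ^ j *
            (Aset j).indicator (fun _ => (1 : ℝ)) p := by
          apply Finset.sum_nonneg
          intro j _
          have : 0 ≤ (Aset j).indicator (fun _ => (1 : ℝ)) p :=
            Set.indicator_nonneg (fun _ _ => zero_le_one) p
          positivity
        have h2 : 0 ≤ (Aset J).indicator (fun _ => (1 : ℝ)) p :=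
            Set.indicator_nonneg (fun _ _ => zero_le_one) p
        have h3 : ((1 + M * dl z p) ^ 3)⁻¹ ≤ 8 * (1 / 8 : ℝ) ^ (J + 1) := by
          have h4 : (2 : ℝ) ^ J ≤ 1 + M * dl z p := by linarith
          calc ((1 + M * dl z p) ^ 3)⁻¹ ≤ (((2 : ℝ) ^ J) ^ 3)⁻¹ := by gcongr
            _ = 8 * (1 / 8 : ℝ) ^ (J + 1) := by
                rw [← pow_mul, mul_comm J 3, pow_mul]
                norm_num
                rw [pow_succ, one_div, inv_pow]
                ring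
        have h5 : 0 ≤ 8 * (1 / 8 : ℝ) ^ J := by positivity
        have h6 := mul_nonneg h5 h2
        linarith
  have hint : ∀ j, Integrable (fun p => 8 * (1 / 8 : ℝ) ^ j *
      (Aset j).indicator (fun _ => (1 : ℝ)) p) σ := by
    intro j
    exact ((integrable_const (1 : ℝ)).indicator (hAmeas j)).const_mul _
  have hintS : Integrable (fun p => ∑ j ∈ Finset.range J, 8 * (1 / 8 : ℝ) ^ j *
      (Aset j).indicator (fun _ => (1 : ℝ)) p) σ :=
    integrable_finsetSum _ (fun j _ => hint j)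
  have hbound : ∫ p, ((1 + M * dl z p) ^ 3)⁻¹ ∂σ ≤
      ∫ p, (∑ j ∈ Finset.range J, 8 * (1 / 8 : ℝ) ^ j *
        (Aset j).indicator (fun _ => (1 : ℝ)) p + 8 * (1 / 8 : ℝ) ^ J) ∂σ := by
    apply integral_mono_of_nonneg
    · refine Filter.Eventually.of_forall fun p => ?_
      have := dl_nonneg z p
      simp only [Pi.zero_apply]
      positivity
    · exact hintS.add (integrable_const _)
    · exact Filter.Eventually.of_forall fun p => hpt J p
  refine hbound.trans ?_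
  rw [integral_add hintS (integrable_const _), integral_finsetSum _ (fun j _ => hint j)]
  have hval : ∀ j, ∫ p, 8 * (1 / 8 : ℝ) ^ j * (Aset j).indicator (fun _ => (1 : ℝ)) p ∂σ =
      8 * (1 / 8 : ℝ) ^ j * σ.real (Aset j) := by
    intro j
    rw [integral_const_mul, integral_indicator_const _ (hAmeas j)]
    simp
  have hsum : ∑ j ∈ Finset.range J, ∫ p, 8 * (1 / 8 : ℝ) ^ j *
      (Aset j).indicator (fun _ => (1 : ℝ)) p ∂σ ≤ 2304 * C / M ^ 2 := by
    calc _ = ∑ j ∈ Finset.range J, 8 * (1 / 8 : ℝ) ^ j * σ.real (Aset j) := by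
          apply Finset.sum_congr rfl
          intro j _
          exact hval j
      _ ≤ ∑ j ∈ Finset.range J, 8 * (1 / 8 : ℝ) ^ j * (144 * C * 4 ^ j / M ^ 2) := by
          apply Finset.sum_le_sum
          intro j _
          have := IntDl_set σ c C hσ M hM z hz j
          gcongr
      _ = 1152 * C / M ^ 2 * ∑ j ∈ Finset.range J, (1 / 2 : ℝ) ^ j := by
          rw [Finset.mul_sum]
          apply Finset.sum_congr rfl
          intro j _
          have : (1 / 8 : ℝ) ^ j * 4 ^ j = (1 / 2) ^ j := by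
            rw [← mul_pow]; norm_num
          rw [← this]; ring
      _ ≤ 1152 * C / M ^ 2 * 2 := by
          gcongr
          exact sum_geometric_two_le J
      _ = _ := by ring
  have hlast : ∫ _p, 8 * (1 / 8 : ℝ) ^ J ∂σ ≤ C / M ^ 2 := by
    rw [integral_const]
    simp only [probReal_univ, smul_eq_mul, one_mul]
    have : (C / M ^ 2 / 8) * 8 = C / M ^ 2 := by ring
    linarith
  calc _ ≤ 2304 * C / M ^ 2 + C / M ^ 2 := add_le_add hsum hlast
    _ = _ := by ring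

end Pool.Agent.BM

end

section

/-! Basic facts on the weight wt, the constant CM, the measure kap (auxiliary version: the
integral bound is a hypothesis). -/

set_option autoImplicit false

open MeasureTheory Complex

namespace Pool.Agent.BM

theorem kap_norm_zero_le {q : E2} (hq : q ∈ S) : ‖q 0‖ ≤ 1 := by
  have h := norm_sq_eq q
  have hq1 : ‖q‖ = 1 := hq
  rw [hq1] at h
  have h0 := sq_nonneg ‖q 1‖
  have h1 := norm_nonneg (q 0)
  nlinarith

theorem kap_den_ge {q : E2} (hq : q ∈ S) {M : ℝ} (hM : 0 ≤ M) :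
    1 ≤ ‖1 + (M : ℂ) * (1 - q 0)‖ := by
  have h1 : (1 + (M : ℂ) * (1 - q 0)).re ≤ ‖1 + (M : ℂ) * (1 - q 0)‖ := Complex.re_le_norm _
  have h2 : (1 + (M : ℂ) * (1 - q 0)).re = 1 + M * (1 - (q 0).re) := by simp
  have h3 : (q 0).re ≤ 1 := (Complex.re_le_norm _).trans (kap_norm_zero_le hq)
  have h4 : 0 ≤ M * (1 - (q 0).re) := mul_nonneg hM (by linarith)
  linarith

theorem kap_den_le {q : E2} {M : ℝ} (hM : 0 ≤ M) :
    ‖1 + (M : ℂ) * (1 - q 0)‖ ≤ 1 + M * dl q e1 := by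
  have h := den_upper hM e1 q
  have h2 : (inner ℂ e1 q : ℂ) = q 0 := by rw [inner_eq]; simp
  rwa [h2] at h

theorem kap_continuous_dl_left (z : E2) : Continuous fun p : E2 => dl z p := by
  unfold dl
  exact (continuous_const.sub (continuous_id.inner continuous_const)).norm

theorem kap_continuous_dl_right (p : E2) : Continuous fun z : E2 => dl z p := by
  unfold dl
  exact (continuous_const.sub (continuous_const.inner continuous_id)).norm

theorem kap_wt_nonneg (K : ℕ) (M : ℝ) (q : E2) : 0 ≤ wt K M q := by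
  unfold wt; positivity

theorem kap_wt_pos {K : ℕ} {M : ℝ} (hM : 0 ≤ M) {q : E2} (hq : q ∈ S) : 0 < wt K M q := by
  unfold wt
  have := kap_den_ge hq hM
  positivity

theorem kap_wt_le_one {K : ℕ} {M : ℝ} (hM : 0 ≤ M) {q : E2} (hq : q ∈ S) : wt K M q ≤ 1 := by
  unfold wt
  have h := kap_den_ge hq hM
  exact inv_le_one_of_one_le₀ (one_le_pow₀ h)

theorem kap_wt_measurable (K : ℕ) (M : ℝ) : Measurable (wt K M) := by
  unfold wt
  have h : Continuous fun q : E2 => ‖1 + (M : ℂ) * (1 - q 0)‖ ^ (2 * K) :=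
    (continuous_const.add (continuous_const.mul
      (continuous_const.sub (continuous_coord 0)))).norm.pow _
  exact h.measurable.inv

theorem kap_ae_S {σ : Measure E2} {c C : ℝ} (hσ : Good σ c C) : ∀ᵐ q ∂σ, q ∈ S := by
  rw [ae_iff]
  exact hσ.supp

theorem kap_wt_integrable {σ : Measure E2} {c C : ℝ} (hσ : Good σ c C) (K : ℕ) {M : ℝ}
    (hM : 0 ≤ M) : Integrable (wt K M) σ := by
  have := hσ.prob
  refine Integrable.of_bound (kap_wt_measurable K M).aestronglyMeasurable 1 ?_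
  filter_upwards [kap_ae_S hσ] with q hq
  rw [Real.norm_of_nonneg (kap_wt_nonneg K M q)]
  exact kap_wt_le_one hM hq

theorem kap_dl_e1_le {q : E2} (hq : q ∈ S) : dl q e1 ≤ 2 := by
  rw [dl_e1]
  calc ‖1 - q 0‖ ≤ ‖(1 : ℂ)‖ + ‖q 0‖ := norm_sub_le _ _
    _ ≤ 2 := by
      have := kap_norm_zero_le hq
      simp; linarith

theorem kap_CM_pos {σ : Measure E2} {c C : ℝ} (hσ : Good σ c C) (K : ℕ) {M : ℝ}
    (hM : 0 ≤ M) : 0 < CM σ K M := by
  have := hσ.prob
  have h1 : ∀ᵐ q ∂σ, ((1 + M * 2) ^ (2 * K))⁻¹ ≤ wt K M q := by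
    filter_upwards [kap_ae_S hσ] with q hq
    unfold wt
    have h2 := kap_den_ge hq hM
    have h3 := kap_den_le (q := q) hM
    have h4 := kap_dl_e1_le hq
    have h5 : ‖1 + (M : ℂ) * (1 - q 0)‖ ≤ 1 + M * 2 := h3.trans (by gcongr)
    gcongr
  have h2 : ∫ _q, ((1 + M * 2) ^ (2 * K))⁻¹ ∂σ ≤ CM σ K M := by
    unfold CM
    exact integral_mono_ae (integrable_const _) (kap_wt_integrable hσ K hM) h1
  have h3 : 0 < ((1 + M * 2) ^ (2 * K))⁻¹ := by positivity
  rw [integral_const, smul_eq_mul] at h2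
  simp only [probReal_univ, one_mul] at h2
  exact lt_of_lt_of_le h3 h2

theorem kap_prob (σ : Measure E2) (c C : ℝ) (hσ : Good σ c C) (K : ℕ) (M : ℝ) (hM : 1 ≤ M) :
    IsProbabilityMeasure (kap σ K M) := by
  have hM0 : 0 ≤ M := by linarith
  constructor
  unfold kap
  rw [withDensity_apply _ MeasurableSet.univ, Measure.restrict_univ]
  have h1 : Integrable (fun q => wt K M q / CM σ K M) σ := (kap_wt_integrable hσ K hM0).div_const _
  have hC := kap_CM_pos hσ K hM0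
  rw [← ofReal_integral_eq_lintegral_ofReal h1
    (Filter.Eventually.of_forall fun q => div_nonneg (kap_wt_nonneg K M q) hC.le)]
  rw [integral_div]
  have : (∫ q, wt K M q ∂σ) = CM σ K M := rfl
  rw [this, div_self hC.ne']
  simp

theorem kap_supp (σ : Measure E2) (c C : ℝ) (hσ : Good σ c C) (K : ℕ) (M : ℝ) :
    kap σ K M Sᶜ = 0 := by
  unfold kap
  exact withDensity_absolutelyContinuous _ _ hσ.supp

theorem kap_integral (σ : Measure E2) (c C : ℝ) (hσ : Good σ c C) (K : ℕ) (M : ℝ) (hM : 1 ≤ M)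
    (f : E2 → ℝ) :
    ∫ q, f q ∂(kap σ K M) = (CM σ K M)⁻¹ * ∫ q, f q * wt K M q ∂σ := by
  have hM0 : 0 ≤ M := by linarith
  have hC := kap_CM_pos hσ K hM0
  unfold kap
  rw [integral_withDensity_eq_integral_toReal_smul]
  · rw [← integral_const_mul]
    congr 1
    ext q
    rw [ENNReal.toReal_ofReal (div_nonneg (kap_wt_nonneg K M q) hC.le), smul_eq_mul]
    ring
  · exact ((kap_wt_measurable K M).div_const _).ennreal_ofReal
  · exact Filter.Eventually.of_forall fun q => ENNReal.ofReal_lt_top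

theorem Top_kap (σ : Measure E2) (c C : ℝ) (hσ : Good σ c C) (K : ℕ) (M : ℝ) (hM : 1 ≤ M)
    (E : E2 → ℝ) (hE : Measurable E) (z : E2) (hz : z ∈ S) :
    Top (kap σ K M) E z = (CM σ K M)⁻¹ * ∫ p, E p * ‖pk K M p z‖ ^ 2 ∂σ := by
  unfold Top
  rw [kap_integral σ c C hσ K M hM]
  congr 1
  have h1 : (∫ p, E p * ‖pk K M p z‖ ^ 2 ∂σ) = ∫ p, E p * ‖pk K M p z‖ ^ 2 ∂(σ.map (act z)) := by
    rw [hσ.inv z hz]
  rw [h1, integral_map]
  · congr 1
    ext q
    rw [pk_act z q hz]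
  · exact (continuous_act z).measurable.aemeasurable
  · have h2 : Measurable fun p : E2 => ‖pk K M p z‖ ^ 2 := by
      have h3 : Continuous fun p : E2 => ‖1 + (M : ℂ) * (1 - inner ℂ p z)‖ ^ K :=
        (continuous_const.add (continuous_const.mul
          (continuous_const.sub (continuous_id.inner continuous_const)))).norm.pow _
      have h4 : (fun p : E2 => ‖pk K M p z‖ ^ 2) =
          fun p : E2 => ((‖1 + (M : ℂ) * (1 - inner ℂ p z)‖ ^ K)⁻¹) ^ 2 := by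
        ext p; rw [pk_norm]
      rw [h4]
      exact h3.measurable.inv.pow_const 2
    exact (hE.mul h2).aestronglyMeasurable

/-- pointwise upper bound for the weight -/
theorem kap_wt_le {K : ℕ} {M : ℝ} (hM : 1 ≤ M) {q : E2} (hq : q ∈ S) :
    wt K M q ≤ 6 ^ (2 * K) * ((1 + M * dl q e1) ^ (2 * K))⁻¹ := by
  have hM0 : 0 < M := by linarith
  have h1 := den_lower hM e1_mem_S (S_subset_Bt (by positivity : (0 : ℝ) < 1 / M) hq)
  have h2 : (inner ℂ e1 q : ℂ) = q 0 := by rw [inner_eq]; simp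
  rw [h2] at h1
  unfold wt
  have h3 : 0 < 1 + M * dl q e1 := by
    have := dl_nonneg q e1
    positivity
  calc (‖1 + (M : ℂ) * (1 - q 0)‖ ^ (2 * K))⁻¹ ≤ (((1 + M * dl q e1) / 6) ^ (2 * K))⁻¹ := by
        gcongr
    _ = 6 ^ (2 * K) * ((1 + M * dl q e1) ^ (2 * K))⁻¹ := by
        rw [div_pow, inv_div]; ring

theorem kap_cube_integrable {σ : Measure E2} {c C : ℝ} (hσ : Good σ c C) {M : ℝ} (hM : 0 ≤ M) :
    Integrable (fun p => ((1 + M * dl e1 p) ^ 3)⁻¹) σ := by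
  have := hσ.prob
  have hc : Continuous fun p : E2 => (1 + M * dl e1 p) ^ 3 := by
    exact (continuous_const.add (continuous_const.mul (kap_continuous_dl_left e1))).pow 3
  refine Integrable.of_bound hc.measurable.inv.aestronglyMeasurable 1 ?_
  refine Filter.Eventually.of_forall fun p => ?_
  have h0 := dl_nonneg e1 p
  have h1 : 1 ≤ 1 + M * dl e1 p := by
    have := mul_nonneg hM h0
    linarith
  rw [Real.norm_of_nonneg (by positivity)]
  exact inv_le_one_of_one_le₀ (one_le_pow₀ h1)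

theorem CM_lower (σ : Measure E2) (c C : ℝ) (hσ : Good σ c C) (K : ℕ) (M : ℝ) (hM : 1 ≤ M) :
    (c * (2 ^ (2 * K))⁻¹) / M ^ 2 ≤ CM σ K M := by
  have := hσ.prob
  have hM0 : 0 < M := by linarith
  have h1 := hσ.lower e1 e1_mem_S (1 / M) (by positivity) (by rw [div_le_one hM0]; exact hM)
  set A : Set E2 := {q | dl q e1 ≤ 1 / M} with hA
  have hAm : MeasurableSet A := by
    exact measurableSet_le (kap_continuous_dl_right e1).measurable measurable_const
  have h2 : ∫ q in A, (2 ^ (2 * K))⁻¹ ∂σ ≤ ∫ q in A, wt K M q ∂σ := by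
    refine setIntegral_mono_on_ae (integrable_const _).integrableOn
      (kap_wt_integrable hσ K hM0.le).integrableOn hAm ?_
    filter_upwards [kap_ae_S hσ] with q hq hqA
    unfold wt
    have h3 := kap_den_ge hq hM0.le
    have h4 := kap_den_le (q := q) hM0.le
    have h5 : dl q e1 ≤ 1 / M := hqA
    have h6 : ‖1 + (M : ℂ) * (1 - q 0)‖ ≤ 2 := by
      calc ‖1 + (M : ℂ) * (1 - q 0)‖ ≤ 1 + M * dl q e1 := h4
        _ ≤ 1 + M * (1 / M) := by gcongr
        _ = 2 := by field_simp; norm_num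
    gcongr
  have h3 : ∫ q in A, wt K M q ∂σ ≤ CM σ K M := by
    unfold CM
    exact setIntegral_le_integral (kap_wt_integrable hσ K hM0.le)
      (Filter.Eventually.of_forall fun q => kap_wt_nonneg K M q)
  rw [setIntegral_const, smul_eq_mul] at h2
  have h4 : (c * (2 ^ (2 * K))⁻¹) / M ^ 2 = (c * (1 / M) ^ 2) * (2 ^ (2 * K))⁻¹ := by
    field_simp
  rw [h4]
  refine le_trans ?_ (h2.trans h3)
  gcongr

theorem CM_upper_aux (σ : Measure E2) (c C : ℝ) (hσ : Good σ c C) (K : ℕ) (hK : 2 ≤ K)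
    (CB : ℝ) (M : ℝ) (hM : 1 ≤ M)
    (hB : ∫ p, ((1 + M * dl e1 p) ^ 3)⁻¹ ∂σ ≤ CB / M ^ 2) :
    CM σ K M ≤ (6 ^ (2 * K) * CB) / M ^ 2 := by
  have hM0 : 0 < M := by linarith
  have h1 : CM σ K M ≤ ∫ q, 6 ^ (2 * K) * ((1 + M * dl e1 q) ^ 3)⁻¹ ∂σ := by
    unfold CM
    refine integral_mono_ae (kap_wt_integrable hσ K hM0.le)
      ((kap_cube_integrable hσ hM0.le).const_mul _) ?_
    filter_upwards [kap_ae_S hσ] with q hq
    refine (kap_wt_le hM hq).trans ?_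
    rw [dl_comm q e1]
    have h0 := dl_nonneg e1 q
    have h2 : 1 ≤ 1 + M * dl e1 q := by
      have := mul_nonneg hM0.le h0
      linarith
    have h3 : (1 + M * dl e1 q) ^ 3 ≤ (1 + M * dl e1 q) ^ (2 * K) :=
      pow_le_pow_right₀ h2 (by omega)
    gcongr
  rw [integral_const_mul] at h1
  refine h1.trans ?_
  rw [mul_div_assoc]
  gcongr

theorem CM_bounds_aux (σ : Measure E2) (c C : ℝ) (hσ : Good σ c C) (K : ℕ) (hK : 2 ≤ K)
    (hB : ∃ CB : ℝ, 0 < CB ∧ ∀ M : ℝ, 1 ≤ M → ∀ z ∈ Bt (1 / M),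
      ∫ p, ((1 + M * dl z p) ^ 3)⁻¹ ∂σ ≤ CB / M ^ 2) :
    ∃ c1 C1 : ℝ, 0 < c1 ∧ 0 < C1 ∧ ∀ M : ℝ, 1 ≤ M →
      c1 / M ^ 2 ≤ CM σ K M ∧ CM σ K M ≤ C1 / M ^ 2 := by
  obtain ⟨CB, hCB, hB⟩ := hB
  have hc := hσ.cpos
  refine ⟨c * (2 ^ (2 * K))⁻¹, 6 ^ (2 * K) * CB, by positivity, by positivity, fun M hM => ?_⟩
  have hM0 : 0 < M := by linarith
  exact ⟨CM_lower σ c C hσ K M hM, CM_upper_aux σ c C hσ K hK CB M hM
    (hB M hM e1 (S_subset_Bt (by positivity) e1_mem_S))⟩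

end Pool.Agent.BM

end

section

/-! Maximal separated nets and measurable cells. -/

set_option autoImplicit false

open MeasureTheory Complex

namespace Pool.Agent.BM

theorem net_cont_dl (p : E2) : Continuous fun q : E2 => dl q p := by
  unfold dl
  exact (continuous_const.sub (continuous_const.inner continuous_id)).norm

theorem net_meas_le (p : E2) (δ : ℝ) : MeasurableSet {q : E2 | dl q p ≤ δ} :=
  (isClosed_le (net_cont_dl p) continuous_const).measurableSet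

theorem net_meas_lt (p : E2) (δ : ℝ) : MeasurableSet {q : E2 | dl q p < δ} :=
  (isOpen_lt (net_cont_dl p) continuous_const).measurableSet

theorem net_real_inter (σ : Measure E2) (c C : ℝ) (hσ : Good σ c C) (A : Set E2) :
    σ.real (S ∩ A) = σ.real A := by
  have := hσ.prob
  have h1 : σ (S ∩ A) = σ A := by
    apply measure_congr
    have h2 : ∀ᵐ x ∂σ, x ∈ S := by
      rw [ae_iff]
      exact hσ.supp
    filter_upwards [h2] with x hx
    have h3 : (x ∈ S ∩ A) = (x ∈ A) := by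
      simp [hx]
    exact h3
  unfold Measure.real
  rw [h1]

/-- volume counting for separated families -/
theorem net_sep_sum (σ : Measure E2) (c C : ℝ) (hσ : Good σ c C) (δ : ℝ) (hδ : 0 < δ)
    (hδ1 : δ ≤ 1) {ι : Type*} (s : Finset ι) (p : ι → E2) (hp : ∀ i ∈ s, p i ∈ S)
    (hsep : ∀ i ∈ s, ∀ j ∈ s, i ≠ j → δ ≤ dl (p i) (p j)) (T : Set E2)
    (hT : ∀ i ∈ s, S ∩ {x | dl x (p i) ≤ δ / 16} ⊆ T) :
    (s.card : ℝ) * (c * (δ / 16) ^ 2) ≤ σ.real T := by
  have := hσ.prob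
  have hdis : (s : Set ι).PairwiseDisjoint fun i => S ∩ {x | dl x (p i) ≤ δ / 16} := by
    intro i hi j hj hij
    rw [Function.onFun, Set.disjoint_left]
    rintro x ⟨hxS, hxi⟩ ⟨-, hxj⟩
    change dl x (p i) ≤ δ / 16 at hxi
    change dl x (p j) ≤ δ / 16 at hxj
    have hx1 : ‖x‖ = 1 := hxS
    have h1 := dl_quasi (p i) (p j) x (hp i hi) (hp j hj) 0 le_rfl (by simp [hx1])
    have h2 := hsep i hi j hj hij
    linarith
  have h1 : σ.real (⋃ i ∈ s, S ∩ {x | dl x (p i) ≤ δ / 16}) =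
      ∑ i ∈ s, σ.real (S ∩ {x | dl x (p i) ≤ δ / 16}) :=
    measureReal_biUnion_finset hdis
      (fun i _ => isClosed_S.measurableSet.inter (net_meas_le _ _))
  have h2 : σ.real (⋃ i ∈ s, S ∩ {x | dl x (p i) ≤ δ / 16}) ≤ σ.real T := by
    exact measureReal_mono (Set.iUnion₂_subset hT) (measure_ne_top σ T)
  rw [h1] at h2
  refine le_trans ?_ h2
  rw [← nsmul_eq_mul]
  apply Finset.card_nsmul_le_sum
  intro i hi
  rw [net_real_inter σ c C hσ]
  exact hσ.lower (p i) (hp i hi) (δ / 16) (by positivity) (by linarith)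

theorem exists_net (σ : Measure E2) (c C : ℝ) (hσ : Good σ c C) (δ : ℝ) (hδ : 0 < δ)
    (hδ1 : δ ≤ 1) :
    ∃ (n : ℕ) (p : Fin n → E2) (Q : Fin n → Set E2), (∀ α, p α ∈ S) ∧
      (∀ α β, α ≠ β → δ ≤ dl (p α) (p β)) ∧ (∀ α, MeasurableSet (Q α)) ∧
      (∀ α, Q α ⊆ {q | q ∈ S ∧ dl q (p α) < δ}) ∧
      (Pairwise fun α β => Disjoint (Q α) (Q β)) ∧ (⋃ α, Q α) = S := by
  have := hσ.prob
  classical
  set P : ℕ → Prop := fun n => ∃ p : Fin n → E2, (∀ α, p α ∈ S) ∧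
    (∀ α β, α ≠ β → δ ≤ dl (p α) (p β)) with hP
  have hcpos := hσ.cpos
  have hc16 : 0 < c * (δ / 16) ^ 2 := by positivity
  have hbound : ∀ n, P n → n ≤ ⌈1 / (c * (δ / 16) ^ 2)⌉₊ := by
    rintro n ⟨p, hpS, hps⟩
    have h1 := net_sep_sum σ c C hσ δ hδ hδ1 (Finset.univ : Finset (Fin n)) p
      (fun i _ => hpS i) (fun i _ j _ hij => hps i j hij) Set.univ (fun i _ => Set.subset_univ _)
    rw [Finset.card_univ, Fintype.card_fin] at h1
    have h2 : σ.real Set.univ = 1 := by simp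
    rw [h2] at h1
    have h3 : (n : ℝ) ≤ 1 / (c * (δ / 16) ^ 2) := by
      rw [le_div_iff₀ hc16]; exact h1
    exact_mod_cast h3.trans (Nat.le_ceil _)
  set B := ⌈1 / (c * (δ / 16) ^ 2)⌉₊ with hB
  have hP0 : P 0 := ⟨fun α => α.elim0, fun α => α.elim0, fun α => α.elim0⟩
  set n := Nat.findGreatest P B with hn
  have hPn : P n := Nat.findGreatest_spec (Nat.zero_le _) hP0
  have hPn1 : ¬ P (n + 1) := by
    intro h
    exact Nat.findGreatest_is_greatest (Nat.lt_succ_self n) (hbound _ h) h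
  obtain ⟨p, hpS, hps⟩ := hPn
  have hcov : ∀ q ∈ S, ∃ α, dl q (p α) < δ := by
    intro q hq
    by_contra hcon
    push Not at hcon
    apply hPn1
    refine ⟨Fin.cons q p, ?_, ?_⟩
    · intro α
      refine Fin.cases ?_ ?_ α
      · simpa using hq
      · intro i; simpa using hpS i
    · intro α β
      refine Fin.cases ?_ ?_ α
      · refine Fin.cases ?_ ?_ β
        · intro h; exact absurd rfl h
        · intro i _
          simpa using hcon i
      · intro i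
        refine Fin.cases ?_ ?_ β
        · intro _
          simp only [Fin.cons_succ, Fin.cons_zero]
          rw [dl_comm]
          exact hcon i
        · intro j hij
          simp only [Fin.cons_succ]
          exact hps i j (fun h => hij (by rw [h]))
  refine ⟨n, p, fun α => S ∩ {q | dl q (p α) < δ} ∩ ⋂ β, ⋂ (_ : β < α), {q | dl q (p β) < δ}ᶜ,
    hpS, hps, ?_, ?_, ?_, ?_⟩
  · intro α
    refine (isClosed_S.measurableSet.inter (net_meas_lt _ _)).inter ?_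
    exact MeasurableSet.iInter fun β => MeasurableSet.iInter fun _ => (net_meas_lt _ _).compl
  · rintro α q ⟨⟨h1, h2⟩, -⟩
    exact ⟨h1, h2⟩
  · have key : ∀ α β : Fin n, α < β →
        Disjoint (S ∩ {q | dl q (p α) < δ} ∩ ⋂ β, ⋂ (_ : β < α), {q | dl q (p β) < δ}ᶜ)
        (S ∩ {q | dl q (p β) < δ} ∩ ⋂ γ, ⋂ (_ : γ < β), {q | dl q (p γ) < δ}ᶜ) := by
      intro α β hαβ
      rw [Set.disjoint_left]
      rintro q ⟨⟨-, h1⟩, -⟩ ⟨-, h2⟩
      simp only [Set.mem_iInter] at h2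
      exact h2 α hαβ h1
    intro α β hαβ
    rcases lt_or_gt_of_ne hαβ with h | h
    · exact key α β h
    · exact (key β α h).symm
  · ext q
    simp only [Set.mem_iUnion]
    constructor
    · rintro ⟨α, ⟨h1, -⟩, -⟩
      exact h1
    · intro hq
      obtain ⟨α0, hα0⟩ := hcov q hq
      have hne : (Finset.univ.filter fun α => dl q (p α) < δ).Nonempty := ⟨α0, by simp [hα0]⟩
      set α := (Finset.univ.filter fun α => dl q (p α) < δ).min' hne with hα
      have hα1 : α ∈ Finset.univ.filter fun α => dl q (p α) < δ := Finset.min'_mem _ hne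
      refine ⟨α, ⟨hq, (Finset.mem_filter.1 hα1).2⟩, ?_⟩
      simp only [Set.mem_iInter]
      intro β hβ hβ'
      have : α ≤ β := Finset.min'_le _ _ (by simpa using hβ')
      exact absurd hβ (not_lt.2 this)

end Pool.Agent.BM

end

section

/-! The off-diagonal part of the squared norm of a sum of packets. -/

set_option autoImplicit false

open MeasureTheory Complex

namespace Pool.Agent.BM

/-- expansion of the squared norm of a finite sum -/
private theorem off_expand {N n : ℕ} (x : Fin n → VN N) (T : ℝ) (y : Fin n → ℝ)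
    (hT : 0 ≤ T) (hy : ∀ α, 0 ≤ y α)
    (h : ∀ α β, α ≠ β → ‖(inner ℂ (x α) (x β) : ℂ)‖ ≤ T * (y α * y β)) :
    |‖∑ α, x α‖ ^ 2 - ∑ α, ‖x α‖ ^ 2| ≤ T * (∑ α, y α) ^ 2 := by
  classical
  have e1 : ((‖∑ α, x α‖ ^ 2 - ∑ α, ‖x α‖ ^ 2 : ℝ) : ℂ) =
      ∑ α, ∑ β ∈ Finset.univ.erase α, (inner ℂ (x α) (x β) : ℂ) := by
    have h1 : ((‖∑ α, x α‖ ^ 2 : ℝ) : ℂ) = ∑ α, ∑ β, (inner ℂ (x α) (x β) : ℂ) := by
      have : (inner ℂ (∑ α, x α) (∑ α, x α) : ℂ) = ((‖∑ α, x α‖ : ℂ)) ^ 2 :=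
        inner_self_eq_norm_sq_to_K _
      push_cast
      rw [← this, sum_inner]
      refine Finset.sum_congr rfl fun α _ => ?_
      rw [inner_sum]
    have h2 : ∀ α, ∑ β, (inner ℂ (x α) (x β) : ℂ) = ((‖x α‖ ^ 2 : ℝ) : ℂ) +
        ∑ β ∈ Finset.univ.erase α, (inner ℂ (x α) (x β) : ℂ) := by
      intro α
      rw [← Finset.add_sum_erase _ _ (Finset.mem_univ α)]
      congr 1
      push_cast
      exact inner_self_eq_norm_sq_to_K _
    rw [Complex.ofReal_sub, h1, Finset.sum_congr rfl fun α _ => h2 α, Finset.sum_add_distrib,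
      Complex.ofReal_sum]
    ring
  have e2 : |‖∑ α, x α‖ ^ 2 - ∑ α, ‖x α‖ ^ 2| =
      ‖((‖∑ α, x α‖ ^ 2 - ∑ α, ‖x α‖ ^ 2 : ℝ) : ℂ)‖ := by
    rw [Complex.norm_real, Real.norm_eq_abs]
  rw [e2, e1]
  calc ‖∑ α, ∑ β ∈ Finset.univ.erase α, (inner ℂ (x α) (x β) : ℂ)‖
      ≤ ∑ α, ‖∑ β ∈ Finset.univ.erase α, (inner ℂ (x α) (x β) : ℂ)‖ := norm_sum_le _ _
    _ ≤ ∑ α, ∑ β ∈ Finset.univ.erase α, ‖(inner ℂ (x α) (x β) : ℂ)‖ :=
        Finset.sum_le_sum fun α _ => norm_sum_le _ _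
    _ ≤ ∑ α, ∑ β ∈ Finset.univ.erase α, T * (y α * y β) := by
        refine Finset.sum_le_sum fun α _ => Finset.sum_le_sum fun β hβ => ?_
        exact h α β (Finset.ne_of_mem_erase hβ).symm
    _ ≤ ∑ α, ∑ β, T * (y α * y β) := by
        refine Finset.sum_le_sum fun α _ => ?_
        refine Finset.sum_le_sum_of_subset_of_nonneg (Finset.erase_subset _ _) ?_
        intro β _ _
        exact mul_nonneg hT (mul_nonneg (hy α) (hy β))
    _ = T * (∑ α, y α) ^ 2 := by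
        rw [sq, Finset.sum_mul_sum, Finset.mul_sum]
        refine Finset.sum_congr rfl fun α _ => ?_
        rw [Finset.mul_sum]

theorem off_est (N K : ℕ) (hK : 3 ≤ K) (M R B : ℝ) (hM : 1 ≤ M) (hR : 1 ≤ R) (n : ℕ)
    (p : Fin n → E2) (hp : ∀ α, p α ∈ S) (v : Fin n → VN N) (hv : ∀ α, ‖v α‖ = 1)
    (cf : Fin n → ℝ) (hcf : ∀ α, 0 ≤ cf α ∧ cf α ^ 2 ≤ B)
    (horth : ∀ α β, α ≠ β → dl (p α) (p β) < R ^ 2 / M → (inner ℂ (v α) (v β) : ℂ) = 0)
    (z : E2) (hz : z ∈ Bt (1 / M)) :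
    |‖∑ α, ((cf α : ℂ) * pk K M (p α) z) • v α‖ ^ 2 - ∑ α, cf α ^ 2 * ‖pk K M (p α) z‖ ^ 2| ≤
      B * 36 ^ K * (4 / R ^ 2) ^ (K - 3) * (∑ α, ((1 + M * dl z (p α)) ^ 3)⁻¹) ^ 2 := by
  have hM0 : 0 < M := by linarith
  rcases Nat.eq_zero_or_pos n with hn | hn
  · subst hn
    simp
  have hB : 0 ≤ B := (sq_nonneg _).trans (hcf ⟨0, hn⟩).2
  have hR0 : 0 < R := by linarith
  have hX : ∀ α, 0 ≤ M * dl z (p α) := fun α => mul_nonneg hM0.le (dl_nonneg _ _)
  have e1 : ∀ α, ‖((cf α : ℂ) * pk K M (p α) z) • v α‖ ^ 2 =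
      cf α ^ 2 * ‖pk K M (p α) z‖ ^ 2 := by
    intro α
    rw [norm_smul, hv α, mul_one, norm_mul, Complex.norm_real, Real.norm_eq_abs, mul_pow, sq_abs]
  rw [← Finset.sum_congr rfl fun α _ => e1 α]
  refine off_expand _ _ _ (by positivity) (fun α => by have := hX α; positivity) ?_
  intro α β hαβ
  by_cases hnear : dl (p α) (p β) < R ^ 2 / M
  · rw [inner_smul_left, inner_smul_right, horth α β hαβ hnear]
    simp only [mul_zero, norm_zero]
    have := hX α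
    have := hX β
    positivity
  · push Not at hnear
    have hquasi := dl_quasi (p α) (p β) z (hp α) (hp β) (1 / M) (by positivity)
      (le_of_lt (by simpa [Bt] using hz))
    set X := M * dl z (p α) with hXdef
    set Y := M * dl z (p β) with hYdef
    have hX0 : 0 ≤ X := hX α
    have hY0 : 0 ≤ Y := hX β
    have hRXY : R ^ 2 / 4 ≤ (1 + X) * (1 + Y) := by
      have h1 : R ^ 2 / M ≤ 4 * (dl z (p α) + dl z (p β) + 1 / M) := hnear.trans hquasi
      rw [div_le_iff₀ hM0] at h1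
      have h2 : 4 * (dl z (p α) + dl z (p β) + 1 / M) * M = 4 * (X + Y + 1) := by
        rw [hXdef, hYdef]; field_simp
      rw [h2] at h1
      nlinarith [mul_nonneg hX0 hY0]
    have hc : cf α * cf β ≤ B := by
      nlinarith [sq_nonneg (cf α - cf β), (hcf α).2, (hcf β).2]
    have hc0 : 0 ≤ cf α * cf β := mul_nonneg (hcf α).1 (hcf β).1
    have hpα := pk_norm_le (K := K) hM (hp α) hz
    have hpβ := pk_norm_le (K := K) hM (hp β) hz
    rw [← hXdef] at hpα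
    rw [← hYdef] at hpβ
    have hin : ‖(inner ℂ (v α) (v β) : ℂ)‖ ≤ 1 := by
      have := norm_inner_le_norm (𝕜 := ℂ) (v α) (v β)
      rwa [hv, hv, one_mul] at this
    set Z := (1 + X) * (1 + Y) with hZ
    have hZ0 : 0 < Z := by positivity
    have hpow : (Z ^ (K - 3))⁻¹ ≤ (4 / R ^ 2) ^ (K - 3) := by
      rw [← inv_pow]
      refine pow_le_pow_left₀ (by positivity) ?_ _
      rw [inv_le_comm₀ hZ0 (by positivity), inv_div]
      exact hRXY
    have hsplit : (Z ^ K)⁻¹ = (Z ^ (K - 3))⁻¹ * (Z ^ 3)⁻¹ := by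
      rw [← mul_inv, ← pow_add]
      congr 2
      omega
    rw [inner_smul_left, inner_smul_right, norm_mul, norm_mul]
    rw [RCLike.norm_conj, norm_mul, norm_mul, Complex.norm_real, Complex.norm_real,
      Real.norm_of_nonneg (hcf α).1, Real.norm_of_nonneg (hcf β).1]
    calc cf α * ‖pk K M (p α) z‖ * (cf β * ‖pk K M (p β) z‖ * ‖(inner ℂ (v α) (v β) : ℂ)‖)
        = (cf α * cf β) * (‖pk K M (p α) z‖ * ‖pk K M (p β) z‖) *
            ‖(inner ℂ (v α) (v β) : ℂ)‖ := by ring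
      _ ≤ B * ((6 ^ K * ((1 + X) ^ K)⁻¹) * (6 ^ K * ((1 + Y) ^ K)⁻¹)) * 1 := by
          gcongr
      _ = B * 36 ^ K * (Z ^ K)⁻¹ := by
          have h36 : (36 : ℝ) ^ K = 6 ^ K * 6 ^ K := by
            rw [← mul_pow]; norm_num
          rw [h36, hZ, mul_pow, mul_inv]
          ring
      _ = B * 36 ^ K * ((Z ^ (K - 3))⁻¹ * (Z ^ 3)⁻¹) := by rw [hsplit]
      _ ≤ B * 36 ^ K * ((4 / R ^ 2) ^ (K - 3) * (Z ^ 3)⁻¹) := by
          gcongr
      _ = B * 36 ^ K * (4 / R ^ 2) ^ (K - 3) * (((1 + X) ^ 3)⁻¹ * ((1 + Y) ^ 3)⁻¹) := by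
          rw [hZ, mul_pow, mul_inv]
          ring

end Pool.Agent.BM

end

section

/-! Comparison of neighbouring packets. -/

set_option autoImplicit false

open MeasureTheory Complex

namespace Pool.Agent.BM

theorem pkc_pow_sub_one (n : ℕ) (t : ℝ) (h0 : 0 ≤ t) (h2 : t ≤ 2) :
    |t ^ n - 1| ≤ n * 2 ^ n * |t - 1| := by
  induction n with
  | zero => simp
  | succ n ih =>
    have h3 : t ^ (n + 1) - 1 = t ^ n * (t - 1) + (t ^ n - 1) := by ring
    have h4 : t ^ n ≤ 2 ^ n := pow_le_pow_left₀ h0 h2 n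
    have h5 : 0 ≤ t ^ n := pow_nonneg h0 n
    have h6 : 0 ≤ |t - 1| := abs_nonneg _
    calc |t ^ (n + 1) - 1| = |t ^ n * (t - 1) + (t ^ n - 1)| := by rw [h3]
      _ ≤ |t ^ n * (t - 1)| + |t ^ n - 1| := abs_add_le _ _
      _ = t ^ n * |t - 1| + |t ^ n - 1| := by rw [abs_mul, abs_of_nonneg h5]
      _ ≤ 2 ^ n * |t - 1| + n * 2 ^ n * |t - 1| := by
          have := mul_le_mul_of_nonneg_right h4 h6
          linarith
      _ = (n + 1) * 2 ^ n * |t - 1| := by ring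
      _ ≤ ((n + 1 : ℕ) : ℝ) * 2 ^ (n + 1) * |t - 1| := by
          push_cast
          have h7 : (2 : ℝ) ^ n ≤ 2 ^ (n + 1) := by
            rw [pow_succ]
            have : (0 : ℝ) < 2 ^ n := by positivity
            linarith
          gcongr

theorem pkc_den_diff {M η : ℝ} (hM : 1 ≤ M) (hη : 0 < η) (hη0 : η ≤ 1 / 4) {p q z : E2}
    (hp : p ∈ S) (hq : q ∈ S) (hd : dl p q ≤ η ^ 2 / M) (hz : z ∈ Bt (1 / M)) :
    ‖(1 + (M : ℂ) * (1 - inner ℂ p z)) - (1 + (M : ℂ) * (1 - inner ℂ q z))‖ ≤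
      3 * η * (1 + M * dl z p) := by
  have hM0 : 0 < M := by linarith
  have hz' : ‖z‖ ^ 2 < 1 + 1 / M := hz
  have h1 := inner_sub_inner_le p q z hp hq (1 / M) hz'.le
  have hX : 0 ≤ dl z p := dl_nonneg _ _
  have hMinv : 1 / M ≤ 1 := by
    rw [div_le_one hM0]; exact hM
  have hznorm : ‖z‖ ≤ 2 := by
    have h0 : 0 ≤ ‖z‖ := norm_nonneg _
    nlinarith
  have hd0 : 0 ≤ dl p q := dl_nonneg _ _
  have hs : Real.sqrt (1 / M + 2 * dl z p) * Real.sqrt (2 * dl p q) ≤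
      2 * η * (1 + M * dl z p) / M := by
    rw [← Real.sqrt_mul (by positivity)]
    apply Real.sqrt_le_iff.mpr
    constructor
    · positivity
    · have h2 : (1 / M + 2 * dl z p) * (2 * dl p q) ≤
          (1 / M + 2 * dl z p) * (2 * (η ^ 2 / M)) := by
        have : 0 ≤ 1 / M + 2 * dl z p := by positivity
        gcongr
      have h3 : (1 / M + 2 * dl z p) * (2 * (η ^ 2 / M)) =
          2 * η ^ 2 * (1 + 2 * (M * dl z p)) / M ^ 2 := by
        field_simp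
      have h4 : (2 * η * (1 + M * dl z p) / M) ^ 2 =
          4 * η ^ 2 * (1 + M * dl z p) ^ 2 / M ^ 2 := by
        field_simp
        ring
      rw [h4]
      refine h2.trans ?_
      rw [h3]
      have hx : 0 ≤ M * dl z p := by positivity
      have h5 : 2 * η ^ 2 * (1 + 2 * (M * dl z p)) ≤ 4 * η ^ 2 * (1 + M * dl z p) ^ 2 := by
        have : 0 ≤ η ^ 2 := by positivity
        nlinarith [mul_nonneg this hx, mul_nonneg this (mul_nonneg hx hx)]
      gcongr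
  have h6 : (1 + (M : ℂ) * (1 - inner ℂ p z)) - (1 + (M : ℂ) * (1 - inner ℂ q z)) =
      -((M : ℂ) * ((inner ℂ p z : ℂ) - inner ℂ q z)) := by ring
  rw [h6, norm_neg, norm_mul, Complex.norm_real, Real.norm_of_nonneg hM0.le]
  have h7 : ‖z‖ * dl p q ≤ 2 * (η ^ 2 / M) := by gcongr
  have h8 : ‖(inner ℂ p z : ℂ) - inner ℂ q z‖ ≤
      2 * (η ^ 2 / M) + 2 * η * (1 + M * dl z p) / M := by linarith
  calc M * ‖(inner ℂ p z : ℂ) - inner ℂ q z‖
      ≤ M * (2 * (η ^ 2 / M) + 2 * η * (1 + M * dl z p) / M) := by gcongr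
    _ = 2 * η ^ 2 + 2 * η * (1 + M * dl z p) := by field_simp
    _ ≤ 3 * η * (1 + M * dl z p) := by
        have hx : 0 ≤ M * dl z p := by positivity
        nlinarith [mul_nonneg hη.le hx]

theorem pk_compare (K : ℕ) : ∃ C3 : ℝ, 0 < C3 ∧ ∃ η0 : ℝ, 0 < η0 ∧ η0 ≤ 1 / 4 ∧
    ∀ M η : ℝ, 1 ≤ M → 0 < η → η ≤ η0 → ∀ p ∈ S, ∀ q ∈ S, dl p q ≤ η ^ 2 / M →
      ∀ z ∈ Bt (1 / M),
        |‖pk K M p z‖ ^ 2 - ‖pk K M q z‖ ^ 2| ≤ C3 * η * ‖pk K M p z‖ ^ 2 := by
  refine ⟨(2 * K : ℕ) * 2 ^ (2 * K) * 36 + 1, by positivity, 1 / 72, by norm_num, by norm_num, ?_⟩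
  intro M η hM hη hη0 p hp q hq hd z hz
  have hM0 : 0 < M := by linarith
  set a : ℝ := ‖1 + (M : ℂ) * (1 - inner ℂ p z)‖ with ha
  set b : ℝ := ‖1 + (M : ℂ) * (1 - inner ℂ q z)‖ with hb
  have hX : 0 ≤ M * dl z p := mul_nonneg hM0.le (dl_nonneg _ _)
  have h1 : (1 + M * dl z p) / 6 ≤ a := den_lower hM hp hz
  have hapos : 0 < a := by
    have : 0 < (1 + M * dl z p) / 6 := by positivity
    linarith
  have h2 : |a - b| ≤ 3 * η * (1 + M * dl z p) :=
    (abs_norm_sub_norm_le _ _).trans (pkc_den_diff hM hη (by linarith) hp hq hd hz)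
  have h3 : |a - b| ≤ 18 * η * a := by
    have : 3 * η * (1 + M * dl z p) ≤ 18 * η * a := by nlinarith
    linarith
  have h4 : 18 * η * a ≤ a / 4 := by nlinarith
  have hab := abs_le.mp (h3.trans h4)
  have hb2 : a / 2 ≤ b := by linarith
  have hbpos : 0 < b := by linarith
  -- the quotient
  set t : ℝ := a / b with ht
  have ht0 : 0 ≤ t := by positivity
  have ht2 : t ≤ 2 := by
    rw [ht, div_le_iff₀ hbpos]; linarith
  have ht1 : |t - 1| ≤ 36 * η := by
    have : t - 1 = (a - b) / b := by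
      rw [ht]; field_simp
    rw [this, abs_div, abs_of_pos hbpos, div_le_iff₀ hbpos]
    calc |a - b| ≤ 18 * η * a := h3
      _ ≤ 18 * η * (2 * b) := by gcongr; linarith
      _ = 36 * η * b := by ring
  have h5 := pkc_pow_sub_one (2 * K) t ht0 ht2
  rw [pk_norm, pk_norm]
  change |((a ^ K)⁻¹) ^ 2 - ((b ^ K)⁻¹) ^ 2| ≤ _ * η * ((a ^ K)⁻¹) ^ 2
  have h6 : ((a ^ K)⁻¹) ^ 2 - ((b ^ K)⁻¹) ^ 2 = ((a ^ K)⁻¹) ^ 2 * (1 - t ^ (2 * K)) := by
    rw [ht, div_pow, mul_comm 2 K, pow_mul, pow_mul]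
    have ha' : a ^ K ≠ 0 := by positivity
    have hb' : b ^ K ≠ 0 := by positivity
    field_simp
  rw [h6, abs_mul, abs_of_nonneg (by positivity : (0 : ℝ) ≤ ((a ^ K)⁻¹) ^ 2), abs_sub_comm 1]
  have h7 : |t ^ (2 * K) - 1| ≤ ((2 * K : ℕ) * 2 ^ (2 * K) * 36 + 1) * η := by
    calc |t ^ (2 * K) - 1| ≤ (2 * K : ℕ) * 2 ^ (2 * K) * |t - 1| := h5
      _ ≤ (2 * K : ℕ) * 2 ^ (2 * K) * (36 * η) := by gcongr
      _ ≤ ((2 * K : ℕ) * 2 ^ (2 * K) * 36 + 1) * η := by
          have : 0 ≤ ((2 * K : ℕ) : ℝ) * 2 ^ (2 * K) := by positivity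
          nlinarith
  calc ((a ^ K)⁻¹) ^ 2 * |t ^ (2 * K) - 1|
      ≤ ((a ^ K)⁻¹) ^ 2 * (((2 * K : ℕ) * 2 ^ (2 * K) * 36 + 1) * η) := by gcongr
    _ = ((2 * K : ℕ) * 2 ^ (2 * K) * 36 + 1) * η * ((a ^ K)⁻¹) ^ 2 := by ring

end Pool.Agent.BM

end
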