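import Pool.Agent.Work.MP_e08233_an.Bd.B03

/-! Bundle of small proof modules (one section per former module). -/

section

/-! Basic facts on the weight wt, the constant CM and the measure kap: the lemmas kap_prob,
kap_supp, Top_kap are in KapAux, here the two-sided bound for CM. -/

set_option autoImplicit false

open MeasureTheory Complex

namespace Pool.Agent.BM

theorem CM_bounds (σ : Measure E2) (c C : ℝ) (hσ : Good σ c C) (K : ℕ) (hK : 2 ≤ K) :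
    ∃ c1 C1 : ℝ, 0 < c1 ∧ 0 < C1 ∧ ∀ M : ℝ, 1 ≤ M →
      c1 / M ^ 2 ≤ CM σ K M ∧ CM σ K M ≤ C1 / M ^ 2 :=
  CM_bounds_aux σ c C hσ K hK (int_dl_bound σ c C hσ)

end Pool.Agent.BM

end

section

/-! Moments and tails of kap (auxiliary version: the integral bound is a hypothesis). -/

set_option autoImplicit false

open MeasureTheory Complex

namespace Pool.Agent.BM

theorem kapMom_general (σ : Measure E2) (c C : ℝ) (hσ : Good σ c C) (K : ℕ) (CB M : ℝ)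
    (hM : 1 ≤ M) (hCB : 0 < CB)
    (hB : ∫ p, ((1 + M * dl e1 p) ^ 3)⁻¹ ∂σ ≤ CB / M ^ 2)
    (f : E2 → ℝ) (D : ℝ) (hD : 0 ≤ D) (hf0 : ∀ q, 0 ≤ f q)
    (hf : ∀ q ∈ S, f q * wt K M q ≤ D * ((1 + M * dl e1 q) ^ 3)⁻¹) :
    ∫ q, f q ∂(kap σ K M) ≤ D * (CB / (c * (2 ^ (2 * K))⁻¹)) := by
  have := hσ.prob
  have hM0 : 0 < M := by linarith
  have hc := hσ.cpos
  have hC := kap_CM_pos hσ K hM0.le
  have hlow := CM_lower σ c C hσ K M hM
  rw [kap_integral σ c C hσ K M hM]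
  have h1 : ∫ q, f q * wt K M q ∂σ ≤ ∫ q, D * ((1 + M * dl e1 q) ^ 3)⁻¹ ∂σ := by
    refine integral_mono_of_nonneg
      (Filter.Eventually.of_forall fun q => mul_nonneg (hf0 q) (kap_wt_nonneg K M q))
      ((kap_cube_integrable hσ hM0.le).const_mul _) ?_
    filter_upwards [kap_ae_S hσ] with q hq
    exact hf q hq
  rw [integral_const_mul] at h1
  have h2 : ∫ q, f q * wt K M q ∂σ ≤ D * (CB / M ^ 2) := h1.trans (by gcongr)
  have h3 : (CM σ K M)⁻¹ ≤ ((c * (2 ^ (2 * K))⁻¹) / M ^ 2)⁻¹ := by gcongr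
  calc (CM σ K M)⁻¹ * ∫ q, f q * wt K M q ∂σ
      ≤ ((c * (2 ^ (2 * K))⁻¹) / M ^ 2)⁻¹ * (D * (CB / M ^ 2)) := by
        refine mul_le_mul h3 h2 ?_ (by positivity)
        exact integral_nonneg fun q => mul_nonneg (hf0 q) (kap_wt_nonneg K M q)
    _ = D * (CB / (c * (2 ^ (2 * K))⁻¹)) := by
        field_simp

theorem kapMom_sqrt {K : ℕ} (hK : 2 ≤ K) {M : ℝ} (hM : 1 ≤ M) {q : E2} (hq : q ∈ S) :
    Real.sqrt ‖1 - q 0‖ * wt K M q ≤
      (6 ^ (2 * K) / Real.sqrt M) * ((1 + M * dl e1 q) ^ 3)⁻¹ := by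
  have hM0 : 0 < M := by linarith
  have h1 := kap_wt_le (K := K) hM hq
  have h2 : ‖1 - q 0‖ = dl e1 q := by rw [dl_comm, dl_e1]
  rw [dl_comm q e1] at h1
  rw [h2]
  set δ := dl e1 q with hδ
  have hδ0 : 0 ≤ δ := dl_nonneg _ _
  have h3 : 1 ≤ 1 + M * δ := by
    have := mul_nonneg hM0.le hδ0
    linarith
  have hsM : 0 < Real.sqrt M := Real.sqrt_pos.2 hM0
  have h4 : Real.sqrt δ ≤ (1 + M * δ) / Real.sqrt M := by
    rw [le_div_iff₀ hsM, ← Real.sqrt_mul hδ0]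
    have h5 : Real.sqrt (δ * M) ≤ Real.sqrt ((1 + M * δ) ^ 2) := by
      apply Real.sqrt_le_sqrt
      nlinarith [mul_nonneg hM0.le hδ0]
    rwa [Real.sqrt_sq (by linarith)] at h5
  have h5 : (1 + M * δ) * ((1 + M * δ) ^ (2 * K))⁻¹ ≤ ((1 + M * δ) ^ 3)⁻¹ := by
    have h6 : (1 + M * δ) ^ 4 ≤ (1 + M * δ) ^ (2 * K) := pow_le_pow_right₀ h3 (by omega)
    calc (1 + M * δ) * ((1 + M * δ) ^ (2 * K))⁻¹ ≤ (1 + M * δ) * ((1 + M * δ) ^ 4)⁻¹ := by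
          gcongr
      _ = ((1 + M * δ) ^ 3)⁻¹ := by
          field_simp
  calc Real.sqrt δ * wt K M q
      ≤ ((1 + M * δ) / Real.sqrt M) * (6 ^ (2 * K) * ((1 + M * δ) ^ (2 * K))⁻¹) := by
        refine mul_le_mul h4 h1 (kap_wt_nonneg K M q) (by positivity)
    _ = (6 ^ (2 * K) / Real.sqrt M) * ((1 + M * δ) * ((1 + M * δ) ^ (2 * K))⁻¹) := by ring
    _ ≤ (6 ^ (2 * K) / Real.sqrt M) * ((1 + M * δ) ^ 3)⁻¹ := by gcongr

theorem kapMom_tail {K J : ℕ} (hKJ : J + 3 ≤ 2 * K) {M : ℝ} (hM : 1 ≤ M) {ρ : ℝ}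
    (hρ : 0 < ρ) {q : E2} (hq : q ∈ S) (hqρ : ρ < Real.sqrt ‖1 - q 0‖) :
    wt K M q ≤ (6 ^ (2 * K) / (M * ρ ^ 2) ^ J) * ((1 + M * dl e1 q) ^ 3)⁻¹ := by
  have hM0 : 0 < M := by linarith
  have h1 := kap_wt_le (K := K) hM hq
  have h2 : ‖1 - q 0‖ = dl e1 q := by rw [dl_comm, dl_e1]
  rw [dl_comm q e1] at h1
  rw [h2] at hqρ
  set δ := dl e1 q with hδ
  have hδ0 : 0 ≤ δ := dl_nonneg _ _
  have h3 : 1 ≤ 1 + M * δ := by
    have := mul_nonneg hM0.le hδ0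
    linarith
  have h4 : ρ ^ 2 < δ := by
    have := (Real.lt_sqrt hρ.le).1 hqρ
    exact this
  have h5 : M * ρ ^ 2 ≤ 1 + M * δ := by
    have : M * ρ ^ 2 ≤ M * δ := by gcongr
    linarith
  have h6 : (M * ρ ^ 2) ^ J * (1 + M * δ) ^ 3 ≤ (1 + M * δ) ^ (2 * K) := by
    calc (M * ρ ^ 2) ^ J * (1 + M * δ) ^ 3 ≤ (1 + M * δ) ^ J * (1 + M * δ) ^ 3 := by
          gcongr
      _ = (1 + M * δ) ^ (J + 3) := by rw [pow_add]
      _ ≤ (1 + M * δ) ^ (2 * K) := pow_le_pow_right₀ h3 hKJ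
  have hMρ : 0 < M * ρ ^ 2 := by positivity
  calc wt K M q ≤ 6 ^ (2 * K) * ((1 + M * δ) ^ (2 * K))⁻¹ := h1
    _ ≤ 6 ^ (2 * K) * ((M * ρ ^ 2) ^ J * (1 + M * δ) ^ 3)⁻¹ := by gcongr
    _ = (6 ^ (2 * K) / (M * ρ ^ 2) ^ J) * ((1 + M * δ) ^ 3)⁻¹ := by
        rw [mul_inv]; ring

theorem kap_moments_aux (σ : Measure E2) (c C : ℝ) (hσ : Good σ c C) (K J : ℕ) (hK : 2 ≤ K)
    (hKJ : J + 3 ≤ 2 * K)
    (hB : ∃ CB : ℝ, 0 < CB ∧ ∀ M : ℝ, 1 ≤ M → ∀ z ∈ Bt (1 / M),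
      ∫ p, ((1 + M * dl z p) ^ 3)⁻¹ ∂σ ≤ CB / M ^ 2) :
    ∃ C1 : ℝ, 0 < C1 ∧ ∀ M : ℝ, 1 ≤ M →
      (∫ q, Real.sqrt ‖1 - q 0‖ ∂(kap σ K M) ≤ C1 / Real.sqrt M) ∧
      ∀ ρ : ℝ, 0 < ρ →
        (kap σ K M).real {q | ρ < Real.sqrt ‖1 - q 0‖} ≤ C1 / (M * ρ ^ 2) ^ J := by
  obtain ⟨CB, hCB, hB⟩ := hB
  have hc := hσ.cpos
  refine ⟨6 ^ (2 * K) * (CB / (c * (2 ^ (2 * K))⁻¹)), by positivity, fun M hM => ?_⟩
  have hM0 : 0 < M := by linarith
  have hBe := hB M hM e1 (S_subset_Bt (by positivity) e1_mem_S)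
  constructor
  · have h := kapMom_general σ c C hσ K CB M hM hCB hBe (fun q => Real.sqrt ‖1 - q 0‖)
      (6 ^ (2 * K) / Real.sqrt M) (by positivity) (fun q => Real.sqrt_nonneg _)
      (fun q hq => kapMom_sqrt hK hM hq)
    refine h.trans (le_of_eq ?_)
    ring
  · intro ρ hρ
    have := kap_prob σ c C hσ K M hM
    set A : Set E2 := {q | ρ < Real.sqrt ‖1 - q 0‖} with hA
    have hAm : MeasurableSet A := by
      have h : Continuous fun q : E2 => Real.sqrt ‖1 - q 0‖ :=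
        (continuous_const.sub (continuous_coord 0)).norm.sqrt
      exact measurableSet_lt measurable_const h.measurable
    have h1 : (kap σ K M).real A = ∫ q, A.indicator (fun _ => (1 : ℝ)) q ∂(kap σ K M) := by
      rw [integral_indicator hAm, setIntegral_const]
      simp
    rw [h1]
    have h := kapMom_general σ c C hσ K CB M hM hCB hBe (A.indicator (fun _ => (1 : ℝ)))
      (6 ^ (2 * K) / (M * ρ ^ 2) ^ J) (by positivity)
      (fun q => Set.indicator_nonneg (fun _ _ => zero_le_one) q)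
      (fun q hq => ?_)
    · refine h.trans (le_of_eq ?_)
      ring
    · by_cases hqA : q ∈ A
      · rw [Set.indicator_of_mem hqA, one_mul]
        exact kapMom_tail hKJ hM hρ hq hqA
      · rw [Set.indicator_of_notMem hqA, zero_mul]
        have := dl_nonneg e1 q
        positivity

end Pool.Agent.BM

end
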