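import Pool.Agent.Work.MP_e08233_an.Bd.B03
import Pool.Agent.Work.MP_e08233_an.Defs2
import Pool.Agent.Work.MP_e08233_an.Bd.B04

/-! Bundle of small proof modules (one section per former module). -/

section

/-! Iterates of Dop as integrals of multi-differences. -/

set_option autoImplicit false

open MeasureTheory Complex

namespace Pool.Agent.BM

theorem itd_meas (u : E2 → ℝ) (hu : Measurable u) (n : ℕ) :
    Measurable fun x : (Fin n → E2) × E2 => dif u (List.ofFn x.1) x.2 := by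
  induction n with
  | zero =>
    simp only [List.ofFn_zero, dif]
    exact hu.comp measurable_snd
  | succ n ih =>
    simp only [List.ofFn_succ, dif]
    have h1 : Measurable fun x : (Fin (n + 1) → E2) × E2 =>
        ((fun i : Fin n => x.1 i.succ), x.2) := by
      refine Measurable.prodMk ?_ measurable_snd
      exact measurable_pi_lambda _ fun i => (measurable_pi_apply _).comp measurable_fst
    have h2 : Measurable fun x : (Fin (n + 1) → E2) × E2 =>
        ((fun i : Fin n => x.1 i.succ), act x.2 (x.1 0)) := by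
      refine Measurable.prodMk ?_ ?_
      · exact measurable_pi_lambda _ fun i => (measurable_pi_apply _).comp measurable_fst
      · have h3 : Measurable fun x : (Fin (n + 1) → E2) × E2 => (x.2, x.1 0) :=
          measurable_snd.prodMk ((measurable_pi_apply _).comp measurable_fst)
        exact continuous_act2.measurable.comp h3
    exact (ih.comp h1).sub (ih.comp h2)

theorem itd_bound (u : E2 → ℝ) (A : ℝ) (huA : ∀ z ∈ S, |u z| ≤ A) (n : ℕ) :
    ∀ (Q : Fin n → E2), (∀ i, Q i ∈ S) → ∀ z ∈ S, |dif u (List.ofFn Q) z| ≤ 2 ^ n * A := by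
  induction n with
  | zero =>
    intro Q _ z hz
    simpa [dif] using huA z hz
  | succ n ih =>
    intro Q hQ z hz
    rw [List.ofFn_succ]
    simp only [dif]
    have h1 := ih (fun i => Q i.succ) (fun i => hQ _) z hz
    have h2 := ih (fun i => Q i.succ) (fun i => hQ _) (act z (Q 0)) (act_mem_S hz (hQ 0))
    calc |dif u (List.ofFn fun i => Q i.succ) z - dif u (List.ofFn fun i => Q i.succ)
            (act z (Q 0))| ≤ |dif u (List.ofFn fun i => Q i.succ) z| +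
            |dif u (List.ofFn fun i => Q i.succ) (act z (Q 0))| := abs_sub _ _
      _ ≤ 2 ^ n * A + 2 ^ n * A := add_le_add h1 h2
      _ = 2 ^ (n + 1) * A := by ring

theorem itd_ae (κ : Measure E2) (hκ1 : IsProbabilityMeasure κ) (hκ : κ Sᶜ = 0) (n : ℕ) :
    ∀ᵐ Q ∂(Measure.pi fun _ : Fin n => κ), ∀ i, Q i ∈ S := by
  rw [ae_all_iff]
  intro i
  have h := (measurePreserving_eval (fun _ : Fin n => κ) i).quasiMeasurePreserving
  exact h.ae (db_ae_mem κ hκ)

theorem itd_integrable (κ : Measure E2) (hκ1 : IsProbabilityMeasure κ) (hκ : κ Sᶜ = 0)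
    (u : E2 → ℝ) (hu : Measurable u) (A : ℝ) (huA : ∀ z ∈ S, |u z| ≤ A) (n : ℕ)
    (z : E2) (hz : z ∈ S) :
    Integrable (fun Q : Fin n → E2 => dif u (List.ofFn Q) z) (Measure.pi fun _ => κ) := by
  have h1 : Measurable (fun Q : Fin n → E2 => dif u (List.ofFn Q) z) :=
    (itd_meas u hu n).comp (measurable_id.prodMk measurable_const)
  refine Integrable.of_bound h1.aestronglyMeasurable (2 ^ n * A) ?_
  filter_upwards [itd_ae κ hκ1 hκ n] with Q hQ
  exact itd_bound u A huA n Q hQ z hz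

theorem itd_formula (κ : Measure E2) (hκ1 : IsProbabilityMeasure κ) (hκ : κ Sᶜ = 0)
    (u : E2 → ℝ) (hu : Measurable u) (A : ℝ) (huA : ∀ z ∈ S, |u z| ≤ A) (n : ℕ) :
    ∀ z ∈ S, ((Dop κ)^[n] u) z =
      ∫ Q : Fin n → E2, dif u (List.ofFn Q) z ∂(Measure.pi fun _ => κ) := by
  induction n with
  | zero =>
    intro z _
    have h : ∀ Q : Fin 0 → E2, dif u (List.ofFn Q) z = u z := by
      intro Q
      simp [dif]
    simp only [h, Function.iterate_zero, id]
    simp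
  | succ n ih =>
    intro z hz
    rw [Function.iterate_succ_apply']
    have e1 : (∫ Q : Fin (n + 1) → E2, dif u (List.ofFn Q) z ∂(Measure.pi fun _ => κ)) =
        ∫ y : E2 × (Fin n → E2), (dif u (List.ofFn y.2) z - dif u (List.ofFn y.2) (act z y.1))
          ∂(κ.prod (Measure.pi fun _ => κ)) := by
      have hmp := measurePreserving_piFinSuccAbove (fun _ : Fin (n + 1) => κ) 0
      have := hmp.integral_comp' (fun y : E2 × (Fin n → E2) =>
        (dif u (List.ofFn y.2) z - dif u (List.ofFn y.2) (act z y.1)))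
      rw [← this]
      refine integral_congr_ae (Filter.Eventually.of_forall fun Q => ?_)
      simp only [List.ofFn_succ, dif]
      rfl
    have m1 : Measurable fun y : E2 × (Fin n → E2) => dif u (List.ofFn y.2) z :=
      (itd_meas u hu n).comp (measurable_snd.prodMk measurable_const)
    have m2 : Measurable fun y : E2 × (Fin n → E2) => dif u (List.ofFn y.2) (act z y.1) := by
      have h3 : Measurable fun y : E2 × (Fin n → E2) => (y.2, act z y.1) :=
        measurable_snd.prodMk ((continuous_act z).measurable.comp measurable_fst)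
      exact (itd_meas u hu n).comp h3
    have hae : ∀ᵐ y ∂(κ.prod (Measure.pi fun _ : Fin n => κ)), y.1 ∈ S ∧ ∀ i, y.2 i ∈ S := by
      have h1 : ∀ᵐ y ∂(κ.prod (Measure.pi fun _ : Fin n => κ)), y.1 ∈ S :=
        Measure.quasiMeasurePreserving_fst.ae (db_ae_mem κ hκ)
      have h2 : ∀ᵐ y ∂(κ.prod (Measure.pi fun _ : Fin n => κ)), ∀ i, y.2 i ∈ S :=
        Measure.quasiMeasurePreserving_snd.ae (itd_ae κ hκ1 hκ n)
      exact h1.and h2
    have i1 : Integrable (fun y : E2 × (Fin n → E2) => dif u (List.ofFn y.2) z)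
        (κ.prod (Measure.pi fun _ => κ)) := by
      refine Integrable.of_bound m1.aestronglyMeasurable (2 ^ n * A) ?_
      filter_upwards [hae] with y hy
      exact itd_bound u A huA n y.2 hy.2 z hz
    have i2 : Integrable (fun y : E2 × (Fin n → E2) => dif u (List.ofFn y.2) (act z y.1))
        (κ.prod (Measure.pi fun _ => κ)) := by
      refine Integrable.of_bound m2.aestronglyMeasurable (2 ^ n * A) ?_
      filter_upwards [hae] with y hy
      exact itd_bound u A huA n y.2 hy.2 _ (act_mem_S hz hy.1)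
    rw [e1, integral_sub i1 i2, integral_prod _ i1, integral_prod _ i2]
    have e2 : (∫ _ : E2, ∫ Q : Fin n → E2, dif u (List.ofFn Q) z ∂(Measure.pi fun _ => κ) ∂κ) =
        ((Dop κ)^[n] u) z := by
      rw [integral_const, ih z hz]
      simp
    have e3 : (∫ q : E2, ∫ Q : Fin n → E2, dif u (List.ofFn Q) (act z q)
        ∂(Measure.pi fun _ => κ) ∂κ) = Top κ ((Dop κ)^[n] u) z := by
      unfold Top
      refine integral_congr_ae ?_
      filter_upwards [db_ae_mem κ hκ] with q hq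
      exact (ih _ (act_mem_S hz hq)).symm
    show ((Dop κ)^[n] u) z - Top κ ((Dop κ)^[n] u) z = _
    simp only
    rw [e2, e3]

theorem iter_Dop_bound (κ : Measure E2) (hκ1 : IsProbabilityMeasure κ) (hκ : κ Sᶜ = 0) (n : ℕ)
    (A : ℝ) (hA : 0 ≤ A) (u : E2 → ℝ) (hu : Measurable u) (huA : ∀ z ∈ S, |u z| ≤ A)
    (z0 : E2) (hz0 : z0 ∈ S) (bd : E2 → ℝ) (hbd : Measurable bd) (hbd0 : ∀ q, 0 ≤ bd q)
    (B : ℝ) (hbdB : ∀ q ∈ S, bd q ≤ B)
    (near : Set E2) (hnear : MeasurableSet near)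
    (H : ∀ Q : Fin n → E2, (∀ i, Q i ∈ S) → (∀ i, Q i ∈ near) →
      |dif u (List.ofFn Q) z0| ≤ A * ∏ i, bd (Q i)) :
    |((Dop κ)^[n] u) z0| ≤ A * ((∫ q, bd q ∂κ) ^ n + n * 2 ^ n * κ.real nearᶜ) := by
  classical
  rw [itd_formula κ hκ1 hκ u hu A huA n z0 hz0]
  set P : Measure (Fin n → E2) := Measure.pi fun _ => κ with hP
  have hPprob : IsProbabilityMeasure P := by rw [hP]; infer_instance
  let ind : E2 → ℝ := nearᶜ.indicator (fun _ => (1 : ℝ))
  have hind : Measurable ind := measurable_const.indicator hnear.compl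
  have hind0 : ∀ q, 0 ≤ ind q := fun q => Set.indicator_nonneg (fun _ _ => zero_le_one) q
  have hbdi : Integrable bd κ := by
    refine Integrable.of_bound hbd.aestronglyMeasurable B ?_
    filter_upwards [db_ae_mem κ hκ] with q hq
    rw [Real.norm_of_nonneg (hbd0 q)]
    exact hbdB q hq
  have hindi : Integrable ind κ := by
    refine Integrable.of_bound hind.aestronglyMeasurable 1 ?_
    refine Filter.Eventually.of_forall fun q => ?_
    rw [Real.norm_of_nonneg (hind0 q)]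
    exact Set.indicator_le' (fun _ _ => le_rfl) (fun _ _ => zero_le_one) q
  have i1 : Integrable (fun Q : Fin n → E2 => A * ∏ i, bd (Q i)) P :=
    (Integrable.fintype_prod (fun _ => hbdi)).const_mul A
  have i2 : ∀ i : Fin n, Integrable (fun Q : Fin n → E2 => ind (Q i)) P := fun i =>
    (measurePreserving_eval (fun _ : Fin n => κ) i).integrable_comp_of_integrable hindi
  have i3 : Integrable (fun Q : Fin n → E2 => 2 ^ n * A * ∑ i, ind (Q i)) P :=
    (integrable_finsetSum _ fun i _ => i2 i).const_mul _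
  have key : ∀ᵐ Q ∂P, ‖dif u (List.ofFn Q) z0‖ ≤
      A * ∏ i, bd (Q i) + 2 ^ n * A * ∑ i, ind (Q i) := by
    filter_upwards [itd_ae κ hκ1 hκ n] with Q hQ
    have p1 : 0 ≤ A * ∏ i, bd (Q i) := mul_nonneg hA (Finset.prod_nonneg fun i _ => hbd0 _)
    have p2 : 0 ≤ 2 ^ n * A * ∑ i, ind (Q i) :=
      mul_nonneg (by positivity) (Finset.sum_nonneg fun i _ => hind0 _)
    rw [Real.norm_eq_abs]
    by_cases hn : ∀ i, Q i ∈ near
    · exact (H Q hQ hn).trans (le_add_of_nonneg_right p2)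
    · push Not at hn
      obtain ⟨i, hi⟩ := hn
      have h1 : ind (Q i) = 1 := Set.indicator_of_mem (by exact hi) _
      have h2 : 1 ≤ ∑ i, ind (Q i) := by
        calc (1 : ℝ) = ind (Q i) := h1.symm
          _ ≤ ∑ i, ind (Q i) :=
            Finset.single_le_sum (f := fun i => ind (Q i)) (fun j _ => hind0 _) (Finset.mem_univ i)
      have h3 : 2 ^ n * A ≤ 2 ^ n * A * ∑ i, ind (Q i) := by
        have h4 : 0 ≤ 2 ^ n * A := by positivity
        nlinarith
      exact (itd_bound u A huA n Q hQ z0 hz0).trans (h3.trans (le_add_of_nonneg_left p1))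
  have h1 := norm_integral_le_of_norm_le (i1.add i3) key
  rw [Real.norm_eq_abs] at h1
  refine h1.trans (le_of_eq ?_)
  have e1 : (∫ Q : Fin n → E2, ∏ i, bd (Q i) ∂P) = (∫ q, bd q ∂κ) ^ n := by
    have := integral_fintype_prod_eq_pow (ι := Fin n) (μ := κ) bd
    simpa using this
  have e2 : ∀ i : Fin n, (∫ Q : Fin n → E2, ind (Q i) ∂P) = κ.real nearᶜ := by
    intro i
    have h2 := (measurePreserving_eval (fun _ : Fin n => κ) i)
    have h3 : (∫ Q : Fin n → E2, ind (Q i) ∂P) = ∫ q, ind q ∂κ := by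
      rw [← h2.map_eq, integral_map h2.measurable.aemeasurable]
      rw [h2.map_eq]
      exact hind.aestronglyMeasurable
    rw [h3]
    simp only [ind]
    rw [integral_indicator hnear.compl]
    simp
  have e3 : (∫ Q : Fin n → E2, ∑ i, ind (Q i) ∂P) = n * κ.real nearᶜ := by
    rw [integral_finsetSum _ fun i _ => i2 i, Finset.sum_congr rfl fun i _ => e2 i]
    simp
  show (∫ Q : Fin n → E2, (A * ∏ i, bd (Q i) + 2 ^ n * A * ∑ i, ind (Q i)) ∂P) = _
  rw [integral_add i1 i3, integral_const_mul, integral_const_mul, e1, e3]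
  ring

end Pool.Agent.BM

end

section

/-! The number of near net points. -/

set_option autoImplicit false

open MeasureTheory Complex

namespace Pool.Agent.BM

theorem near_count (σ : Measure E2) (c C : ℝ) (hσ : Good σ c C) :
    ∃ C1 : ℝ, 0 < C1 ∧ ∀ M η R : ℝ, 1 ≤ M → 0 < η → η ≤ 1 → 1 ≤ R →
      ∀ (n : ℕ) (p : Fin n → E2), (∀ α, p α ∈ S) →
        (∀ α β, α ≠ β → η ^ 2 / M ≤ dl (p α) (p β)) →
        ∀ α, (Set.ncard {β : Fin n | dl (p α) (p β) < R ^ 2 / M} : ℝ) ≤ C1 * (R / η) ^ 4 := by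
  classical
  have hcpos := hσ.cpos
  have hCpos := hσ.Cpos
  refine ⟨16384 * C / c, by positivity, ?_⟩
  intro M η R hM hη hη1 hR n p hpS hps α
  have hM0 : 0 < M := by linarith
  have hR0 : 0 < R := by linarith
  set δ := η ^ 2 / M with hδdef
  have hδ : 0 < δ := by positivity
  have hδ1 : δ ≤ 1 := by
    rw [hδdef, div_le_one hM0]
    nlinarith
  have hδR : δ ≤ R ^ 2 / M := by
    rw [hδdef]
    gcongr
    linarith
  set s : Finset (Fin n) := Finset.univ.filter fun β => dl (p α) (p β) < R ^ 2 / M with hs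
  have h1 := net_sep_sum σ c C hσ δ hδ hδ1 s p (fun i _ => hpS i)
    (fun i _ j _ hij => hps i j hij) {q | dl q (p α) ≤ 8 * (R ^ 2 / M)} (by
      intro β hβ x hx
      obtain ⟨hxS, hxi⟩ := hx
      change dl x (p β) ≤ δ / 16 at hxi
      change dl x (p α) ≤ 8 * (R ^ 2 / M)
      have hβ' : dl (p α) (p β) < R ^ 2 / M := (Finset.mem_filter.1 hβ).2
      have hβ1 : ‖p β‖ = 1 := hpS β
      have h2 := dl_quasi x (p α) (p β) hxS (hpS α) 0 le_rfl (by simp [hβ1])
      rw [dl_comm (p β) x, dl_comm (p β) (p α)] at h2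
      linarith)
  have h2 := hσ.upper (p α) (hpS α) (8 * (R ^ 2 / M)) (by positivity)
  have h3 : (Set.ncard {β : Fin n | dl (p α) (p β) < R ^ 2 / M} : ℝ) = (s.card : ℝ) := by
    rw [Set.ncard_eq_toFinset_card']
    congr 1
    congr 1
    ext β
    simp [hs]
  rw [h3]
  have h4 : (s.card : ℝ) * (c * (δ / 16) ^ 2) ≤ C * (8 * (R ^ 2 / M)) ^ 2 := h1.trans h2
  have h5 : (16384 * C / c * (R / η) ^ 4) * (c * (δ / 16) ^ 2) = C * (8 * (R ^ 2 / M)) ^ 2 := by
    rw [hδdef]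
    field_simp
    ring
  have h6 : 0 < c * (δ / 16) ^ 2 := by positivity
  rw [← h5] at h4
  exact le_of_mul_le_mul_right h4 h6

end Pool.Agent.BM

end

section

/-! Sum over a separated net (D3). -/

set_option autoImplicit false

open MeasureTheory Complex

namespace Pool.Agent.BM

theorem ns_continuous_dl_left (p : E2) : Continuous fun q : E2 => dl q p := by
  unfold dl
  exact (continuous_const.sub (continuous_const.inner continuous_id)).norm

theorem ns_continuous_dl_right (z : E2) : Continuous fun q : E2 => dl z q := by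
  unfold dl
  exact (continuous_const.sub (continuous_id.inner continuous_const)).norm

theorem ns_meas_ball (p : E2) (r : ℝ) : MeasurableSet {q : E2 | q ∈ S ∧ dl q p ≤ r} :=
  (isClosed_S.inter (isClosed_le (ns_continuous_dl_left p) continuous_const)).measurableSet

theorem ns_real_inter (σ : Measure E2) (h : σ Sᶜ = 0) (A : Set E2) :
    σ.real {q : E2 | q ∈ S ∧ q ∈ A} = σ.real A := by
  have : σ {q : E2 | q ∈ S ∧ q ∈ A} = σ A := by
    have : {q : E2 | q ∈ S ∧ q ∈ A} = A ∩ S := by ext q; simp [and_comm]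
    rw [this]
    exact measure_inter_conull h
  rw [Measure.real, this]; rfl

/-- disjointness of the small balls around separated points -/
theorem ns_disjoint (p q : E2) (hp : p ∈ S) (hq : q ∈ S) (δ : ℝ) (hδ : 0 < δ)
    (h : δ ≤ dl p q) :
    Disjoint {x : E2 | x ∈ S ∧ dl x p ≤ δ / 16} {x : E2 | x ∈ S ∧ dl x q ≤ δ / 16} := by
  rw [Set.disjoint_left]
  rintro x ⟨hx, h1⟩ ⟨_, h2⟩
  have hx1 : ‖x‖ = 1 := hx
  have := dl_quasi p q x hp hq 0 le_rfl (by simp [hx1])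
  linarith

/-- comparison of the kernel at nearby points of the sphere -/
theorem ns_compare (M η : ℝ) (hM : 1 ≤ M) (hη : 0 < η) (hη1 : η ≤ 1 / 4) (p q z : E2)
    (hp : p ∈ S) (hq : q ∈ S) (hqp : dl q p ≤ η ^ 2 / M / 16) (hz : z ∈ Bt (1 / M)) :
    ((1 + M * dl z p) ^ 3)⁻¹ ≤ 8 * ((1 + M * dl z q) ^ 3)⁻¹ := by
  have hM0 : 0 < M := by linarith
  have hz' : ‖z‖ ^ 2 ≤ 1 + 1 / M := le_of_lt hz
  have h1 := inner_sub_inner_le p q z hp hq (1 / M) hz'
  have hX0 := dl_nonneg z p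
  have hY0 := dl_nonneg z q
  have hpq0 := dl_nonneg p q
  set X := dl z p with hX
  set Y := dl z q with hY
  set d := dl p q with hd
  have hd' : d ≤ η ^ 2 / M / 16 := by rw [hd, dl_comm]; exact hqp
  have hMd : M * d ≤ 1 / 256 := by
    have : M * d ≤ M * (η ^ 2 / M / 16) := mul_le_mul_of_nonneg_left hd' hM0.le
    have h2 : M * (η ^ 2 / M / 16) = η ^ 2 / 16 := by field_simp
    rw [h2] at this
    nlinarith
  have hzn : ‖z‖ ≤ 2 := by
    have : 1 / M ≤ 1 := by rw [div_le_one hM0]; exact hM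
    nlinarith [norm_nonneg z]
  have h3 : Y ≤ X + ‖(inner ℂ p z : ℂ) - inner ℂ q z‖ := by
    have : (1 : ℂ) - inner ℂ q z = (1 - inner ℂ p z) + (inner ℂ p z - inner ℂ q z) := by ring
    rw [hY, hX]
    unfold dl
    rw [this]
    exact norm_add_le _ _
  have h4 : M * (Real.sqrt (1 / M + 2 * X) * Real.sqrt (2 * d)) ≤ (1 + M * X) / 2 := by
    have hsq : (Real.sqrt (1 / M + 2 * X) * Real.sqrt (2 * d)) ^ 2 =
        (1 / M + 2 * X) * (2 * d) := by
      rw [mul_pow, Real.sq_sqrt (by positivity), Real.sq_sqrt (by positivity)]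
    set w := Real.sqrt (1 / M + 2 * X) * Real.sqrt (2 * d) with hw
    have hw0 : 0 ≤ w := by positivity
    have h5 : (M * w) ^ 2 = (1 + 2 * (M * X)) * (2 * (M * d)) := by
      rw [mul_pow, hsq]
      field_simp
    have hMX : 0 ≤ M * X := by positivity
    have h6 : (M * w) ^ 2 ≤ ((1 + M * X) / 2) ^ 2 := by
      rw [h5]
      have : 0 ≤ M * d := by positivity
      nlinarith
    exact (pow_le_pow_iff_left₀ (by positivity) (by positivity) two_ne_zero).1 h6
  have h7 : M * Y ≤ M * X + (2 * (M * d) + (1 + M * X) / 2) := by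
    have h8 : M * Y ≤ M * (X + (‖z‖ * d + Real.sqrt (1 / M + 2 * X) * Real.sqrt (2 * d))) := by
      apply mul_le_mul_of_nonneg_left _ hM0.le
      linarith
    have h9 : ‖z‖ * d ≤ 2 * d := by gcongr
    have h10 : M * (‖z‖ * d) ≤ M * (2 * d) := mul_le_mul_of_nonneg_left h9 hM0.le
    nlinarith
  have hMX : 0 ≤ M * X := by positivity
  have hMY : 0 ≤ M * Y := by positivity
  have h11 : 1 + M * Y ≤ 2 * (1 + M * X) := by linarith
  have h12 : (1 + M * Y) ^ 3 ≤ 8 * (1 + M * X) ^ 3 := by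
    calc (1 + M * Y) ^ 3 ≤ (2 * (1 + M * X)) ^ 3 := by gcongr
      _ = 8 * (1 + M * X) ^ 3 := by ring
  rw [inv_eq_one_div, inv_eq_one_div, ← mul_div_assoc, mul_one, div_le_div_iff₀ (by positivity)
    (by positivity)]
  linarith

theorem net_sum_aux (σ : Measure E2) (c C : ℝ) (hσ : Good σ c C)
    (hB : ∃ CB : ℝ, 0 < CB ∧ ∀ M : ℝ, 1 ≤ M → ∀ z ∈ Bt (1 / M),
      ∫ p, ((1 + M * dl z p) ^ 3)⁻¹ ∂σ ≤ CB / M ^ 2) :
    ∃ C2 : ℝ, 0 < C2 ∧ ∀ M η : ℝ, 1 ≤ M → 0 < η → η ≤ 1 / 4 →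
      ∀ (n : ℕ) (p : Fin n → E2), (∀ α, p α ∈ S) →
        (∀ α β, α ≠ β → η ^ 2 / M ≤ dl (p α) (p β)) →
        ∀ z ∈ Bt (1 / M), ∑ α, ((1 + M * dl z (p α)) ^ 3)⁻¹ ≤ C2 / η ^ 4 := by
  obtain ⟨CB, hCB, hB⟩ := hB
  have hc := hσ.cpos
  have := hσ.prob
  refine ⟨2048 * CB / c, by positivity, ?_⟩
  intro M η hM hη hη1 n p hp hsep z hz
  have hM0 : 0 < M := by linarith
  set δ : ℝ := η ^ 2 / M with hδdef
  have hδ : 0 < δ := by positivity
  have hδ1 : δ ≤ 1 := by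
    rw [hδdef, div_le_one hM0]
    nlinarith
  set f : E2 → ℝ := fun q => ((1 + M * dl z q) ^ 3)⁻¹ with hf
  have hf0 : ∀ q, 0 ≤ f q := by
    intro q
    have := dl_nonneg z q
    simp only [hf]; positivity
  have hfint : Integrable f σ := by
    refine Integrable.of_bound (C := 1) ?_ ?_
    · have : Continuous f := by
        simp only [hf]
        refine Continuous.inv₀ ?_ ?_
        · exact (continuous_const.add (continuous_const.mul (ns_continuous_dl_right z))).pow 3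
        · intro q
          have := dl_nonneg z q
          positivity
      exact this.aestronglyMeasurable
    · refine Filter.Eventually.of_forall fun q => ?_
      rw [Real.norm_of_nonneg (hf0 q)]
      have := dl_nonneg z q
      have h1 : 1 ≤ (1 + M * dl z q) ^ 3 := by
        apply one_le_pow₀
        have : 0 ≤ M * dl z q := by positivity
        linarith
      simp only [hf]
      exact inv_le_one_of_one_le₀ h1
  set B : Fin n → Set E2 := fun α => {q | q ∈ S ∧ dl q (p α) ≤ δ / 16} with hBdef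
  have hBm : ∀ α, MeasurableSet (B α) := fun α => ns_meas_ball _ _
  have hBd : Pairwise (Function.onFun Disjoint B) := by
    intro α β hab
    exact ns_disjoint (p α) (p β) (hp α) (hp β) δ hδ (hsep α β hab)
  have hlow : ∀ α, c * (δ / 16) ^ 2 ≤ σ.real (B α) := by
    intro α
    have h1 := hσ.lower (p α) (hp α) (δ / 16) (by positivity) (by linarith)
    have h2 := ns_real_inter σ hσ.supp {q | dl q (p α) ≤ δ / 16}
    have h3 : σ.real (B α) = σ.real {q | dl q (p α) ≤ δ / 16} := h2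
    rw [h3]
    exact h1
  have hterm : ∀ α, ((1 + M * dl z (p α)) ^ 3)⁻¹ * (c * (δ / 16) ^ 2) ≤
      8 * ∫ q in B α, f q ∂σ := by
    intro α
    have h1 : (((1 + M * dl z (p α)) ^ 3)⁻¹ / 8) * σ.real (B α) ≤ ∫ q in B α, f q ∂σ := by
      apply setIntegral_ge_of_const_le_real (hBm α) (measure_ne_top _ _) _ hfint.integrableOn
      intro q hq
      have := ns_compare M η hM hη hη1 (p α) q z (hp α) hq.1 hq.2 hz
      show ((1 + M * dl z (p α)) ^ 3)⁻¹ / 8 ≤ ((1 + M * dl z q) ^ 3)⁻¹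
      rw [div_le_iff₀ (by norm_num : (0 : ℝ) < 8)]
      exact this.trans_eq (mul_comm _ _)
    have h0 : 0 ≤ ((1 + M * dl z (p α)) ^ 3)⁻¹ := by
      have := dl_nonneg z (p α)
      positivity
    have h2 : ((1 + M * dl z (p α)) ^ 3)⁻¹ * (c * (δ / 16) ^ 2) ≤
        ((1 + M * dl z (p α)) ^ 3)⁻¹ * σ.real (B α) :=
      mul_le_mul_of_nonneg_left (hlow α) h0
    linarith
  have hsum : (∑ α, ((1 + M * dl z (p α)) ^ 3)⁻¹) * (c * (δ / 16) ^ 2) ≤ 8 * (CB / M ^ 2) := by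
    calc (∑ α, ((1 + M * dl z (p α)) ^ 3)⁻¹) * (c * (δ / 16) ^ 2)
        = ∑ α, ((1 + M * dl z (p α)) ^ 3)⁻¹ * (c * (δ / 16) ^ 2) := by rw [Finset.sum_mul]
      _ ≤ ∑ α, 8 * ∫ q in B α, f q ∂σ := Finset.sum_le_sum fun α _ => hterm α
      _ = 8 * ∫ q in ⋃ α, B α, f q ∂σ := by
          rw [← Finset.mul_sum, integral_iUnion_fintype hBm hBd (fun α => hfint.integrableOn)]
      _ ≤ 8 * ∫ q, f q ∂σ := by
          have := setIntegral_le_integral (s := ⋃ α, B α) hfint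
            (Filter.Eventually.of_forall hf0)
          linarith
      _ ≤ 8 * (CB / M ^ 2) := by
          have := hB M hM z hz
          linarith
  have hkey : c * (δ / 16) ^ 2 = c * η ^ 4 / (256 * M ^ 2) := by
    rw [hδdef]; field_simp; ring
  rw [hkey] at hsum
  have h3 : 0 < c * η ^ 4 / (256 * M ^ 2) := by positivity
  rw [← le_div_iff₀ h3] at hsum
  refine hsum.trans (le_of_eq ?_)
  field_simp
  ring

theorem net_sum (σ : Measure E2) (c C : ℝ) (hσ : Good σ c C) :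
    ∃ C2 : ℝ, 0 < C2 ∧ ∀ M η : ℝ, 1 ≤ M → 0 < η → η ≤ 1 / 4 →
      ∀ (n : ℕ) (p : Fin n → E2), (∀ α, p α ∈ S) →
        (∀ α β, α ≠ β → η ^ 2 / M ≤ dl (p α) (p β)) →
        ∀ z ∈ Bt (1 / M), ∑ α, ((1 + M * dl z (p α)) ^ 3)⁻¹ ≤ C2 / η ^ 4 :=
  net_sum_aux σ c C hσ (int_dl_bound σ c C hσ)

end Pool.Agent.BM

end

section

/-! Smoothing estimate from C1 and C2: version with the statement of C2 as a hypothesis. -/

set_option autoImplicit false

open MeasureTheory Complex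

namespace Pool.Agent.BM

theorem Smo_dif_eq (u : E2 → ℝ) (z0 : E2) (F : Matrix (Fin 2) (Fin 2) ℂ → ℂ)
    (hF1 : ∀ q ∈ S, F (kq q) = (u (act z0 q) : ℂ)) :
    ∀ (qs : List E2), (∀ q ∈ qs, q ∈ S) → ∀ p ∈ S,
      ((dif u qs (act z0 p) : ℝ) : ℂ) = Dm F qs (kq p) := by
  intro qs
  induction qs with
  | nil =>
    intro _ p hp
    simp only [dif, Dm]
    exact (hF1 p hp).symm
  | cons q qs ih =>
    intro hqs p hp
    have hq : q ∈ S := hqs q (by simp)
    have hqs' : ∀ q ∈ qs, q ∈ S := fun r hr => hqs r (by simp [hr])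
    simp only [dif, Dm]
    rw [act_assoc, kq_mul]
    push_cast
    rw [ih hqs' p hp, ih hqs' (act p q) (act_mem_S hp hq)]

theorem Smo_cont : Continuous (fun q : E2 => Real.sqrt ‖1 - q 0‖) := by
  have := continuous_coord 0
  fun_prop

theorem smoothing_aux (κ : Measure E2) (n : ℕ)
    (ρ x A : ℝ) (hρ : 0 < ρ) (hx : x = 16 * n ^ 2 * ρ ^ 2)
    (hx' : x ≤ 1 / 8) (hA : 0 ≤ A) (u : E2 → ℝ)
    (z0 : E2)
    (F : Matrix (Fin 2) (Fin 2) ℂ → ℂ)
    (hF1 : ∀ q ∈ S, F (kq q) = (u (act z0 q) : ℂ))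
    (hF2 : ∀ y ∈ KK x, ‖F y‖ ≤ A)
    (hF3 : ∀ y0 y1 : Matrix (Fin 2) (Fin 2) ℂ, ∀ t : ℂ, y0 + t • y1 ∈ KK x →
      DifferentiableAt ℂ (fun s : ℂ => F (y0 + s • y1)) t)
    (hiter : ∀ (bd : E2 → ℝ), Measurable bd → (∀ q, 0 ≤ bd q) →
      ∀ (B : ℝ), (∀ q ∈ S, bd q ≤ B) → ∀ (near : Set E2), MeasurableSet near →
      (∀ Q : Fin n → E2, (∀ i, Q i ∈ S) → (∀ i, Q i ∈ near) →
        |dif u (List.ofFn Q) z0| ≤ A * ∏ i, bd (Q i)) →
      |((Dop κ)^[n] u) z0| ≤ A * ((∫ q, bd q ∂κ) ^ n + n * 2 ^ n * κ.real nearᶜ)) :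
    |((Dop κ)^[n] u) z0| ≤ A * ((∫ q, 2 * Real.sqrt ‖1 - q 0‖ / ρ ∂κ) ^ n +
      n * 2 ^ n * κ.real {q | ρ < Real.sqrt ‖1 - q 0‖}) := by
  have hc := Smo_cont
  have hcompl : {q : E2 | Real.sqrt ‖1 - q 0‖ ≤ ρ}ᶜ = {q : E2 | ρ < Real.sqrt ‖1 - q 0‖} := by
    ext q
    simp
  have key := hiter (fun q => 2 * Real.sqrt ‖1 - q 0‖ / ρ) (by fun_prop)
    (fun q => by positivity) (2 * Real.sqrt 2 / ρ) ?_ {q : E2 | Real.sqrt ‖1 - q 0‖ ≤ ρ}
    (measurableSet_le hc.measurable measurable_const) ?_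
  · rw [hcompl] at key
    exact key
  · intro q hq
    have h1 : ‖1 - q 0‖ ≤ 2 := by
      have h0 : ‖q 0‖ ≤ 1 := by
        have h2 := norm_sq_eq q
        have h3 : ‖q‖ = 1 := hq
        rw [h3] at h2
        nlinarith [norm_nonneg (q 0), norm_nonneg (q 1), sq_nonneg (‖q 1‖)]
      calc ‖1 - q 0‖ ≤ ‖(1 : ℂ)‖ + ‖q 0‖ := norm_sub_le _ _
        _ ≤ 2 := by simp; linarith
    have h4 : Real.sqrt ‖1 - q 0‖ ≤ Real.sqrt 2 := Real.sqrt_le_sqrt h1
    gcongr
  · intro Q hQS hQn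
    have h1 := Dm_bound n ρ x A hρ hx hx' hA F hF2 hF3 (List.ofFn Q) (by simp)
      (by
        intro q hq
        rw [List.mem_ofFn] at hq
        obtain ⟨i, rfl⟩ := hq
        exact ⟨hQS i, hQn i⟩)
    have h2 := Smo_dif_eq u z0 F hF1 (List.ofFn Q) (by
        intro q hq
        rw [List.mem_ofFn] at hq
        obtain ⟨i, rfl⟩ := hq
        exact hQS i) e1 e1_mem_S
    rw [act_e1, kq_e1] at h2
    rw [← h2, Complex.norm_real, Real.norm_eq_abs] at h1
    have h3 : ((List.ofFn Q).map (fun q => 2 * Real.sqrt ‖1 - q 0‖ / ρ)).prod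
        = ∏ i, (2 * Real.sqrt ‖1 - (Q i) 0‖ / ρ) := by
      rw [List.map_ofFn, List.prod_ofFn]
      rfl
    rw [h3] at h1
    exact h1

end Pool.Agent.BM

end

section

/-! Diagonal sum versus the integral operator. -/

set_option autoImplicit false

open MeasureTheory Complex

namespace Pool.Agent.BM

theorem diag_measurable_pk (K : ℕ) (M : ℝ) (z : E2) : Measurable fun p => pk K M p z := by
  unfold pk
  have : Continuous (fun p : E2 => (1 + (M : ℂ) * (1 - inner ℂ p z)) ^ K) := by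
    have h : Continuous (fun p : E2 => (inner ℂ p z : ℂ)) := continuous_id.inner continuous_const
    exact (continuous_const.add (continuous_const.mul (continuous_const.sub h))).pow K
  exact this.measurable.inv

theorem diag_pk_sq_le {K : ℕ} (hK : 2 ≤ K) {M : ℝ} (hM : 1 ≤ M) {p z : E2} (hp : p ∈ S)
    (hz : z ∈ Bt (1 / M)) : ‖pk K M p z‖ ^ 2 ≤ 36 ^ K * ((1 + M * dl z p) ^ 3)⁻¹ := by
  have h1 := pk_norm_le (K := K) hM hp hz
  have h0 : 0 ≤ dl z p := dl_nonneg z p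
  have hx : 1 ≤ 1 + M * dl z p := by
    have : 0 ≤ M * dl z p := mul_nonneg (by linarith) h0
    linarith
  calc ‖pk K M p z‖ ^ 2 ≤ (6 ^ K * ((1 + M * dl z p) ^ K)⁻¹) ^ 2 := by gcongr
    _ = 36 ^ K * ((1 + M * dl z p) ^ (2 * K))⁻¹ := by
      have e1 : ((6 : ℝ) ^ K) ^ 2 = 36 ^ K := by
        rw [← pow_mul, mul_comm K 2, pow_mul]
        norm_num
      have e2 : (((1 + M * dl z p) ^ K)⁻¹) ^ 2 = ((1 + M * dl z p) ^ (2 * K))⁻¹ := by
        rw [inv_pow, ← pow_mul, mul_comm K 2]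
      rw [mul_pow, e1, e2]
    _ ≤ 36 ^ K * ((1 + M * dl z p) ^ 3)⁻¹ := by
      have h3 : (1 + M * dl z p) ^ 3 ≤ (1 + M * dl z p) ^ (2 * K) :=
        pow_le_pow_right₀ hx (by omega)
      gcongr

theorem diag_est_aux (σ : Measure E2) (c C : ℝ) (hσ : Good σ c C) (K : ℕ) (hK : 2 ≤ K)
    (hTop : ∀ M : ℝ, 1 ≤ M → ∀ E : E2 → ℝ, Measurable E → ∀ z ∈ S,
      Top (kap σ K M) E z = (CM σ K M)⁻¹ * ∫ p, E p * ‖pk K M p z‖ ^ 2 ∂σ)
    (hCM : ∃ c1 C1 : ℝ, 0 < c1 ∧ 0 < C1 ∧ ∀ M : ℝ, 1 ≤ M →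
      c1 / M ^ 2 ≤ CM σ K M ∧ CM σ K M ≤ C1 / M ^ 2)
    (hpk : ∃ C3 : ℝ, 0 < C3 ∧ ∃ η0 : ℝ, 0 < η0 ∧ η0 ≤ 1 / 4 ∧
      ∀ M η : ℝ, 1 ≤ M → 0 < η → η ≤ η0 → ∀ p ∈ S, ∀ q ∈ S, dl p q ≤ η ^ 2 / M →
      ∀ z ∈ Bt (1 / M),
        |‖pk K M p z‖ ^ 2 - ‖pk K M q z‖ ^ 2| ≤ C3 * η * ‖pk K M p z‖ ^ 2)
    (hint : ∃ CB : ℝ, 0 < CB ∧ ∀ M : ℝ, 1 ≤ M → ∀ z ∈ Bt (1 / M),
      ∫ p, ((1 + M * dl z p) ^ 3)⁻¹ ∂σ ≤ CB / M ^ 2) :
    ∃ C4 : ℝ, 0 < C4 ∧ ∃ η0 : ℝ, 0 < η0 ∧ η0 ≤ 1 / 4 ∧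
    ∀ M η : ℝ, 1 ≤ M → 0 < η → η ≤ η0 →
      ∀ (n : ℕ) (p : Fin n → E2) (Q : Fin n → Set E2), (∀ α, p α ∈ S) →
        (∀ α, MeasurableSet (Q α)) → (∀ α, Q α ⊆ {q | q ∈ S ∧ dl q (p α) < η ^ 2 / M}) →
        (Pairwise fun α β => Disjoint (Q α) (Q β)) → (⋃ α, Q α) = S →
        ∀ (E : E2 → ℝ) (a : ℝ), Measurable E → (∀ z ∈ S, 0 ≤ E z ∧ E z ≤ a) →
          (∀ α, 0 ≤ (CM σ K M)⁻¹ * ∫ q in Q α, E q ∂σ) ∧
          (∀ α, (CM σ K M)⁻¹ * ∫ q in Q α, E q ∂σ ≤ C4 * a * η ^ 4) ∧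
          (∀ z ∈ S, |∑ α, ((CM σ K M)⁻¹ * ∫ q in Q α, E q ∂σ) * ‖pk K M (p α) z‖ ^ 2 -
            Top (kap σ K M) E z| ≤ C4 * η * a) ∧
          (∀ z ∈ Bt (1 / M), ∑ α, ((CM σ K M)⁻¹ * ∫ q in Q α, E q ∂σ) *
            ‖pk K M (p α) z‖ ^ 2 ≤ C4 * a) := by
  have hprob := hσ.prob
  obtain ⟨c1, C1, hc1, hC1, hCMb⟩ := hCM
  obtain ⟨C3, hC3, η0, hη0, hη04, hcmp⟩ := hpk
  obtain ⟨CB, hCB, hint⟩ := hint
  obtain ⟨C5, hC5⟩ : ∃ C5 : ℝ, C5 = 36 ^ K * CB / c1 := ⟨_, rfl⟩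
  have hC5p : 0 < C5 := by rw [hC5]; positivity
  have hCpos := hσ.Cpos
  refine ⟨C / c1 + (1 + C3) * C5, by positivity, η0, hη0, hη04, ?_⟩
  intro M η hM hη hηη n p Q hp hQm hQ hdisj hunion E a hE hEa
  have hM0 : (0 : ℝ) < M := by linarith
  obtain ⟨hCM1, hCM2⟩ := hCMb M hM
  have hCMpos : 0 < CM σ K M := lt_of_lt_of_le (by positivity) hCM1
  obtain ⟨κ, hκ⟩ : ∃ κ, κ = (CM σ K M)⁻¹ := ⟨_, rfl⟩
  rw [← hκ]
  have hκ0 : 0 < κ := by rw [hκ]; positivity
  have hκle : κ ≤ M ^ 2 / c1 := by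
    rw [hκ]
    calc (CM σ K M)⁻¹ ≤ (c1 / M ^ 2)⁻¹ := by gcongr
      _ = M ^ 2 / c1 := by rw [inv_div]
  have hQS : ∀ α, Q α ⊆ S := fun α q hq => (hQ α hq).1
  have haeS : ∀ᵐ q ∂σ, q ∈ S := by
    rw [ae_iff]
    exact hσ.supp
  have ha0 : 0 ≤ a := by
    obtain ⟨h1, h2⟩ := hEa e1 e1_mem_S
    linarith
  -- integrability
  have hEint : Integrable E σ := by
    refine Integrable.of_bound hE.aestronglyMeasurable a ?_
    filter_upwards [haeS] with q hq
    rw [Real.norm_of_nonneg (hEa q hq).1]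
    exact (hEa q hq).2
  have hwint : ∀ z ∈ Bt (1 / M), Integrable (fun q => ‖pk K M q z‖ ^ 2) σ := by
    intro z hz
    refine Integrable.of_bound ((diag_measurable_pk K M z).norm.pow_const 2).aestronglyMeasurable
      (36 ^ K) ?_
    filter_upwards [haeS] with q hq
    rw [Real.norm_of_nonneg (by positivity)]
    refine (diag_pk_sq_le hK hM hq hz).trans ?_
    have h0 : 0 ≤ dl z q := dl_nonneg z q
    have hx : 1 ≤ 1 + M * dl z q := by
      have : 0 ≤ M * dl z q := mul_nonneg (by linarith) h0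
      linarith
    have : ((1 + M * dl z q) ^ 3)⁻¹ ≤ 1 := inv_le_one_of_one_le₀ (one_le_pow₀ hx)
    calc (36 : ℝ) ^ K * ((1 + M * dl z q) ^ 3)⁻¹ ≤ 36 ^ K * 1 := by gcongr
      _ = 36 ^ K := mul_one _
  have hfint : ∀ z ∈ Bt (1 / M), Integrable (fun q => E q * ‖pk K M q z‖ ^ 2) σ := by
    intro z hz
    refine ((hwint z hz).const_mul a).mono' (hE.mul
      ((diag_measurable_pk K M z).norm.pow_const 2)).aestronglyMeasurable ?_
    filter_upwards [haeS] with q hq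
    rw [Real.norm_of_nonneg (mul_nonneg (hEa q hq).1 (by positivity))]
    exact mul_le_mul_of_nonneg_right (hEa q hq).2 (by positivity)
  -- sum over the cells
  have hsum : ∀ f : E2 → ℝ, Integrable f σ → ∑ α, ∫ q in Q α, f q ∂σ = ∫ q, f q ∂σ := by
    intro f hf
    have h1 := integral_biUnion_finset (μ := σ) (f := f) (Finset.univ : Finset (Fin n)) (s := Q)
      (fun α _ => hQm α) (fun α _ β _ h => hdisj h) (fun α _ => hf.integrableOn)
    rw [← h1]
    have h2 : (⋃ α ∈ (Finset.univ : Finset (Fin n)), Q α) = S := by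
      rw [← hunion]
      simp
    rw [h2]
    exact setIntegral_eq_integral_of_ae_compl_eq_zero (by
      filter_upwards [haeS] with q hq hq'
      exact absurd hq hq')
  -- total weight
  have hI : ∀ z ∈ Bt (1 / M), κ * ∫ q, ‖pk K M q z‖ ^ 2 ∂σ ≤ C5 := by
    intro z hz
    have hm3 : Measurable fun q => ((1 + M * dl z q) ^ 3)⁻¹ := by
      have : Continuous fun q : E2 => (1 + M * dl z q) ^ 3 :=
        (continuous_const.add (continuous_const.mul
          (IntDl_cont z))).pow 3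
      exact this.measurable.inv
    have h3int : Integrable (fun q => ((1 + M * dl z q) ^ 3)⁻¹) σ := by
      refine Integrable.of_bound hm3.aestronglyMeasurable 1 (Filter.Eventually.of_forall ?_)
      intro q
      have h0 : 0 ≤ dl z q := dl_nonneg z q
      have hx : 1 ≤ 1 + M * dl z q := by
        have : 0 ≤ M * dl z q := mul_nonneg (by linarith) h0
        linarith
      rw [Real.norm_of_nonneg (by positivity)]
      exact inv_le_one_of_one_le₀ (one_le_pow₀ hx)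
    have h1 : ∫ q, ‖pk K M q z‖ ^ 2 ∂σ ≤ ∫ q, 36 ^ K * ((1 + M * dl z q) ^ 3)⁻¹ ∂σ := by
      refine integral_mono_ae (hwint z hz) (h3int.const_mul _) ?_
      filter_upwards [haeS] with q hq
      exact diag_pk_sq_le hK hM hq hz
    rw [integral_const_mul] at h1
    have h2 := hint M hM z hz
    have h4 : 0 ≤ ∫ q, ‖pk K M q z‖ ^ 2 ∂σ := integral_nonneg fun q => by positivity
    calc κ * ∫ q, ‖pk K M q z‖ ^ 2 ∂σ ≤ M ^ 2 / c1 * (36 ^ K * (CB / M ^ 2)) := by
          refine mul_le_mul hκle (h1.trans (by gcongr)) h4 (by positivity)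
      _ = C5 := by rw [hC5]; field_simp
  have hEI : ∀ z ∈ Bt (1 / M), κ * ∫ q, E q * ‖pk K M q z‖ ^ 2 ∂σ ≤ a * C5 := by
    intro z hz
    have h1 : ∫ q, E q * ‖pk K M q z‖ ^ 2 ∂σ ≤ ∫ q, a * ‖pk K M q z‖ ^ 2 ∂σ := by
      refine integral_mono_ae (hfint z hz) ((hwint z hz).const_mul _) ?_
      filter_upwards [haeS] with q hq
      exact mul_le_mul_of_nonneg_right (hEa q hq).2 (by positivity)
    rw [integral_const_mul] at h1
    calc κ * ∫ q, E q * ‖pk K M q z‖ ^ 2 ∂σ ≤ κ * (a * ∫ q, ‖pk K M q z‖ ^ 2 ∂σ) := by gcongr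
      _ = a * (κ * ∫ q, ‖pk K M q z‖ ^ 2 ∂σ) := by ring
      _ ≤ a * C5 := mul_le_mul_of_nonneg_left (hI z hz) ha0
  -- comparison
  have hcell : ∀ z ∈ Bt (1 / M), ∀ α, ∀ q ∈ Q α,
      |E q * ‖pk K M (p α) z‖ ^ 2 - E q * ‖pk K M q z‖ ^ 2| ≤
        C3 * η * (E q * ‖pk K M q z‖ ^ 2) := by
    intro z hz α q hq
    obtain ⟨hqS, hqd⟩ := hQ α hq
    have h1 := hcmp M η hM hη hηη q hqS (p α) (hp α) hqd.le z hz
    rw [← mul_sub, abs_mul, abs_of_nonneg (hEa q hqS).1, abs_sub_comm]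
    calc E q * |‖pk K M q z‖ ^ 2 - ‖pk K M (p α) z‖ ^ 2|
        ≤ E q * (C3 * η * ‖pk K M q z‖ ^ 2) := mul_le_mul_of_nonneg_left h1 (hEa q hqS).1
      _ = _ := by ring
  have hdiff : ∀ z ∈ Bt (1 / M),
      |∑ α, (κ * ∫ q in Q α, E q ∂σ) * ‖pk K M (p α) z‖ ^ 2 -
        κ * ∫ q, E q * ‖pk K M q z‖ ^ 2 ∂σ| ≤ C3 * η * (a * C5) := by
    intro z hz
    rw [← hsum _ (hfint z hz), Finset.mul_sum, ← Finset.sum_sub_distrib]
    calc |∑ α, ((κ * ∫ q in Q α, E q ∂σ) * ‖pk K M (p α) z‖ ^ 2 -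
          κ * ∫ q in Q α, E q * ‖pk K M q z‖ ^ 2 ∂σ)|
        ≤ ∑ α, |(κ * ∫ q in Q α, E q ∂σ) * ‖pk K M (p α) z‖ ^ 2 -
          κ * ∫ q in Q α, E q * ‖pk K M q z‖ ^ 2 ∂σ| := Finset.abs_sum_le_sum_abs _ _
      _ ≤ ∑ α, κ * ∫ q in Q α, C3 * η * (E q * ‖pk K M q z‖ ^ 2) ∂σ := by
          refine Finset.sum_le_sum fun α _ => ?_
          have e1 : (κ * ∫ q in Q α, E q ∂σ) * ‖pk K M (p α) z‖ ^ 2 -
              κ * ∫ q in Q α, E q * ‖pk K M q z‖ ^ 2 ∂σ =
              κ * ∫ q in Q α, (E q * ‖pk K M (p α) z‖ ^ 2 - E q * ‖pk K M q z‖ ^ 2) ∂σ := by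
            rw [integral_sub (hEint.integrableOn.mul_const _) (hfint z hz).integrableOn,
              integral_mul_const]
            ring
          rw [e1, abs_mul, abs_of_pos hκ0]
          gcongr
          refine (abs_integral_le_integral_abs).trans ?_
          refine setIntegral_mono_on ?_ ((hfint z hz).integrableOn.const_mul _) (hQm α)
            (hcell z hz α)
          exact ((hEint.integrableOn.mul_const _).sub (hfint z hz).integrableOn).abs
      _ = C3 * η * (κ * ∑ α, ∫ q in Q α, E q * ‖pk K M q z‖ ^ 2 ∂σ) := by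
          rw [Finset.mul_sum, Finset.mul_sum]
          refine Finset.sum_congr rfl fun α _ => ?_
          rw [integral_const_mul]
          ring
      _ ≤ C3 * η * (a * C5) := by
          rw [hsum _ (hfint z hz)]
          exact mul_le_mul_of_nonneg_left (hEI z hz) (by positivity)
  have hη1 : η ≤ 1 := by linarith
  refine ⟨fun α => ?_, fun α => ?_, fun z hz => ?_, fun z hz => ?_⟩
  · exact mul_nonneg hκ0.le (setIntegral_nonneg (hQm α) fun q hq => (hEa q (hQS α hq)).1)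
  · -- size of the coefficients
    have h1 : ∫ q in Q α, E q ∂σ ≤ a * σ.real (Q α) := by
      calc ∫ q in Q α, E q ∂σ ≤ ∫ q in Q α, a ∂σ := by
            refine setIntegral_mono_on hEint.integrableOn (integrableOn_const (by finiteness))
              (hQm α) fun q hq => (hEa q (hQS α hq)).2
        _ = a * σ.real (Q α) := by
            rw [setIntegral_const, smul_eq_mul, mul_comm]
    have h2 : σ.real (Q α) ≤ C * (η ^ 2 / M) ^ 2 := by
      refine le_trans ?_ (hσ.upper (p α) (hp α) (η ^ 2 / M) (by positivity))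
      exact measureReal_mono (fun q hq => (hQ α hq).2.le) (by finiteness)
    have h3 : ∫ q in Q α, E q ∂σ ≤ a * (C * (η ^ 2 / M) ^ 2) := by
      refine h1.trans (mul_le_mul_of_nonneg_left h2 ha0)
    have h4 : 0 ≤ ∫ q in Q α, E q ∂σ :=
      setIntegral_nonneg (hQm α) fun q hq => (hEa q (hQS α hq)).1
    calc κ * ∫ q in Q α, E q ∂σ ≤ M ^ 2 / c1 * (a * (C * (η ^ 2 / M) ^ 2)) :=
          mul_le_mul hκle h3 h4 (by positivity)
      _ = C / c1 * a * η ^ 4 := by field_simp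
      _ ≤ (C / c1 + (1 + C3) * C5) * a * η ^ 4 := by
          have : 0 ≤ (1 + C3) * C5 := by positivity
          gcongr
          linarith
  · have hzB : z ∈ Bt (1 / M) := S_subset_Bt (by positivity) hz
    rw [hTop M hM E hE z hz, ← hκ]
    refine (hdiff z hzB).trans ?_
    have h1 : 0 ≤ C / c1 * η * a := by positivity
    have h2 : 0 ≤ C5 * η * a := by positivity
    nlinarith
  · have h1 := hdiff z hz
    have h2 := hEI z hz
    have h3 := (abs_le.1 h1).2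
    have h4 : C3 * η * (a * C5) ≤ C3 * (a * C5) := by
      have : 0 ≤ C3 * (a * C5) := by positivity
      nlinarith
    have h5 : 0 ≤ C / c1 * a := by positivity
    nlinarith

theorem diag_est (σ : Measure E2) (c C : ℝ) (hσ : Good σ c C) (K : ℕ) (hK : 2 ≤ K) :
    ∃ C4 : ℝ, 0 < C4 ∧ ∃ η0 : ℝ, 0 < η0 ∧ η0 ≤ 1 / 4 ∧
    ∀ M η : ℝ, 1 ≤ M → 0 < η → η ≤ η0 →
      ∀ (n : ℕ) (p : Fin n → E2) (Q : Fin n → Set E2), (∀ α, p α ∈ S) →
        (∀ α, MeasurableSet (Q α)) → (∀ α, Q α ⊆ {q | q ∈ S ∧ dl q (p α) < η ^ 2 / M}) →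
        (Pairwise fun α β => Disjoint (Q α) (Q β)) → (⋃ α, Q α) = S →
        ∀ (E : E2 → ℝ) (a : ℝ), Measurable E → (∀ z ∈ S, 0 ≤ E z ∧ E z ≤ a) →
          (∀ α, 0 ≤ (CM σ K M)⁻¹ * ∫ q in Q α, E q ∂σ) ∧
          (∀ α, (CM σ K M)⁻¹ * ∫ q in Q α, E q ∂σ ≤ C4 * a * η ^ 4) ∧
          (∀ z ∈ S, |∑ α, ((CM σ K M)⁻¹ * ∫ q in Q α, E q ∂σ) * ‖pk K M (p α) z‖ ^ 2 -
            Top (kap σ K M) E z| ≤ C4 * η * a) ∧
          (∀ z ∈ Bt (1 / M), ∑ α, ((CM σ K M)⁻¹ * ∫ q in Q α, E q ∂σ) *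
            ‖pk K M (p α) z‖ ^ 2 ≤ C4 * a) :=
  diag_est_aux σ c C hσ K hK (fun M hM E hE z hz => Top_kap σ c C hσ K M hM E hE z hz)
    (CM_bounds σ c C hσ K hK) (pk_compare K) (int_dl_bound σ c C hσ)

end Pool.Agent.BM

end

section

/-! Moments and tails of kap. -/

set_option autoImplicit false

open MeasureTheory Complex

namespace Pool.Agent.BM

theorem kap_moments (σ : Measure E2) (c C : ℝ) (hσ : Good σ c C) (K J : ℕ) (hK : 2 ≤ K)
    (hKJ : J + 3 ≤ 2 * K) :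
    ∃ C1 : ℝ, 0 < C1 ∧ ∀ M : ℝ, 1 ≤ M →
      (∫ q, Real.sqrt ‖1 - q 0‖ ∂(kap σ K M) ≤ C1 / Real.sqrt M) ∧
      ∀ ρ : ℝ, 0 < ρ →
        (kap σ K M).real {q | ρ < Real.sqrt ‖1 - q 0‖} ≤ C1 / (M * ρ ^ 2) ^ J :=
  kap_moments_aux σ c C hσ K J hK hKJ (int_dl_bound σ c C hσ)

end Pool.Agent.BM

end
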