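import Pool.Agent.Work.MP_e08233_an.Bd.B05
import Pool.Agent.Work.MP_e08233_an.Basic
import Pool.Agent.Work.MP_e08233_an.Bd.B01
import Pool.Agent.Work.MP_e08233_an.Bd.B03

/-! Bundle of small proof modules (one section per former module). -/

section

/-! Smoothing estimate from C1 and C2. -/

set_option autoImplicit false

open MeasureTheory Complex

namespace Pool.Agent.BM

theorem smoothing (κ : Measure E2) (hκ1 : IsProbabilityMeasure κ) (hκ : κ Sᶜ = 0) (n : ℕ)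
    (ρ x A : ℝ) (hρ : 0 < ρ) (hx : x = 16 * n ^ 2 * ρ ^ 2)
    (hx' : x ≤ 1 / 8) (hA : 0 ≤ A) (u : E2 → ℝ) (hu : Measurable u)
    (huA : ∀ z ∈ S, |u z| ≤ A) (z0 : E2) (hz0 : z0 ∈ S)
    (F : Matrix (Fin 2) (Fin 2) ℂ → ℂ)
    (hF1 : ∀ q ∈ S, F (kq q) = (u (act z0 q) : ℂ))
    (hF2 : ∀ y ∈ KK x, ‖F y‖ ≤ A)
    (hF3 : ∀ y0 y1 : Matrix (Fin 2) (Fin 2) ℂ, ∀ t : ℂ, y0 + t • y1 ∈ KK x →
      DifferentiableAt ℂ (fun s : ℂ => F (y0 + s • y1)) t) :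
    |((Dop κ)^[n] u) z0| ≤ A * ((∫ q, 2 * Real.sqrt ‖1 - q 0‖ / ρ ∂κ) ^ n +
      n * 2 ^ n * κ.real {q | ρ < Real.sqrt ‖1 - q 0‖}) :=
  smoothing_aux κ n ρ x A hρ hx hx' hA u z0 F hF1 hF2 hF3
    (fun bd hbd hbd0 B hbdB near hnear H =>
      iter_Dop_bound κ hκ1 hκ n A hA u hu huA z0 hz0 bd hbd hbd0 B hbdB near hnear H)

end Pool.Agent.BM

end

section

/-! The packet lemma assembled. -/

set_option autoImplicit false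

open MeasureTheory Complex

namespace Pool.Agent.BM

theorem packets_of (σ : Measure E2) (K : ℕ)
    (hnet : ∀ δ : ℝ, 0 < δ → δ ≤ 1 →
      ∃ (n : ℕ) (p : Fin n → E2) (Q : Fin n → Set E2), (∀ α, p α ∈ S) ∧
        (∀ α β, α ≠ β → δ ≤ dl (p α) (p β)) ∧ (∀ α, MeasurableSet (Q α)) ∧
        (∀ α, Q α ⊆ {q | q ∈ S ∧ dl q (p α) < δ}) ∧
        (Pairwise fun α β => Disjoint (Q α) (Q β)) ∧ (⋃ α, Q α) = S)
    (hcount : ∃ C1 : ℝ, 0 < C1 ∧ ∀ M η R : ℝ, 1 ≤ M → 0 < η → η ≤ 1 → 1 ≤ R →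
      ∀ (n : ℕ) (p : Fin n → E2), (∀ α, p α ∈ S) →
        (∀ α β, α ≠ β → η ^ 2 / M ≤ dl (p α) (p β)) →
        ∀ α, (Set.ncard {β : Fin n | dl (p α) (p β) < R ^ 2 / M} : ℝ) ≤ C1 * (R / η) ^ 4)
    (hsum : ∃ C2 : ℝ, 0 < C2 ∧ ∀ M η : ℝ, 1 ≤ M → 0 < η → η ≤ 1 / 4 →
      ∀ (n : ℕ) (p : Fin n → E2), (∀ α, p α ∈ S) →
        (∀ α β, α ≠ β → η ^ 2 / M ≤ dl (p α) (p β)) →
        ∀ z ∈ Bt (1 / M), ∑ α, ((1 + M * dl z (p α)) ^ 3)⁻¹ ≤ C2 / η ^ 4)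
    (hdiag : ∃ C4 : ℝ, 0 < C4 ∧ ∃ η0 : ℝ, 0 < η0 ∧ η0 ≤ 1 / 4 ∧
      ∀ M η : ℝ, 1 ≤ M → 0 < η → η ≤ η0 →
      ∀ (n : ℕ) (p : Fin n → E2) (Q : Fin n → Set E2), (∀ α, p α ∈ S) →
        (∀ α, MeasurableSet (Q α)) → (∀ α, Q α ⊆ {q | q ∈ S ∧ dl q (p α) < η ^ 2 / M}) →
        (Pairwise fun α β => Disjoint (Q α) (Q β)) → (⋃ α, Q α) = S →
        ∀ (E : E2 → ℝ) (a : ℝ), Measurable E → (∀ z ∈ S, 0 ≤ E z ∧ E z ≤ a) →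
          (∀ α, 0 ≤ (CM σ K M)⁻¹ * ∫ q in Q α, E q ∂σ) ∧
          (∀ α, (CM σ K M)⁻¹ * ∫ q in Q α, E q ∂σ ≤ C4 * a * η ^ 4) ∧
          (∀ z ∈ S, |∑ α, ((CM σ K M)⁻¹ * ∫ q in Q α, E q ∂σ) * ‖pk K M (p α) z‖ ^ 2 -
            Top (kap σ K M) E z| ≤ C4 * η * a) ∧
          (∀ z ∈ Bt (1 / M), ∑ α, ((CM σ K M)⁻¹ * ∫ q in Q α, E q ∂σ) *
            ‖pk K M (p α) z‖ ^ 2 ≤ C4 * a))
    (hoff : ∀ (N : ℕ) (M R B : ℝ), 1 ≤ M → 1 ≤ R → ∀ (n : ℕ)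
      (p : Fin n → E2), (∀ α, p α ∈ S) → ∀ (v : Fin n → VN N), (∀ α, ‖v α‖ = 1) →
      ∀ (cf : Fin n → ℝ), (∀ α, 0 ≤ cf α ∧ cf α ^ 2 ≤ B) →
      (∀ α β, α ≠ β → dl (p α) (p β) < R ^ 2 / M → (inner ℂ (v α) (v β) : ℂ) = 0) →
      ∀ z ∈ Bt (1 / M),
      |‖∑ α, ((cf α : ℂ) * pk K M (p α) z) • v α‖ ^ 2 - ∑ α, cf α ^ 2 * ‖pk K M (p α) z‖ ^ 2| ≤
        B * 36 ^ K * (4 / R ^ 2) ^ (K - 3) * (∑ α, ((1 + M * dl z (p α)) ^ 3)⁻¹) ^ 2) :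
    ∃ CP : ℝ, 1 ≤ CP ∧ ∃ η0 : ℝ, 0 < η0 ∧ ∀ η R : ℝ, 0 < η → η ≤ η0 → 1 ≤ R →
      ∃ K0 : ℕ, ∀ N d : ℕ, d + K0 < N → ∀ M : ℝ, 1 ≤ M →
        ∀ (E : E2 → ℝ) (a : ℝ), Measurable E → 0 < a → (∀ z ∈ S, 0 ≤ E z ∧ E z ≤ a) →
        ∀ W : E2 → Submodule ℂ (VN N), (∀ p ∈ S, Module.finrank ℂ (W p) ≤ d) →
        ∃ (n : ℕ) (p : Fin n → E2) (v : Fin n → VN N) (cf : Fin n → ℝ),
          (∀ α, p α ∈ S) ∧ (∀ α, ‖v α‖ = 1) ∧ (∀ α, v α ∈ (W (p α))ᗮ) ∧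
          (∀ α, 0 ≤ cf α ∧ cf α ^ 2 ≤ CP * a * η ^ 4) ∧
          (∀ z ∈ Bt (1 / M), ∑ α, ((1 + M * dl z (p α)) ^ 3)⁻¹ ≤ CP / η ^ 4) ∧
          (∀ z ∈ Bt (1 / M), ‖∑ α, ((cf α : ℂ) * pk K M (p α) z) • v α‖ ^ 2 ≤
            CP * a * (1 + (4 / R ^ 2) ^ (K - 3) / η ^ 4)) ∧
          (∀ z ∈ S, |‖∑ α, ((cf α : ℂ) * pk K M (p α) z) • v α‖ ^ 2 - Top (kap σ K M) E z| ≤
            CP * a * (η + (4 / R ^ 2) ^ (K - 3) / η ^ 4)) := by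
  obtain ⟨C1, hC1, hcount⟩ := hcount
  obtain ⟨C2, hC2, hsum⟩ := hsum
  obtain ⟨C4, hC4, η0, hη0, hη4, hdiag⟩ := hdiag
  have hCo : 0 < C4 * C2 ^ 2 * 36 ^ K := by positivity
  refine ⟨1 + C2 + C4 + C4 * C2 ^ 2 * 36 ^ K, by linarith, η0, hη0, ?_⟩
  set CP := 1 + C2 + C4 + C4 * C2 ^ 2 * 36 ^ K with hCP
  intro η R hη hη' hR
  refine ⟨⌈C1 * (R / η) ^ 4⌉₊, ?_⟩
  intro N d hN M hM E a hE ha hEa W hW
  have hM0 : 0 < M := by linarith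
  have hη1 : η ≤ 1 := by linarith
  have hδ0 : 0 < η ^ 2 / M := by positivity
  have hδ1 : η ^ 2 / M ≤ 1 := by
    rw [div_le_one hM0]
    have : η ^ 2 ≤ 1 := pow_le_one₀ hη.le hη1
    linarith
  obtain ⟨n, p, Q, hp, hsep, hQm, hQs, hQd, hQu⟩ := hnet (η ^ 2 / M) hδ0 hδ1
  have hcnt := hcount M η R hM hη hη1 hR n p hp hsep
  obtain ⟨v, hv1, hvW, hvo⟩ := greedy N n d ⌈C1 * (R / η) ^ 4⌉₊ hN (fun α => W (p α))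
    (fun α => hW _ (hp α)) (fun α β => dl (p α) (p β) < R ^ 2 / M) (by
      intro α
      have h1 : Set.ncard {β : Fin n | β < α ∧ dl (p β) (p α) < R ^ 2 / M} ≤
          Set.ncard {β : Fin n | dl (p α) (p β) < R ^ 2 / M} := by
        apply Set.ncard_le_ncard _ (Set.toFinite _)
        intro β hβ
        have h2 := hβ.2
        rw [dl_comm] at h2
        exact h2
      refine h1.trans ?_
      have h2 := (hcnt α).trans (Nat.le_ceil _)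
      exact_mod_cast h2)
  obtain ⟨hc0, hc4, hdS, hdB⟩ := hdiag M η hM hη hη' n p Q hp hQm hQs hQd hQu E a hE hEa
  set cc : Fin n → ℝ := fun α => (CM σ K M)⁻¹ * ∫ q in Q α, E q ∂σ with hcc
  have hcf2 : ∀ α, Real.sqrt (cc α) ^ 2 = cc α := fun α => Real.sq_sqrt (hc0 α)
  have hcfB : ∀ α, 0 ≤ Real.sqrt (cc α) ∧ Real.sqrt (cc α) ^ 2 ≤ C4 * a * η ^ 4 := by
    intro α
    rw [hcf2]
    exact ⟨Real.sqrt_nonneg _, hc4 α⟩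
  have horth : ∀ α β, α ≠ β → dl (p α) (p β) < R ^ 2 / M → (inner ℂ (v α) (v β) : ℂ) = 0 := by
    intro α β hab hlt
    rcases lt_or_gt_of_ne hab with h | h
    · exact hvo β α h hlt
    · rw [dl_comm] at hlt
      exact inner_eq_zero_symm.1 (hvo α β h hlt)
  have hsm := hsum M η hM hη (hη'.trans hη4) n p hp hsep
  have hof := hoff N M R (C4 * a * η ^ 4) hM hR n p hp v hv1 (fun α => Real.sqrt (cc α)) hcfB horth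
  have hT : 0 ≤ (4 / R ^ 2) ^ (K - 3) := by positivity
  set T := (4 / R ^ 2) ^ (K - 3) with hTdef
  have hoffb : ∀ z ∈ Bt (1 / M), |‖∑ α, ((Real.sqrt (cc α) : ℂ) * pk K M (p α) z) • v α‖ ^ 2 -
      ∑ α, cc α * ‖pk K M (p α) z‖ ^ 2| ≤ (C4 * C2 ^ 2 * 36 ^ K) * a * (T / η ^ 4) := by
    intro z hz
    have h1 := hof z hz
    simp only [hcf2] at h1
    refine h1.trans ?_
    have h2 := hsm z hz
    have h3 : 0 ≤ ∑ α, ((1 + M * dl z (p α)) ^ 3)⁻¹ := by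
      apply Finset.sum_nonneg
      intro α _
      have := mul_nonneg hM0.le (dl_nonneg z (p α))
      positivity
    calc C4 * a * η ^ 4 * 36 ^ K * T * (∑ α, ((1 + M * dl z (p α)) ^ 3)⁻¹) ^ 2
        ≤ C4 * a * η ^ 4 * 36 ^ K * T * (C2 / η ^ 4) ^ 2 := by gcongr
      _ = (C4 * C2 ^ 2 * 36 ^ K) * a * (T / η ^ 4) := by
        field_simp
  have hTη : 0 ≤ T / η ^ 4 := by positivity
  refine ⟨n, p, v, fun α => Real.sqrt (cc α), hp, hv1, hvW, ?_, ?_, ?_, ?_⟩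
  · intro α
    refine ⟨(hcfB α).1, (hcfB α).2.trans ?_⟩
    have : C4 ≤ CP := by rw [hCP]; linarith
    gcongr
  · intro z hz
    refine (hsm z hz).trans ?_
    have : C2 ≤ CP := by rw [hCP]; linarith
    gcongr
  · intro z hz
    have h1 := (abs_le.1 (hoffb z hz)).2
    have h2 := hdB z hz
    have h3 : C4 * a ≤ CP * a := by
      have : C4 ≤ CP := by rw [hCP]; linarith
      gcongr
    have h4 : (C4 * C2 ^ 2 * 36 ^ K) * a * (T / η ^ 4) ≤ CP * a * (T / η ^ 4) := by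
      have : C4 * C2 ^ 2 * 36 ^ K ≤ CP := by rw [hCP]; linarith
      gcongr
    have h5 : CP * a * (1 + T / η ^ 4) = CP * a + CP * a * (T / η ^ 4) := by ring
    rw [h5]
    linarith
  · intro z hz
    have hzB : z ∈ Bt (1 / M) := S_subset_Bt (by positivity) hz
    have h1 := hoffb z hzB
    have h2 := hdS z hz
    have h3 : C4 * η * a ≤ CP * a * η := by
      have : C4 ≤ CP := by rw [hCP]; linarith
      calc C4 * η * a = C4 * a * η := by ring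
        _ ≤ _ := by gcongr
    have h4 : (C4 * C2 ^ 2 * 36 ^ K) * a * (T / η ^ 4) ≤ CP * a * (T / η ^ 4) := by
      have : C4 * C2 ^ 2 * 36 ^ K ≤ CP := by rw [hCP]; linarith
      gcongr
    have h5 : CP * a * (η + T / η ^ 4) = CP * a * η + CP * a * (T / η ^ 4) := by ring
    rw [h5]
    refine (abs_sub_le _ (∑ α, cc α * ‖pk K M (p α) z‖ ^ 2) _).trans ?_
    linarith

theorem packets (σ : Measure E2) (c C : ℝ) (hσ : Good σ c C) (K : ℕ) (hK : 4 ≤ K) :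
    ∃ CP : ℝ, 1 ≤ CP ∧ ∃ η0 : ℝ, 0 < η0 ∧ ∀ η R : ℝ, 0 < η → η ≤ η0 → 1 ≤ R →
      ∃ K0 : ℕ, ∀ N d : ℕ, d + K0 < N → ∀ M : ℝ, 1 ≤ M →
        ∀ (E : E2 → ℝ) (a : ℝ), Measurable E → 0 < a → (∀ z ∈ S, 0 ≤ E z ∧ E z ≤ a) →
        ∀ W : E2 → Submodule ℂ (VN N), (∀ p ∈ S, Module.finrank ℂ (W p) ≤ d) →
        ∃ (n : ℕ) (p : Fin n → E2) (v : Fin n → VN N) (cf : Fin n → ℝ),
          (∀ α, p α ∈ S) ∧ (∀ α, ‖v α‖ = 1) ∧ (∀ α, v α ∈ (W (p α))ᗮ) ∧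
          (∀ α, 0 ≤ cf α ∧ cf α ^ 2 ≤ CP * a * η ^ 4) ∧
          (∀ z ∈ Bt (1 / M), ∑ α, ((1 + M * dl z (p α)) ^ 3)⁻¹ ≤ CP / η ^ 4) ∧
          (∀ z ∈ Bt (1 / M), ‖∑ α, ((cf α : ℂ) * pk K M (p α) z) • v α‖ ^ 2 ≤
            CP * a * (1 + (4 / R ^ 2) ^ (K - 3) / η ^ 4)) ∧
          (∀ z ∈ S, |‖∑ α, ((cf α : ℂ) * pk K M (p α) z) • v α‖ ^ 2 - Top (kap σ K M) E z| ≤
            CP * a * (η + (4 / R ^ 2) ^ (K - 3) / η ^ 4)) :=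
  packets_of σ K (fun δ hδ hδ1 => exists_net σ c C hσ δ hδ hδ1) (near_count σ c C hσ)
    (net_sum σ c C hσ) (diag_est σ c C hσ K (by omega))
    (fun N M R B hM hR n p hp v hv cf hcf horth z hz =>
      off_est N K (by omega) M R B hM hR n p hp v hv cf hcf horth z hz)

end Pool.Agent.BM

end

section

/-! Smoothing estimate for kap: version with the statement of smoothing as a hypothesis. -/

set_option autoImplicit false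

open MeasureTheory Complex

namespace Pool.Agent.BM

theorem SmK_arith (C1 M M1 Jr ρ2 : ℝ) (J : ℕ) (hJ : 0 < Jr)
    (hM : 1 ≤ M) (hM1 : 1 ≤ M1) (hρ2 : ρ2 = 1 / (512 * Jr ^ 2 * M1)) :
    (4 * C1 ^ 2 / (ρ2 * M)) ^ J + 2 * Jr * 2 ^ (2 * J) * (C1 / (M * ρ2) ^ J) =
      ((2048 * C1 ^ 2 * Jr ^ 2) ^ J + 2 * Jr * 2 ^ (2 * J) * (C1 * (512 * Jr ^ 2) ^ J)) *
        (M1 / M) ^ J := by
  have h1 : 4 * C1 ^ 2 / (ρ2 * M) = (2048 * C1 ^ 2 * Jr ^ 2) * (M1 / M) := by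
    rw [hρ2]; field_simp; ring
  have h2 : M * ρ2 = ((512 * Jr ^ 2) * (M1 / M))⁻¹ := by
    rw [hρ2]; field_simp
  rw [h1, h2, mul_pow, inv_pow, mul_pow (512 * Jr ^ 2), div_inv_eq_mul]
  ring

theorem smoothing_kap_aux (σ : Measure E2) (c C : ℝ) (hσ : Good σ c C) (K J : ℕ) (hJ : 1 ≤ J)
    (hK : 2 ≤ K) (hKJ : J + 3 ≤ 2 * K)
    (hsm : ∀ (κ : Measure E2) (_ : IsProbabilityMeasure κ) (_ : κ Sᶜ = 0) (n : ℕ)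
      (ρ x A : ℝ) (_ : 0 < ρ) (_ : x = 16 * n ^ 2 * ρ ^ 2)
      (_ : x ≤ 1 / 8) (_ : 0 ≤ A) (u : E2 → ℝ) (_ : Measurable u)
      (_ : ∀ z ∈ S, |u z| ≤ A) (z0 : E2) (_ : z0 ∈ S)
      (F : Matrix (Fin 2) (Fin 2) ℂ → ℂ)
      (_ : ∀ q ∈ S, F (kq q) = (u (act z0 q) : ℂ))
      (_ : ∀ y ∈ KK x, ‖F y‖ ≤ A)
      (_ : ∀ y0 y1 : Matrix (Fin 2) (Fin 2) ℂ, ∀ t : ℂ, y0 + t • y1 ∈ KK x →
        DifferentiableAt ℂ (fun s : ℂ => F (y0 + s • y1)) t),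
      |((Dop κ)^[n] u) z0| ≤ A * ((∫ q, 2 * Real.sqrt ‖1 - q 0‖ / ρ ∂κ) ^ n +
        n * 2 ^ n * κ.real {q | ρ < Real.sqrt ‖1 - q 0‖})) :
    ∃ CD : ℝ, 0 < CD ∧ ∀ M M1 : ℝ, 1 ≤ M → 1 ≤ M1 → ∀ A : ℝ, 0 ≤ A →
      ∀ u : E2 → ℝ, Measurable u → (∀ z ∈ S, |u z| ≤ A) → ∀ z0 ∈ S,
      ∀ F : Matrix (Fin 2) (Fin 2) ℂ → ℂ,
        (∀ q ∈ S, F (kq q) = (u (act z0 q) : ℂ)) →
        (∀ y ∈ KK (1 / (8 * M1)), ‖F y‖ ≤ A) →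
        (∀ y0 y1 : Matrix (Fin 2) (Fin 2) ℂ, ∀ t : ℂ, y0 + t • y1 ∈ KK (1 / (8 * M1)) →
          DifferentiableAt ℂ (fun s : ℂ => F (y0 + s • y1)) t) →
        |((Dop (kap σ K M))^[2 * J] u) z0| ≤ A * CD * (M1 / M) ^ J := by
  obtain ⟨C1, hC1, hmom⟩ := kap_moments σ c C hσ K J hK hKJ
  have hJ0 : (0 : ℝ) < J := by exact_mod_cast hJ
  refine ⟨(2048 * C1 ^ 2 * (J : ℝ) ^ 2) ^ J +
    2 * (J : ℝ) * 2 ^ (2 * J) * (C1 * (512 * (J : ℝ) ^ 2) ^ J), by positivity, ?_⟩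
  intro M M1 hM hM1 A hA u hu huA z0 hz0 F hF1 hF2 hF3
  obtain ⟨hm1, hm2⟩ := hmom M hM
  have hM0 : 0 < M := by linarith
  have hM10 : 0 < M1 := by linarith
  have hin : 0 < 512 * (J : ℝ) ^ 2 * M1 := by positivity
  obtain ⟨ρ, hρ, hρ2⟩ : ∃ ρ : ℝ, 0 < ρ ∧ ρ ^ 2 = 1 / (512 * (J : ℝ) ^ 2 * M1) :=
    ⟨1 / Real.sqrt (512 * (J : ℝ) ^ 2 * M1), by positivity, by
      rw [div_pow, Real.sq_sqrt hin.le, one_pow]⟩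
  have hx : 1 / (8 * M1) = 16 * ((2 * J : ℕ) : ℝ) ^ 2 * ρ ^ 2 := by
    rw [hρ2]; push_cast; field_simp; ring
  have hx' : 1 / (8 * M1) ≤ 1 / 8 := by
    rw [div_le_div_iff₀ (by positivity) (by norm_num)]; linarith
  have key := hsm (kap σ K M) (kap_prob σ c C hσ K M hM) (kap_supp σ c C hσ K M) (2 * J)
    ρ (1 / (8 * M1)) A hρ hx hx' hA u hu huA z0 hz0 F hF1 hF2 hF3
  refine key.trans ?_
  have e1 : ∫ q, 2 * Real.sqrt ‖1 - q 0‖ / ρ ∂(kap σ K M)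
      = (2 / ρ) * ∫ q, Real.sqrt ‖1 - q 0‖ ∂(kap σ K M) := by
    rw [← integral_const_mul]
    congr 1
    ext q
    ring
  have hnn : 0 ≤ ∫ q, Real.sqrt ‖1 - q 0‖ ∂(kap σ K M) :=
    integral_nonneg fun q => Real.sqrt_nonneg _
  have e2 : (∫ q, 2 * Real.sqrt ‖1 - q 0‖ / ρ ∂(kap σ K M)) ^ (2 * J)
      ≤ (4 * C1 ^ 2 / (ρ ^ 2 * M)) ^ J := by
    rw [e1, pow_mul]
    refine pow_le_pow_left₀ (by positivity) ?_ J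
    calc ((2 / ρ) * ∫ q, Real.sqrt ‖1 - q 0‖ ∂(kap σ K M)) ^ 2
        ≤ ((2 / ρ) * (C1 / Real.sqrt M)) ^ 2 := by gcongr
      _ = 4 * C1 ^ 2 / (ρ ^ 2 * M) := by
        rw [mul_pow, div_pow, div_pow, Real.sq_sqrt hM0.le]
        ring
  have e3 := hm2 ρ hρ
  have e4 := SmK_arith C1 M M1 (J : ℝ) (ρ ^ 2) J hJ0 hM hM1 hρ2
  rw [mul_assoc A]
  refine mul_le_mul_of_nonneg_left ?_ hA
  rw [← e4]
  push_cast
  gcongr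

end Pool.Agent.BM

end
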