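import Pool.Agent.Work.MP_e08233_an.Bd.B06
import Pool.Agent.Work.MP_e08233_an.Bd.B03
import Pool.Agent.Work.MP_e08233_an.Bd.B02
import Pool.Agent.Work.MP_e08233_an.Bd.B04

/-! Bundle of small proof modules (one section per former module). -/

section

/-! Smoothing estimate for kap. -/

set_option autoImplicit false

open MeasureTheory Complex

namespace Pool.Agent.BM

theorem smoothing_kap (σ : Measure E2) (c C : ℝ) (hσ : Good σ c C) (K J : ℕ) (hJ : 1 ≤ J)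
    (hK : 2 ≤ K) (hKJ : J + 3 ≤ 2 * K) :
    ∃ CD : ℝ, 0 < CD ∧ ∀ M M1 : ℝ, 1 ≤ M → 1 ≤ M1 → ∀ A : ℝ, 0 ≤ A →
      ∀ u : E2 → ℝ, Measurable u → (∀ z ∈ S, |u z| ≤ A) → ∀ z0 ∈ S,
      ∀ F : Matrix (Fin 2) (Fin 2) ℂ → ℂ,
        (∀ q ∈ S, F (kq q) = (u (act z0 q) : ℂ)) →
        (∀ y ∈ KK (1 / (8 * M1)), ‖F y‖ ≤ A) →
        (∀ y0 y1 : Matrix (Fin 2) (Fin 2) ℂ, ∀ t : ℂ, y0 + t • y1 ∈ KK (1 / (8 * M1)) →
          DifferentiableAt ℂ (fun s : ℂ => F (y0 + s • y1)) t) →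
        |((Dop (kap σ K M))^[2 * J] u) z0| ≤ A * CD * (M1 / M) ^ J :=
  smoothing_kap_aux σ c C hσ K J hJ hK hKJ smoothing

end Pool.Agent.BM

end

section

/-! Smoothing estimate for |h|^2 + 2 Re <g,h> (C6). -/

set_option autoImplicit false

open MeasureTheory Complex

namespace Pool.Agent.BM

theorem ss_cmp_self (M1 : ℝ) (hM1 : 1 ≤ M1) (z : E2) (hz : z ∈ S) : Cmp M1 z z := by
  have hM0 : 0 < M1 := by linarith
  have hzB : z ∈ Bt (1 / M1) := S_subset_Bt (by positivity) hz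
  refine ⟨hzB, hzB, fun p _ => ?_⟩
  have := dl_nonneg z p
  have : 0 ≤ M1 * dl z p := by positivity
  linarith

theorem ss_inner_self (N : ℕ) (u v : VN N) :
    ((‖u‖ ^ 2 + 2 * (inner ℂ v u : ℂ).re : ℝ) : ℂ) =
      (inner ℂ u u : ℂ) + inner ℂ v u + inner ℂ u v := by
  have h1 : (inner ℂ u v : ℂ) = (starRingEnd ℂ) (inner ℂ v u) := (inner_conj_symm _ _).symm
  rw [inner_self_eq_norm_sq_to_K, h1, add_assoc, Complex.add_conj]
  push_cast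
  rfl

theorem smoothing_step_aux (σ : Measure E2) (K J : ℕ)
    (hS : ∃ CD : ℝ, 0 < CD ∧ ∀ M M1 : ℝ, 1 ≤ M → 1 ≤ M1 → ∀ A : ℝ, 0 ≤ A →
      ∀ u : E2 → ℝ, Measurable u → (∀ z ∈ S, |u z| ≤ A) → ∀ z0 ∈ S,
      ∀ F : Matrix (Fin 2) (Fin 2) ℂ → ℂ,
        (∀ q ∈ S, F (kq q) = (u (act z0 q) : ℂ)) →
        (∀ y ∈ KK (1 / (8 * M1)), ‖F y‖ ≤ A) →
        (∀ y0 y1 : Matrix (Fin 2) (Fin 2) ℂ, ∀ t : ℂ, y0 + t • y1 ∈ KK (1 / (8 * M1)) →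
          DifferentiableAt ℂ (fun s : ℂ => F (y0 + s • y1)) t) →
        |((Dop (kap σ K M))^[2 * J] u) z0| ≤ A * CD * (M1 / M) ^ J) :
    ∃ CD : ℝ, 0 < CD ∧ ∀ (N : ℕ) (M M1 : ℝ), 1 ≤ M → 1 ≤ M1 → ∀ a : ℝ, 0 ≤ a →
      ∀ h g : E2 → VN N, Measurable h → Measurable g →
        DifferentiableOn ℂ h (Bt (1 / M1)) → DifferentiableOn ℂ g (Bt (1 / M1)) →
        (∀ z ∈ Bt (1 / M1), ‖h z‖ ^ 2 ≤ a) →
        (∀ z ζ, Cmp M1 z ζ → ‖(inner ℂ (g ζ) (h z) : ℂ)‖ ≤ a) →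
        ∀ z0 ∈ S, |((Dop (kap σ K M))^[2 * J]
          (fun z => ‖h z‖ ^ 2 + 2 * (inner ℂ (g z) (h z) : ℂ).re)) z0| ≤
            a * CD * (M1 / M) ^ J := by
  obtain ⟨CD, hCD, hS⟩ := hS
  refine ⟨3 * CD, by positivity, ?_⟩
  intro N M M1 hM hM1 a ha h g hhm hgm hhd hgd hha hga z0 hz0
  have key := hS M M1 hM hM1 (3 * a) (by positivity)
    (fun z => ‖h z‖ ^ 2 + 2 * (inner ℂ (g z) (h z) : ℂ).re) ?_ ?_ z0 hz0
    (fun y => (inner ℂ (h (ey z0 y)) (h (zy z0 y)) : ℂ) + inner ℂ (g (ey z0 y)) (h (zy z0 y)) +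
      inner ℂ (h (ey z0 y)) (g (zy z0 y))) ?_ ?_ ?_
  · calc _ ≤ 3 * a * CD * (M1 / M) ^ J := key
      _ = a * (3 * CD) * (M1 / M) ^ J := by ring
  · exact (hhm.norm.pow_const 2).add
      ((Complex.measurable_re.comp (hgm.inner hhm)).const_mul 2)
  · intro z hz
    have hM0 : 0 < M1 := by linarith
    have hzB : z ∈ Bt (1 / M1) := S_subset_Bt (by positivity) hz
    have h1 := hha z hzB
    have h2 := hga z z (ss_cmp_self M1 hM1 z hz)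
    have h3 : |(inner ℂ (g z) (h z) : ℂ).re| ≤ a := (Complex.abs_re_le_norm _).trans h2
    have h4 := abs_le.1 h3
    rw [abs_le]
    have h5 : 0 ≤ ‖h z‖ ^ 2 := by positivity
    constructor <;> linarith [h4.1, h4.2]
  · intro q _
    simp only [zy_kq, ey_kq]
    rw [ss_inner_self]
  · intro y hy
    obtain ⟨c1, c2⟩ := cmp_zy M1 hM1 z0 hz0 y hy
    have e1 : ‖(inner ℂ (h (ey z0 y)) (h (zy z0 y)) : ℂ)‖ ≤ a := by
      have n1 := norm_inner_le_norm (𝕜 := ℂ) (h (ey z0 y)) (h (zy z0 y))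
      have n2 := hha _ c1.1
      have n3 := hha _ c2.1
      nlinarith [sq_nonneg (‖h (ey z0 y)‖ - ‖h (zy z0 y)‖)]
    have e2 := hga _ _ c1
    have e3 := hga _ _ c2
    have e4 : ‖(inner ℂ (h (ey z0 y)) (g (zy z0 y)) : ℂ)‖ =
        ‖(inner ℂ (g (zy z0 y)) (h (ey z0 y)) : ℂ)‖ := by
      rw [← inner_conj_symm, Complex.norm_conj]
    have e5 := norm_add₃_le (a := (inner ℂ (h (ey z0 y)) (h (zy z0 y)) : ℂ))
      (b := (inner ℂ (g (ey z0 y)) (h (zy z0 y)) : ℂ))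
      (c := (inner ℂ (h (ey z0 y)) (g (zy z0 y)) : ℂ))
    rw [← e4] at e3
    linarith
  · intro y0 y1 t ht
    exact ((line_diff N M1 hM1 z0 hz0 h h hhd hhd y0 y1 t ht).add
      (line_diff N M1 hM1 z0 hz0 g h hgd hhd y0 y1 t ht)).add
      (line_diff N M1 hM1 z0 hz0 h g hhd hgd y0 y1 t ht)

theorem smoothing_step (σ : Measure E2) (c C : ℝ) (hσ : Good σ c C) (K J : ℕ) (hJ : 1 ≤ J)
    (hK : 2 ≤ K) (hKJ : J + 3 ≤ 2 * K) :
    ∃ CD : ℝ, 0 < CD ∧ ∀ (N : ℕ) (M M1 : ℝ), 1 ≤ M → 1 ≤ M1 → ∀ a : ℝ, 0 ≤ a →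
      ∀ h g : E2 → VN N, Measurable h → Measurable g →
        DifferentiableOn ℂ h (Bt (1 / M1)) → DifferentiableOn ℂ g (Bt (1 / M1)) →
        (∀ z ∈ Bt (1 / M1), ‖h z‖ ^ 2 ≤ a) →
        (∀ z ζ, Cmp M1 z ζ → ‖(inner ℂ (g ζ) (h z) : ℂ)‖ ≤ a) →
        ∀ z0 ∈ S, |((Dop (kap σ K M))^[2 * J]
          (fun z => ‖h z‖ ^ 2 + 2 * (inner ℂ (g z) (h z) : ℂ).re)) z0| ≤
            a * CD * (M1 / M) ^ J :=
  smoothing_step_aux σ K J (smoothing_kap σ c C hσ K J hJ hK hKJ)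

end Pool.Agent.BM

end

section

/-! Assembly, part 1: partial sums, the error function, the induction hypothesis. -/

set_option autoImplicit false

open MeasureTheory Complex

namespace Pool.Agent.BM

/-- partial sums -/
noncomputable def gs {N : ℕ} (h : ℕ → E2 → VN N) (m : ℕ) (z : E2) : VN N :=
  ∑ i ∈ Finset.range m, h i z

/-- the error function -/
noncomputable def ee {N : ℕ} (b : E2 → ℂ) (h : ℕ → E2 → VN N) (m : ℕ) (z : E2) : ℝ :=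
  1 - ‖b z‖ ^ 2 - ‖gs h m z‖ ^ 2

/-- the increment -/
noncomputable def uu {N : ℕ} (g h : E2 → VN N) (z : E2) : ℝ :=
  ‖h z‖ ^ 2 + 2 * (inner ℂ (g z) (h z) : ℂ).re

theorem gs_succ {N : ℕ} (h : ℕ → E2 → VN N) (m : ℕ) (z : E2) :
    gs h (m + 1) z = gs h m z + h m z := by
  unfold gs; rw [Finset.sum_range_succ]

theorem ee_succ {N : ℕ} (b : E2 → ℂ) (h : ℕ → E2 → VN N) (m : ℕ) (z : E2) :
    ee b h (m + 1) z = ee b h m z - uu (gs h m) (h m) z := by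
  unfold ee uu
  rw [gs_succ, @norm_add_sq ℂ]
  simp only [RCLike.re_to_complex]
  ring

theorem gs_congr {N : ℕ} {h h' : ℕ → E2 → VN N} {m : ℕ} (H : ∀ i < m, h i = h' i) :
    gs h m = gs h' m := by
  funext z
  unfold gs
  exact Finset.sum_congr rfl fun i hi => by rw [H i (Finset.mem_range.1 hi)]

theorem ee_congr {N : ℕ} {b : E2 → ℂ} {h h' : ℕ → E2 → VN N} {m : ℕ}
    (H : ∀ i < m, h i = h' i) : ee b h m = ee b h' m := by
  funext z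
  unfold ee
  rw [gs_congr H]

theorem measurable_gs {N : ℕ} {h : ℕ → E2 → VN N} {m : ℕ} (H : ∀ i < m, Measurable (h i)) :
    Measurable (gs h m) := by
  unfold gs
  exact Finset.measurable_sum _ fun i hi => H i (Finset.mem_range.1 hi)

theorem measurable_ee {N : ℕ} {b : E2 → ℂ} {h : ℕ → E2 → VN N} {m : ℕ} (hb : Measurable b)
    (H : ∀ i < m, Measurable (h i)) : Measurable (ee b h m) := by
  unfold ee
  exact (measurable_const.sub (hb.norm.pow_const 2)).sub ((measurable_gs H).norm.pow_const 2)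

theorem measurable_uu {N : ℕ} {g h : E2 → VN N} (hg : Measurable g) (hh : Measurable h) :
    Measurable (uu g h) := by
  unfold uu
  refine (hh.norm.pow_const 2).add (measurable_const.mul ?_)
  exact Complex.measurable_re.comp (hg.inner hh)

theorem gs_bound {N : ℕ} {h : ℕ → E2 → VN N} {m : ℕ} {C1 : ℝ} {T : Set E2}
    (H : ∀ i < m, ∀ z ∈ T, ‖h i z‖ ≤ C1) : ∀ z ∈ T, ‖gs h m z‖ ≤ m * C1 := by
  intro z hz
  unfold gs
  calc ‖∑ i ∈ Finset.range m, h i z‖ ≤ ∑ i ∈ Finset.range m, ‖h i z‖ := norm_sum_le _ _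
    _ ≤ ∑ i ∈ Finset.range m, C1 :=
        Finset.sum_le_sum fun i hi => H i (Finset.mem_range.1 hi) z hz
    _ = m * C1 := by simp

/-- generic dependent choice for sequences -/
theorem exists_seq {X : Type} [Inhabited X] (P : ℕ → (ℕ → X) → Prop)
    (hcongr : ∀ m f g, (∀ i < m, f i = g i) → P m f → P m g)
    (h0 : P 0 (fun _ => default))
    (hstep : ∀ m f, P m f → ∃ x, P (m + 1) (Function.update f m x)) :
    ∃ f : ℕ → X, ∀ m, P m f := by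
  classical
  choose! nx hnx using hstep
  let F : ℕ → (ℕ → X) := fun m =>
    Nat.rec (fun _ => default) (fun m f => Function.update f m (nx m f)) m
  have hF0 : F 0 = fun _ => default := rfl
  have hFs : ∀ m, F (m + 1) = Function.update (F m) m (nx m (F m)) := fun m => rfl
  have hP : ∀ m, P m (F m) := by
    intro m
    induction m with
    | zero => rw [hF0]; exact h0
    | succ m ih => rw [hFs]; exact hnx m (F m) ih
  have hstab : ∀ i k, F (i + 1 + k) i = F (i + 1) i := by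
    intro i k
    induction k with
    | zero => rfl
    | succ k ih =>
      rw [← ih, ← add_assoc, hFs (i + 1 + k)]
      rw [Function.update_of_ne (by omega)]
  refine ⟨fun i => F (i + 1) i, fun m => ?_⟩
  refine hcongr m (F m) _ ?_ (hP m)
  intro i hi
  obtain ⟨k, rfl⟩ : ∃ k, m = i + 1 + k := ⟨m - (i + 1), by omega⟩
  exact hstab i k

/-- geometric sum -/
theorem geo_sum (q w : ℝ) (hq : 0 < q) (hw : 2 * q ≤ w) (m : ℕ) :
    ∑ i ∈ Finset.range m, (q ^ i)⁻¹ * (w ^ (m - i))⁻¹ ≤ (q ^ m)⁻¹ * (2 * (q / w)) := by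
  have hw0 : 0 < w := by linarith
  induction m with
  | zero => simp; positivity
  | succ m ih =>
    rw [Finset.sum_range_succ]
    have h1 : ∑ i ∈ Finset.range m, (q ^ i)⁻¹ * (w ^ (m + 1 - i))⁻¹ =
        (∑ i ∈ Finset.range m, (q ^ i)⁻¹ * (w ^ (m - i))⁻¹) * w⁻¹ := by
      rw [Finset.sum_mul]
      refine Finset.sum_congr rfl fun i hi => ?_
      have hi' := Finset.mem_range.1 hi
      have : m + 1 - i = (m - i) + 1 := by omega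
      rw [this, pow_succ w, mul_inv]
      ring
    rw [h1]
    have h2 : (∑ i ∈ Finset.range m, (q ^ i)⁻¹ * (w ^ (m - i))⁻¹) * w⁻¹ ≤
        ((q ^ m)⁻¹ * (2 * (q / w))) * w⁻¹ := by
      gcongr
    have h3 : m + 1 - m = 1 := by omega
    rw [h3, pow_one]
    have h4 : (q ^ (m + 1))⁻¹ * (2 * (q / w)) = (q ^ m)⁻¹ * (2 * w⁻¹) := by
      rw [pow_succ]; field_simp
    rw [h4]
    have h5 : q / w ≤ 1 / 2 := by
      rw [div_le_iff₀ hw0]; linarith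
    have h6 : ((q ^ m)⁻¹ * (2 * (q / w))) * w⁻¹ + (q ^ m)⁻¹ * w⁻¹ =
        (q ^ m)⁻¹ * ((2 * (q / w) + 1) * w⁻¹) := by ring
    calc (∑ i ∈ Finset.range m, (q ^ i)⁻¹ * (w ^ (m - i))⁻¹) * w⁻¹ + (q ^ m)⁻¹ * w⁻¹
        ≤ ((q ^ m)⁻¹ * (2 * (q / w))) * w⁻¹ + (q ^ m)⁻¹ * w⁻¹ := by linarith
      _ = (q ^ m)⁻¹ * ((2 * (q / w) + 1) * w⁻¹) := h6
      _ ≤ (q ^ m)⁻¹ * (2 * w⁻¹) := by
          have : 2 * (q / w) + 1 ≤ 2 := by linarith
          gcongr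

/-- induction hypothesis -/
structure IH {N : ℕ} (σ : Measure E2) (K J s : ℕ) (Λ κ0 C1 C4 : ℝ) (b : E2 → ℂ)
    (h : ℕ → E2 → VN N) (m : ℕ) : Prop where
  meas : ∀ i < m, Measurable (h i)
  diff : ∀ i < m, DifferentiableOn ℂ (h i) (Bt (1 / Λ ^ (i + 1)))
  bd : ∀ i < m, ∀ z ∈ Bt (1 / Λ ^ (i + 1)), ‖h i z‖ ≤ C1 * ((Λ ^ s) ^ i)⁻¹
  sm : ∀ i < m, ∀ n, i + 2 ≤ n → ∀ z ∈ S,
    |((Dop (kap σ K (Λ ^ n)))^[2 * J] (uu (gs h i) (h i))) z| ≤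
      C4 * ((Λ ^ (2 * s)) ^ i)⁻¹ * (Λ ^ (i + 1) / Λ ^ n) ^ J
  err : ∀ z ∈ S, |ee b h m z - ((Λ ^ (2 * s)) ^ m)⁻¹| ≤ κ0 * ((Λ ^ (2 * s)) ^ m)⁻¹

theorem IH_congr {N : ℕ} {σ : Measure E2} {K J s : ℕ} {Λ κ0 C1 C4 : ℝ} {b : E2 → ℂ}
    {h h' : ℕ → E2 → VN N} {m : ℕ} (H : ∀ i < m, h i = h' i)
    (hI : IH σ K J s Λ κ0 C1 C4 b h m) : IH σ K J s Λ κ0 C1 C4 b h' m := by
  refine ⟨?_, ?_, ?_, ?_, ?_⟩
  · intro i hi; rw [← H i hi]; exact hI.meas i hi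
  · intro i hi; rw [← H i hi]; exact hI.diff i hi
  · intro i hi; rw [← H i hi]; exact hI.bd i hi
  · intro i hi
    rw [← H i hi, ← gs_congr (fun j hj => H j (by omega))]
    exact hI.sm i hi
  · rw [← ee_congr H]; exact hI.err

/-- iterates of Dop applied to the error function -/
theorem Dop_ee {N : ℕ} (κ : Measure E2) (hκ1 : IsProbabilityMeasure κ) (hκ : κ Sᶜ = 0) (n : ℕ)
    (b : E2 → ℂ) (hb : Measurable b) (hbS : ∀ z ∈ S, ‖b z‖ ≤ 1)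
    (h : ℕ → E2 → VN N) (m : ℕ) (C1 : ℝ)
    (hm : ∀ i < m, Measurable (h i)) (hC : ∀ i < m, ∀ z ∈ S, ‖h i z‖ ≤ C1) :
    ∀ z ∈ S, ((Dop κ)^[n] (ee b h m)) z = ((Dop κ)^[n] (ee b h 0)) z -
      ∑ i ∈ Finset.range m, ((Dop κ)^[n] (uu (gs h i) (h i))) z := by
  induction m with
  | zero => intro z hz; simp
  | succ m ih =>
    intro z hz
    have ih' := ih (fun i hi => hm i (by omega)) (fun i hi => hC i (by omega)) z hz
    have hg := gs_bound (m := m) (T := S) (fun i hi => hC i (by omega))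
    have hmm : Measurable (gs h m) := measurable_gs fun i hi => hm i (by omega)
    have hC0 : ∀ z ∈ S, ‖h m z‖ ≤ C1 := hC m (by omega)
    obtain ⟨A, hA1, hA2⟩ : ∃ A : ℝ, (∀ z ∈ S, |ee b h m z| ≤ A) ∧
        (∀ z ∈ S, |uu (gs h m) (h m) z| ≤ A) := by
      refine ⟨2 + (m * C1) ^ 2 + C1 ^ 2 + 2 * ((m * C1) * C1), ?_, ?_⟩
      · intro z hz
        have h1 := hg z hz
        have h2 := hbS z hz
        have h3 := hC0 z hz
        have h4 : 0 ≤ ‖gs h m z‖ := norm_nonneg _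
        have h5 : 0 ≤ ‖b z‖ := norm_nonneg _
        have h6 : 0 ≤ ‖h m z‖ := norm_nonneg _
        have h7 : ‖gs h m z‖ ^ 2 ≤ (m * C1) ^ 2 := by gcongr
        have h8 : ‖b z‖ ^ 2 ≤ 1 := by nlinarith
        have h9 : 0 ≤ (m * C1) * C1 := mul_nonneg (h4.trans h1) (h6.trans h3)
        unfold ee
        rw [abs_le]
        constructor <;> nlinarith [sq_nonneg C1, sq_nonneg (‖gs h m z‖), sq_nonneg (‖b z‖)]
      · intro z hz
        have h1 := hg z hz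
        have h3 := hC0 z hz
        have h4 : 0 ≤ ‖gs h m z‖ := norm_nonneg _
        have h6 : 0 ≤ ‖h m z‖ := norm_nonneg _
        have h7 : |(inner ℂ (gs h m z) (h m z) : ℂ).re| ≤ (m * C1) * C1 := by
          calc |(inner ℂ (gs h m z) (h m z) : ℂ).re| ≤ ‖(inner ℂ (gs h m z) (h m z) : ℂ)‖ :=
                Complex.abs_re_le_norm _
            _ ≤ ‖gs h m z‖ * ‖h m z‖ := norm_inner_le_norm _ _
            _ ≤ (m * C1) * C1 := by gcongr; exact h4.trans h1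
        have h8 : ‖h m z‖ ^ 2 ≤ C1 ^ 2 := by gcongr
        have h9 := abs_le.1 h7
        unfold uu
        rw [abs_le]
        constructor <;> nlinarith [sq_nonneg (m * C1), sq_nonneg (‖h m z‖)]
    have h1 := Dop_linear κ hκ1 hκ n (ee b h m) (uu (gs h m) (h m))
      (measurable_ee hb fun i hi => hm i (by omega)) (measurable_uu hmm (hm m (by omega))) A
      hA1 hA2 1 (-1) z hz
    have h2 : (fun z => 1 * ee b h m z + -1 * uu (gs h m) (h m) z) = ee b h (m + 1) := by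
      funext z
      rw [ee_succ]; ring
    rw [h2] at h1
    rw [h1, ih', Finset.sum_range_succ]
    ring

end Pool.Agent.BM

end

section

/-! Assembly, part 2: the density E and the step. -/

set_option autoImplicit false

open MeasureTheory Complex

namespace Pool.Agent.BM

theorem E_bounds (κ : Measure E2) (hκ1 : IsProbabilityMeasure κ) (hκ : κ Sᶜ = 0) (n : ℕ)
    (hn : 1 ≤ n) (u : E2 → ℝ) (hu : Measurable u) (ε ε' κ0 : ℝ) (hε : 0 < ε)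
    (hκ0 : κ0 = 1 / 2 ^ (n + 2)) (h0 : 0 ≤ ε') (h1 : ε' ≤ ε / 4)
    (hu2 : ∀ z ∈ S, |u z - ε| ≤ κ0 * ε) :
    ∀ z ∈ S, 0 ≤ ∑ j ∈ Finset.range n, ((Dop κ)^[j] (fun z => u z - ε')) z ∧
      ∑ j ∈ Finset.range n, ((Dop κ)^[j] (fun z => u z - ε')) z ≤ 2 * ε := by
  intro z hz
  have hκ0pos : 0 < κ0 := by rw [hκ0]; positivity
  have huA : ∀ z ∈ S, |u z| ≤ κ0 * ε + ε := by
    intro z hz
    have := abs_le.1 (hu2 z hz)
    rw [abs_le]; constructor <;> nlinarith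
  have key : ∀ j : ℕ, |((Dop κ)^[j] (fun z => u z - ε')) z - (if j = 0 then (ε - ε') else 0)| ≤
      2 ^ j * (κ0 * ε) := by
    intro j
    by_cases hj : j = 0
    · subst hj
      simp only [Function.iterate_zero, id_eq, if_true, pow_zero, one_mul]
      have := hu2 z hz
      have h3 : u z - ε' - (ε - ε') = u z - ε := by ring
      rw [h3]; exact this
    · have hj1 : 1 ≤ j := by omega
      rw [if_neg hj, sub_zero]
      rw [Dop_const κ hκ1 hκ j hj1 u hu _ huA ε' z hz]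
      rw [← Dop_const κ hκ1 hκ j hj1 u hu _ huA ε z hz]
      exact Dop_bound κ hκ1 hκ j (fun z => u z - ε) (hu.sub_const _) (κ0 * ε) hu2 z hz
  have h2 : |∑ j ∈ Finset.range n, ((Dop κ)^[j] (fun z => u z - ε')) z - (ε - ε')| ≤ ε / 4 := by
    have h3 : ∑ j ∈ Finset.range n, (if j = 0 then (ε - ε') else 0) = ε - ε' := by
      rw [Finset.sum_ite_eq' (Finset.range n) 0 (fun _ => ε - ε')]
      simp; omega
    have h4 : ∑ j ∈ Finset.range n, ((Dop κ)^[j] (fun z => u z - ε')) z - (ε - ε') =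
        ∑ j ∈ Finset.range n, (((Dop κ)^[j] (fun z => u z - ε')) z -
          (if j = 0 then (ε - ε') else 0)) := by
      rw [Finset.sum_sub_distrib, h3]
    rw [h4]
    calc |∑ j ∈ Finset.range n, (((Dop κ)^[j] (fun z => u z - ε')) z -
          (if j = 0 then (ε - ε') else 0))| ≤ ∑ j ∈ Finset.range n,
          |(((Dop κ)^[j] (fun z => u z - ε')) z - (if j = 0 then (ε - ε') else 0))| :=
          Finset.abs_sum_le_sum_abs _ _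
      _ ≤ ∑ j ∈ Finset.range n, 2 ^ j * (κ0 * ε) := Finset.sum_le_sum fun j _ => key j
      _ = (∑ j ∈ Finset.range n, (2 : ℝ) ^ j) * (κ0 * ε) := by rw [Finset.sum_mul]
      _ ≤ 2 ^ n * (κ0 * ε) := by
          have : ∑ j ∈ Finset.range n, (2 : ℝ) ^ j ≤ 2 ^ n := by
            rw [geom_sum_eq (by norm_num)]; norm_num
          gcongr
      _ = ε / 4 := by
          rw [hκ0, pow_add]; field_simp; norm_num
  have h5 := abs_le.1 h2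
  constructor <;> linarith

/-- the hypotheses on constants used in the step -/
structure Cst (σ : Measure E2) (N K J l s d : ℕ) (Λ κ0 C1 C4 CD CP CX η R : ℝ) : Prop where
  hs : 1 ≤ s
  hJ : J = 4 * s + 1
  hl : l = 7 * s + 1
  hd : d = 2 ^ (2 * l)
  hΛ : 2 ≤ Λ
  hκ0 : κ0 = 1 / 2 ^ (2 * J + 2)
  hη : 0 < η
  hR : 1 ≤ R
  hCP : 1 ≤ CP
  hCD : 0 < CD
  hCX : 0 < CX
  hC1 : C1 = Real.sqrt (4 * CP)
  hC4 : C4 = 4 * CP * CD
  n1 : CP * 2 * (η + (4 / R ^ 2) ^ (K - 3) / η ^ 4) ≤ κ0 / 4 * (Λ ^ (2 * s))⁻¹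
  n2 : (4 / R ^ 2) ^ (K - 3) / η ^ 4 ≤ 1
  n3 : CX * (Real.sqrt (2 * CP) * η ^ 2) * (C1 * (2 * (Λ ^ s / Λ ^ l))) * (CP / η ^ 4) ≤
    κ0 / 8 * (Λ ^ (2 * s))⁻¹
  n4 : CD * (Λ ^ J)⁻¹ + C4 * (2 * (Λ ^ (2 * s) / Λ ^ J)) ≤ κ0 / 4 * (Λ ^ (2 * s))⁻¹
  prob : ∀ n : ℕ, IsProbabilityMeasure (kap σ K (Λ ^ n))
  supp : ∀ n : ℕ, kap σ K (Λ ^ n) Sᶜ = 0
  smooth : ∀ (N : ℕ) (M M1 : ℝ), 1 ≤ M → 1 ≤ M1 → ∀ a : ℝ, 0 ≤ a →
      ∀ h g : E2 → VN N, Measurable h → Measurable g →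
        DifferentiableOn ℂ h (Bt (1 / M1)) → DifferentiableOn ℂ g (Bt (1 / M1)) →
        (∀ z ∈ Bt (1 / M1), ‖h z‖ ^ 2 ≤ a) →
        (∀ z ζ, Cmp M1 z ζ → ‖(inner ℂ (g ζ) (h z) : ℂ)‖ ≤ a) →
        ∀ z0 ∈ S, |((Dop (kap σ K M))^[2 * J]
          (fun z => ‖h z‖ ^ 2 + 2 * (inner ℂ (g z) (h z) : ℂ).re)) z0| ≤
            a * CD * (M1 / M) ^ J
  pack : ∀ M : ℝ, 1 ≤ M →
        ∀ (E : E2 → ℝ) (a : ℝ), Measurable E → 0 < a → (∀ z ∈ S, 0 ≤ E z ∧ E z ≤ a) →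
        ∀ W : E2 → Submodule ℂ (VN N), (∀ p ∈ S, Module.finrank ℂ (W p) ≤ d) →
        ∃ (n : ℕ) (p : Fin n → E2) (v : Fin n → VN N) (cf : Fin n → ℝ),
          (∀ α, p α ∈ S) ∧ (∀ α, ‖v α‖ = 1) ∧ (∀ α, v α ∈ (W (p α))ᗮ) ∧
          (∀ α, 0 ≤ cf α ∧ cf α ^ 2 ≤ CP * a * η ^ 4) ∧
          (∀ z ∈ Bt (1 / M), ∑ α, ((1 + M * dl z (p α)) ^ 3)⁻¹ ≤ CP / η ^ 4) ∧
          (∀ z ∈ Bt (1 / M), ‖∑ α, ((cf α : ℂ) * pk K M (p α) z) • v α‖ ^ 2 ≤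
            CP * a * (1 + (4 / R ^ 2) ^ (K - 3) / η ^ 4)) ∧
          (∀ z ∈ S, |‖∑ α, ((cf α : ℂ) * pk K M (p α) z) • v α‖ ^ 2 - Top (kap σ K M) E z| ≤
            CP * a * (η + (4 / R ^ 2) ^ (K - 3) / η ^ 4))
  cross : ∀ (N m : ℕ) (h : ℕ → E2 → VN N) (Mi Ai : ℕ → ℝ) (M' : ℝ), 1 ≤ M' →
      (∀ i < m, 1 ≤ Mi i ∧ Mi i ≤ M' ∧ 0 ≤ Ai i) →
      (∀ i < m, DifferentiableOn ℂ (h i) (Bt (1 / Mi i))) →
      (∀ i < m, ∀ z ∈ Bt (1 / Mi i), ‖h i z‖ ≤ Ai i) →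
      ∀ (n : ℕ) (p : Fin n → E2) (v : Fin n → VN N) (cf : Fin n → ℝ) (B : ℝ),
        (∀ α, p α ∈ S) → (∀ α, ‖v α‖ = 1) → (∀ α, 0 ≤ cf α ∧ cf α ≤ B) →
        (∀ α, ∀ w : E2, ∀ k < 2 * l, iteratedDeriv k
          (fun t : ℂ => (inner ℂ (v α) (∑ i ∈ Finset.range m, h i (p α + t • w)) : ℂ)) 0 = 0) →
        ∀ z ζ, Cmp M' z ζ →
          ‖(inner ℂ (∑ i ∈ Finset.range m, h i ζ)
            (∑ α, ((cf α : ℂ) * pk K M' (p α) z) • v α) : ℂ)‖ ≤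
          CX * B * (∑ i ∈ Finset.range m, Ai i * (Mi i / M') ^ l) *
            ∑ α, ((1 + M' * dl z (p α)) ^ 3)⁻¹

/-- jets of the partial sums -/
theorem exists_W {N : ℕ} (l m : ℕ) (hl : 1 ≤ l) (Λ : ℝ) (hΛ : 2 ≤ Λ) (h : ℕ → E2 → VN N)
    (hd : ∀ i < m, DifferentiableOn ℂ (h i) (Bt (1 / Λ ^ (i + 1)))) :
    ∃ W : E2 → Submodule ℂ (VN N), (∀ p ∈ S, Module.finrank ℂ (W p) ≤ 2 ^ (2 * l)) ∧
      ∀ p ∈ S, ∀ v ∈ (W p)ᗮ, ∀ w : E2, ∀ k < 2 * l, iteratedDeriv k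
          (fun t : ℂ => (inner ℂ v (∑ i ∈ Finset.range m, h i (p + t • w)) : ℂ)) 0 = 0 := by
  have hΛ0 : 0 < Λ := by linarith
  have hU : DifferentiableOn ℂ (gs h m) (Bt (1 / Λ ^ (m + 1))) := by
    unfold gs
    refine DifferentiableOn.fun_sum fun i hi => ?_
    have hi' := Finset.mem_range.1 hi
    refine (hd i hi').mono (Bt_mono ?_)
    apply one_div_le_one_div_of_le (by positivity)
    exact pow_le_pow_right₀ (by linarith) (by omega)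
  have hex : ∀ p : E2, ∃ W : Submodule ℂ (VN N), p ∈ S →
      (Module.finrank ℂ W ≤ 2 ^ (2 * l) ∧ ∀ v ∈ Wᗮ, ∀ w : E2, ∀ k < 2 * l, iteratedDeriv k
          (fun t : ℂ => (inner ℂ v (∑ i ∈ Finset.range m, h i (p + t • w)) : ℂ)) 0 = 0) := by
    intro p
    by_cases hp : p ∈ S
    · obtain ⟨W, hW1, hW2⟩ := jets N (2 * l - 1) (gs h m) (Bt (1 / Λ ^ (m + 1))) (isOpen_Bt _) hU p
        (S_subset_Bt (by positivity) hp)
      refine ⟨W, fun _ => ⟨?_, ?_⟩⟩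
      · have : 2 * l - 1 + 1 = 2 * l := by omega
        rw [this] at hW1; exact hW1
      · intro v hv w k hk
        exact hW2 v hv w k (by omega)
    · exact ⟨⊥, fun h => absurd h hp⟩
  choose W hW using hex
  exact ⟨W, fun p hp => (hW p hp).1, fun p hp => (hW p hp).2⟩

theorem sum_Ai (C1 Λ : ℝ) (s l m : ℕ) (hC1 : 0 ≤ C1) (hΛ : 2 ≤ Λ) (hls : s + 1 ≤ l) :
    ∑ i ∈ Finset.range m, (C1 * ((Λ ^ s) ^ i)⁻¹) * (Λ ^ (i + 1) / Λ ^ (m + 1)) ^ l ≤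
      ((Λ ^ s) ^ m)⁻¹ * (C1 * (2 * (Λ ^ s / Λ ^ l))) := by
  have hΛ0 : 0 < Λ := by linarith
  have h1 := geo_sum (Λ ^ s) (Λ ^ l) (by positivity) (by
    calc 2 * Λ ^ s ≤ Λ * Λ ^ s := by gcongr
      _ = Λ ^ (s + 1) := by ring
      _ ≤ Λ ^ l := pow_le_pow_right₀ (by linarith) hls) m
  calc ∑ i ∈ Finset.range m, (C1 * ((Λ ^ s) ^ i)⁻¹) * (Λ ^ (i + 1) / Λ ^ (m + 1)) ^ l
      = C1 * ∑ i ∈ Finset.range m, ((Λ ^ s) ^ i)⁻¹ * ((Λ ^ l) ^ (m - i))⁻¹ := by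
        rw [Finset.mul_sum]
        refine Finset.sum_congr rfl fun i hi => ?_
        have hi' := Finset.mem_range.1 hi
        have h2 : Λ ^ (m + 1) = Λ ^ (i + 1) * Λ ^ (m - i) := by
          rw [← pow_add]; congr 1; omega
        have h3 : Λ ^ (i + 1) / Λ ^ (m + 1) = (Λ ^ (m - i))⁻¹ := by
          rw [h2]; field_simp
        rw [h3, inv_pow, ← pow_mul, ← pow_mul, mul_comm (m - i) l]
        ring
    _ ≤ C1 * (((Λ ^ s) ^ m)⁻¹ * (2 * (Λ ^ s / Λ ^ l))) := by gcongr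
    _ = ((Λ ^ s) ^ m)⁻¹ * (C1 * (2 * (Λ ^ s / Λ ^ l))) := by ring

theorem sum_Bi (C4 Λ : ℝ) (s J m : ℕ) (hC4 : 0 ≤ C4) (hΛ : 2 ≤ Λ) (hls : 2 * s + 1 ≤ J) :
    ∑ i ∈ Finset.range m, (C4 * ((Λ ^ (2 * s)) ^ i)⁻¹) * (Λ ^ (i + 1) / Λ ^ (m + 1)) ^ J ≤
      ((Λ ^ (2 * s)) ^ m)⁻¹ * (C4 * (2 * (Λ ^ (2 * s) / Λ ^ J))) :=
  sum_Ai C4 Λ (2 * s) J m hC4 hΛ hls

end Pool.Agent.BM

end
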